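import Mathlib

/-!
Differences and product measures on the cube of finite sets.
-/

set_option autoImplicit false

namespace Pool.Agent.Helper29_Rel

open Finset

section Diff

variable {α : Type*} [DecidableEq α]

/-- discrete derivative in direction `k` -/
def del (k : α) (g : Finset α → ℝ) (x : Finset α) : ℝ := g (insert k x) - g (x.erase k)

/-- iterated difference over the set `M` -/
def dd (M : Finset α) (g : Finset α → ℝ) (x : Finset α) : ℝ :=
  ∑ R ∈ M.powerset, (-1 : ℝ) ^ ((M \ R).card) * g ((x \ M) ∪ R)

lemma dd_empty (g : Finset α → ℝ) (x : Finset α) : dd ∅ g x = g x := by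
  simp [dd]

lemma dd_insert (k : α) (M : Finset α) (hk : k ∉ M) (g : Finset α → ℝ) (x : Finset α) :
    dd (insert k M) g x = dd M g (insert k x) - dd M g (x.erase k) := by
  unfold dd
  rw [sum_powerset_insert hk, add_comm, sub_eq_add_neg, ← sum_neg_distrib]
  congr 1
  · apply sum_congr rfl
    intro R hR
    have hRM : R ⊆ M := mem_powerset.mp hR
    have hkR : k ∉ R := fun h => hk (hRM h)
    have h1 : insert k M \ insert k R = M \ R := by
      ext y
      simp only [mem_sdiff, mem_insert]
      constructor
      · rintro ⟨h1, h2⟩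
        push Not at h2
        exact ⟨h1.resolve_left h2.1, h2.2⟩
      · rintro ⟨h1, h2⟩
        refine ⟨Or.inr h1, ?_⟩
        rintro (rfl | h3)
        · exact hk h1
        · exact h2 h3
    have h2 : x \ insert k M ∪ insert k R = insert k x \ M ∪ R := by
      ext y
      simp only [mem_union, mem_sdiff, mem_insert]
      by_cases hy : y = k
      · subst hy; simp [hk]
      · simp [hy]
    rw [h1, h2]
  · apply sum_congr rfl
    intro R hR
    have hRM : R ⊆ M := mem_powerset.mp hR
    have hkR : k ∉ R := fun h => hk (hRM h)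
    have h1 : insert k M \ R = insert k (M \ R) := by
      rw [insert_sdiff_of_notMem _ hkR]
    have h2 : (insert k M \ R).card = (M \ R).card + 1 := by
      rw [h1, card_insert_of_notMem]
      simp [hk]
    have h3 : x \ insert k M ∪ R = x.erase k \ M ∪ R := by
      ext y
      simp only [mem_union, mem_sdiff, mem_insert, mem_erase]
      tauto
    rw [h2, h3, pow_succ]
    ring

lemma dd_singleton (k : α) (g : Finset α → ℝ) (x : Finset α) : dd {k} g x = del k g x := by
  have := dd_insert k ∅ (by simp) g x
  rw [insert_empty_eq] at this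
  rw [this, dd_empty, dd_empty, del]

lemma dd_sdiff (M : Finset α) (g : Finset α → ℝ) (x : Finset α) : dd M g (x \ M) = dd M g x := by
  unfold dd
  rw [Finset.sdiff_idem]

lemma dd_congr_of_sdiff (M : Finset α) (g : Finset α → ℝ) (x y : Finset α) (h : x \ M = y \ M) :
    dd M g x = dd M g y := by
  rw [← dd_sdiff M g x, h, dd_sdiff]

lemma dd_comp (U K : Finset α) (hUK : Disjoint U K) (g : Finset α → ℝ) :
    ∀ x, dd U (dd K g) x = dd (U ∪ K) g x := by
  induction U using Finset.induction_on with
  | empty => intro x; rw [dd_empty, empty_union]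
  | insert k U hk ih =>
    intro x
    rw [disjoint_insert_left] at hUK
    have hk' : k ∉ U ∪ K := by
      rw [mem_union]; push Not; exact ⟨hk, hUK.1⟩
    rw [dd_insert k U hk, ih hUK.2, ih hUK.2, insert_union, dd_insert k (U ∪ K) hk']

/-- the difference over `M` is not identically zero -/
def NZ (M : Finset α) (g : Finset α → ℝ) : Prop := ∃ x, dd M g x ≠ 0

lemma NZ_mono {K M : Finset α} (h : K ⊆ M) {g : Finset α → ℝ} (hM : NZ M g) : NZ K g := by
  by_contra hK
  unfold NZ at hK
  push Not at hK
  obtain ⟨x, hx⟩ := hM
  apply hx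
  have h1 : M = (M \ K) ∪ K := (sdiff_union_of_subset h).symm
  rw [h1, ← dd_comp (M \ K) K sdiff_disjoint]
  unfold dd
  apply sum_eq_zero
  intro R _
  have := hK (x \ (M \ K) ∪ R)
  unfold dd at this
  rw [this, mul_zero]

lemma dd_insert_eq {K : Finset α} {g : Finset α → ℝ} {v : α} (hv : v ∉ K)
    (h : ¬ NZ (insert v K) g) (x : Finset α) : dd K g (insert v x) = dd K g (x.erase v) := by
  unfold NZ at h
  push Not at h
  have := h x
  rw [dd_insert v K hv] at this
  linarith

lemma dd_indep {K : Finset α} {g : Finset α → ℝ} (Y : Finset α)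
    (h : ∀ v ∈ Y, v ∉ K → ¬ NZ (insert v K) g) : ∀ x, dd K g (x \ Y) = dd K g x := by
  induction Y using Finset.induction_on with
  | empty => intro x; rw [sdiff_empty]
  | insert v Y hv ih =>
    intro x
    have ih' := ih (fun w hw => h w (mem_insert_of_mem hw))
    have e1 : x \ insert v Y = (x \ Y).erase v := by
      ext y; simp only [mem_sdiff, mem_insert, mem_erase]; tauto
    rw [e1]
    by_cases hvK : v ∈ K
    · rw [← ih' x]
      apply dd_congr_of_sdiff
      ext y
      simp only [mem_sdiff, mem_erase]
      constructor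
      · rintro ⟨⟨_, h2⟩, h3⟩; exact ⟨h2, h3⟩
      · rintro ⟨h2, h3⟩
        refine ⟨⟨?_, h2⟩, h3⟩
        rintro rfl; exact h3 hvK
    · have hz := dd_insert_eq hvK (h v (mem_insert_self v Y) hvK)
      rw [← ih' x]
      by_cases hvx : v ∈ x \ Y
      · have e2 := hz (x \ Y)
        rw [insert_eq_of_mem hvx] at e2
        exact e2.symm
      · rw [erase_eq_of_notMem hvx]

end Diff

section Measure

variable {α : Type*} [DecidableEq α]

/-- expectation with respect to the product measure with parameter `t` on subsets of `X` -/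
noncomputable def EE (t : ℝ) (X : Finset α) (g : Finset α → ℝ) : ℝ :=
  ∑ x ∈ X.powerset, (∏ k ∈ X, if k ∈ x then t else 1 - t) * g x

lemma EE_empty (t : ℝ) (g : Finset α → ℝ) : EE t ∅ g = g ∅ := by
  simp [EE]

lemma EE_insert (t : ℝ) {a : α} {X : Finset α} (ha : a ∉ X) (g : Finset α → ℝ) :
    EE t (insert a X) g = (1 - t) * EE t X g + t * EE t X (fun x => g (insert a x)) := by
  unfold EE
  rw [sum_powerset_insert ha, mul_sum, mul_sum]
  congr 1
  · apply sum_congr rfl
    intro x hx
    have hxX : x ⊆ X := mem_powerset.mp hx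
    have hax : a ∉ x := fun h => ha (hxX h)
    rw [prod_insert ha, if_neg hax]
    ring
  · apply sum_congr rfl
    intro x hx
    have hxX : x ⊆ X := mem_powerset.mp hx
    have hax : a ∉ x := fun h => ha (hxX h)
    rw [prod_insert ha, if_pos (mem_insert_self a x)]
    have : ∏ k ∈ X, (if k ∈ insert a x then t else 1 - t) = ∏ k ∈ X, (if k ∈ x then t else 1 - t) := by
      apply prod_congr rfl
      intro k hk
      have hka : k ≠ a := by rintro rfl; exact ha hk
      simp [hka]
    rw [this]
    ring

lemma EE_congr {t : ℝ} {X : Finset α} {g h : Finset α → ℝ} (H : ∀ x, x ⊆ X → g x = h x) :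
    EE t X g = EE t X h := by
  unfold EE
  apply sum_congr rfl
  intro x hx
  rw [H x (mem_powerset.mp hx)]

lemma EE_mono {t : ℝ} (h0 : 0 ≤ t) (h1 : t ≤ 1) {X : Finset α} {g h : Finset α → ℝ}
    (H : ∀ x, x ⊆ X → g x ≤ h x) : EE t X g ≤ EE t X h := by
  unfold EE
  apply sum_le_sum
  intro x hx
  apply mul_le_mul_of_nonneg_left (H x (mem_powerset.mp hx))
  apply prod_nonneg
  intro k _
  split_ifs <;> linarith

lemma EE_const (t : ℝ) (X : Finset α) (c : ℝ) : EE t X (fun _ => c) = c := by
  induction X using Finset.induction_on with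
  | empty => rw [EE_empty]
  | insert a X ha ih => rw [EE_insert t ha, ih]; ring

lemma EE_add (t : ℝ) (X : Finset α) (g h : Finset α → ℝ) :
    EE t X (fun x => g x + h x) = EE t X g + EE t X h := by
  unfold EE
  rw [← sum_add_distrib]
  apply sum_congr rfl
  intro x _; ring

lemma EE_sub (t : ℝ) (X : Finset α) (g h : Finset α → ℝ) :
    EE t X (fun x => g x - h x) = EE t X g - EE t X h := by
  unfold EE
  rw [← sum_sub_distrib]
  apply sum_congr rfl
  intro x _; ring

lemma EE_mul_left (t : ℝ) (X : Finset α) (c : ℝ) (g : Finset α → ℝ) :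
    EE t X (fun x => c * g x) = c * EE t X g := by
  unfold EE
  rw [mul_sum]
  apply sum_congr rfl
  intro x _; ring

lemma EE_sum {ι : Type*} (t : ℝ) (X : Finset α) (s : Finset ι) (g : ι → Finset α → ℝ) :
    EE t X (fun x => ∑ i ∈ s, g i x) = ∑ i ∈ s, EE t X (g i) := by
  unfold EE
  rw [sum_comm]
  apply sum_congr rfl
  intro x _
  rw [mul_sum]

lemma EE_nonneg {t : ℝ} (h0 : 0 ≤ t) (h1 : t ≤ 1) {X : Finset α} {g : Finset α → ℝ}
    (H : ∀ x, x ⊆ X → 0 ≤ g x) : 0 ≤ EE t X g := by
  have := EE_mono h0 h1 (X := X) (g := fun _ => 0) (h := g) H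
  rwa [EE_const] at this

lemma EE_le_const {t : ℝ} (h0 : 0 ≤ t) (h1 : t ≤ 1) {X : Finset α} {g : Finset α → ℝ} {c : ℝ}
    (H : ∀ x, x ⊆ X → g x ≤ c) : EE t X g ≤ c := by
  have := EE_mono h0 h1 (X := X) (g := g) (h := fun _ => c) H
  rwa [EE_const] at this

lemma continuous_EE (X : Finset α) (g : Finset α → ℝ) : Continuous (fun t => EE t X g) := by
  unfold EE
  apply continuous_finsetSum
  intro x _
  apply Continuous.mul _ continuous_const
  apply continuous_finsetProd
  intro k _
  split_ifs
  · exact continuous_id
  · exact continuous_const.sub continuous_id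

/-- Russo's formula -/
lemma russo (X : Finset α) : ∀ (g : Finset α → ℝ) (t : ℝ),
    HasDerivAt (fun t => EE t X g) (∑ k ∈ X, EE t X (del k g)) t := by
  induction X using Finset.induction_on with
  | empty =>
    intro g t
    simp only [EE_empty, sum_empty]
    exact hasDerivAt_const t _
  | insert a X ha ih =>
    intro g t
    have h1 : (fun t => EE t (insert a X) g)
        = fun t => (1 - t) * EE t X g + t * EE t X (fun x => g (insert a x)) := by
      funext s; exact EE_insert s ha g
    rw [h1]
    have h2 := ((hasDerivAt_id t).const_sub 1).mul (ih g t)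
    have h3 := (hasDerivAt_id t).mul (ih (fun x => g (insert a x)) t)
    have h4 := h2.add h3
    refine (h4.congr_deriv ?_)
    rw [sum_insert ha]
    have e1 : EE t (insert a X) (del a g) = EE t X (fun x => g (insert a x)) - EE t X g := by
      rw [EE_insert t ha, ← EE_sub]
      have e2 : EE t X (del a g) = EE t X (fun x => g (insert a x) - g x) := by
        apply EE_congr
        intro x hx
        have hax : a ∉ x := fun h => ha (hx h)
        rw [del, erase_eq_of_notMem hax]
      have e3 : EE t X (fun x => del a g (insert a x)) = EE t X (fun x => g (insert a x) - g x) := by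
        apply EE_congr
        intro x hx
        have hax : a ∉ x := fun h => ha (hx h)
        rw [del, insert_idem, erase_insert hax]
      rw [e2, e3]; ring
    have e4 : ∑ k ∈ X, EE t (insert a X) (del k g)
        = (1 - t) * ∑ k ∈ X, EE t X (del k g)
          + t * ∑ k ∈ X, EE t X (del k (fun x => g (insert a x))) := by
      rw [mul_sum, mul_sum, ← sum_add_distrib]
      apply sum_congr rfl
      intro k hk
      rw [EE_insert t ha]
      congr 2
      apply EE_congr
      intro x hx
      have hka : k ≠ a := by rintro rfl; exact ha hk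
      rw [del, del, Finset.insert_comm, erase_insert_of_ne hka.symm]
    rw [e1, e4]
    simp only [id]
    ring

/-- marginals -/
lemma EE_union_sdiff (t : ℝ) (X Y : Finset α) (hXY : Disjoint X Y) (g : Finset α → ℝ) :
    EE t (Y ∪ X) (fun x => g (x \ Y)) = EE t X g := by
  induction Y using Finset.induction_on generalizing g with
  | empty =>
    rw [empty_union]
    apply EE_congr
    intro x _; rw [sdiff_empty]
  | insert a Y ha ih =>
    rw [disjoint_insert_right] at hXY
    have ha' : a ∉ Y ∪ X := by
      rw [mem_union]; push Not; exact ⟨ha, hXY.1⟩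
    rw [insert_union, EE_insert t ha']
    have e1 : EE t (Y ∪ X) (fun x => g (x \ insert a Y)) = EE t (Y ∪ X) (fun x => g (x \ Y)) := by
      apply EE_congr
      intro x hx
      have hax : a ∉ x := fun h => ha' (hx h)
      congr 1
      ext y; simp only [mem_sdiff, mem_insert]
      constructor
      · rintro ⟨h1, h2⟩; exact ⟨h1, fun h => h2 (Or.inr h)⟩
      · rintro ⟨h1, h2⟩
        refine ⟨h1, ?_⟩
        rintro (rfl | h3)
        · exact hax h1
        · exact h2 h3
    have e2 : EE t (Y ∪ X) (fun x => g (insert a x \ insert a Y)) = EE t (Y ∪ X) (fun x => g (x \ Y)) := by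
      apply EE_congr
      intro x hx
      have hax : a ∉ x := fun h => ha' (hx h)
      congr 1
      ext y; simp only [mem_sdiff, mem_insert]
      constructor
      · rintro ⟨h1, h2⟩
        push Not at h2
        exact ⟨h1.resolve_left h2.1, h2.2⟩
      · rintro ⟨h1, h2⟩
        refine ⟨Or.inr h1, ?_⟩
        rintro (rfl | h3)
        · exact hax h1
        · exact h2 h3
    rw [e1, e2, ih hXY.2]
    ring

end Measure

end Pool.Agent.Helper29_Rel
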