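import Mathlib
import Pool.Agent.Helper29_Rel.Cube

/-!
Functions of bounded degree on the cube of finite sets.
-/

set_option autoImplicit false

namespace Pool.Agent.Helper29_Rel

set_option linter.unusedSectionVars false
set_option linter.unusedTactic false
set_option linter.unnecessarySeqFocus false

open Finset

open Classical in
/-- indicator of a proposition -/
noncomputable def ind (p : Prop) : ℝ := if p then 1 else 0

lemma ind_pos {p : Prop} (h : p) : ind p = 1 := by unfold ind; rw [if_pos h]
lemma ind_neg {p : Prop} (h : ¬ p) : ind p = 0 := by unfold ind; rw [if_neg h]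
lemma ind_nonneg (p : Prop) : 0 ≤ ind p := by unfold ind; split_ifs <;> norm_num
lemma ind_le_one (p : Prop) : ind p ≤ 1 := by unfold ind; split_ifs <;> norm_num
lemma ind_mono {p q : Prop} (h : p → q) : ind p ≤ ind q := by
  by_cases hp : p
  · rw [ind_pos hp, ind_pos (h hp)]
  · rw [ind_neg hp]; exact ind_nonneg q
lemma ind_congr {p q : Prop} (h : p ↔ q) : ind p = ind q := by
  rw [propext h]

variable {α : Type*} [DecidableEq α]

lemma EE_union (t : ℝ) (Y U : Finset α) (h : Disjoint Y U) (g : Finset α → ℝ) :
    EE t (Y ∪ U) g = EE t Y (fun z => EE t U (fun R => g (z ∪ R))) := by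
  induction Y using Finset.induction_on generalizing g with
  | empty =>
    rw [EE_empty]
    simp only [empty_union]
  | insert a Y ha ih =>
    rw [disjoint_insert_left] at h
    have ha' : a ∉ Y ∪ U := by
      rw [mem_union]; push Not; exact ⟨ha, h.1⟩
    rw [insert_union, EE_insert t ha', EE_insert t ha, ih h.2, ih h.2]
    simp only [insert_union]

lemma EE_half (U : Finset α) (g : Finset α → ℝ) :
    EE (1 / 2) U g = (1 / 2) ^ U.card * ∑ R ∈ U.powerset, g R := by
  unfold EE
  rw [mul_sum]
  apply sum_congr rfl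
  intro x _
  congr 1
  have : ∀ k ∈ U, (if k ∈ x then (1 / 2 : ℝ) else 1 - 1 / 2) = 1 / 2 := by
    intro k _; split_ifs <;> norm_num
  rw [prod_congr rfl this, prod_const]

lemma EE_half_ge {U : Finset α} {g : Finset α → ℝ} (h0 : ∀ x, 0 ≤ g x) {R : Finset α}
    (hR : R ⊆ U) (h1 : 1 ≤ g R) : (1 / 2 : ℝ) ^ U.card ≤ EE (1 / 2) U g := by
  rw [EE_half]
  have h2 : 1 ≤ ∑ R ∈ U.powerset, g R :=
    le_trans h1 (single_le_sum (f := g) (fun x _ => h0 x) (mem_powerset.mpr hR))
  have h3 : (0 : ℝ) ≤ (1 / 2) ^ U.card := by positivity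
  nlinarith

section Deg

variable [Fintype α]

lemma exists_maxU {f : Finset α → ℝ} {K : Finset α} (hK : NZ K f) :
    ∃ U : Finset α, Disjoint U K ∧ NZ (U ∪ K) f ∧
      ∀ v, v ∉ U ∪ K → ¬ NZ (insert v (U ∪ K)) f := by
  classical
  obtain ⟨U, hU, hmax⟩ := Finset.exists_max_image
    ((univ : Finset (Finset α)).filter (fun U => Disjoint U K ∧ NZ (U ∪ K) f)) (fun U => U.card)
    ⟨∅, by simp only [mem_filter, mem_univ, true_and, disjoint_empty_left, empty_union]; exact hK⟩
  simp only [mem_filter, mem_univ, true_and] at hU hmax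
  refine ⟨U, hU.1, hU.2, ?_⟩
  intro v hv hNZ
  rw [mem_union] at hv
  push Not at hv
  have h1 := hmax (insert v U) ⟨by rw [disjoint_insert_left]; exact ⟨hv.2, hU.1⟩, by
    rw [insert_union]; exact hNZ⟩
  rw [card_insert_of_notMem hv.1] at h1
  omega

lemma SZ {f : Finset α → ℝ} {d : ℕ} (hd : ∀ M, NZ M f → M.card ≤ d) {K : Finset α}
    (hK : NZ K f) :
    (1 / 2 : ℝ) ^ (d - K.card) ≤ EE (1 / 2) univ (fun x => ind (dd K f x ≠ 0)) := by
  obtain ⟨U, hUK, hNZ, hmax⟩ := exists_maxU hK
  have hconst : ∀ x, dd (U ∪ K) f x = dd (U ∪ K) f ∅ := by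
    intro x
    have := dd_indep (K := U ∪ K) (g := f) univ (fun v _ hv => hmax v hv) x
    rw [← this]
    congr 1
    ext y; simp
  have hc : dd (U ∪ K) f ∅ ≠ 0 := by
    obtain ⟨x, hx⟩ := hNZ
    rwa [hconst x] at hx
  have hcard : U.card + K.card ≤ d := by
    rw [← card_union_of_disjoint hUK]; exact hd _ hNZ
  have h1 : (univ : Finset α) = (univ \ U) ∪ U := by
    rw [sdiff_union_of_subset (subset_univ U)]
  rw [h1, EE_union _ _ _ sdiff_disjoint]
  have h2 : (1 / 2 : ℝ) ^ (d - K.card) ≤ (1 / 2 : ℝ) ^ U.card := by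
    apply pow_le_pow_of_le_one (by norm_num) (by norm_num)
    omega
  refine le_trans h2 ?_
  have h3 : EE (1 / 2) (univ \ U) (fun _ : Finset α => (1 / 2 : ℝ) ^ U.card)
      = (1 / 2 : ℝ) ^ U.card := EE_const _ _ _
  rw [← h3]
  apply EE_mono (by norm_num) (by norm_num)
  intro z hz
  have h4 : dd U (dd K f) z ≠ 0 := by
    rw [dd_comp U K hUK, hconst]; exact hc
  unfold dd at h4
  obtain ⟨R, hR, hR2⟩ := Finset.exists_ne_zero_of_sum_ne_zero h4
  have h5 : z \ U = z := by
    ext y; simp only [mem_sdiff]
    constructor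
    · exact fun h => h.1
    · intro hy
      have := hz hy
      rw [mem_sdiff] at this
      exact ⟨hy, this.2⟩
  rw [h5] at hR2
  apply EE_half_ge (fun x => ind_nonneg _) (mem_powerset.mp hR)
  rw [ind_pos]
  intro h6
  apply hR2
  change _ * dd K f (z ∪ R) = 0
  rw [h6, mul_zero]

end Deg

lemma dd_add_half {M : Finset α} {a : α} (ha : a ∉ M) (g : Finset α → ℝ) (x : Finset α) :
    dd M (fun x => (g (insert a x) + g (x.erase a)) / 2) x
      = (dd M g (insert a x) + dd M g (x.erase a)) / 2 := by
  unfold dd
  rw [← sum_add_distrib, sum_div]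
  apply sum_congr rfl
  intro R hR
  have hR' : R ⊆ M := mem_powerset.mp hR
  have haR : a ∉ R := fun h => ha (hR' h)
  have e1 : insert a (x \ M ∪ R) = insert a x \ M ∪ R := by
    ext y; simp only [mem_insert, mem_union, mem_sdiff]
    by_cases hy : y = a
    · subst hy; simp [ha]
    · simp [hy]
  have e2 : (x \ M ∪ R).erase a = x.erase a \ M ∪ R := by
    ext y; simp only [mem_erase, mem_union, mem_sdiff]
    by_cases hy : y = a
    · subst hy; simp [haR]
    · simp [hy]
  beta_reduce
  rw [e1, e2]; ring

lemma dd_sub_half {M : Finset α} {a : α} (ha : a ∉ M) (g : Finset α → ℝ) (x : Finset α) :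
    dd M (fun x => (g (insert a x) - g (x.erase a)) / 2) x = dd (insert a M) g x / 2 := by
  rw [dd_insert a M ha]
  unfold dd
  rw [← sum_sub_distrib, sum_div]
  apply sum_congr rfl
  intro R hR
  have hR' : R ⊆ M := mem_powerset.mp hR
  have haR : a ∉ R := fun h => ha (hR' h)
  have e1 : insert a (x \ M ∪ R) = insert a x \ M ∪ R := by
    ext y; simp only [mem_insert, mem_union, mem_sdiff]
    by_cases hy : y = a
    · subst hy; simp [ha]
    · simp [hy]
  have e2 : (x \ M ∪ R).erase a = x.erase a \ M ∪ R := by
    ext y; simp only [mem_erase, mem_union, mem_sdiff]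
    by_cases hy : y = a
    · subst hy; simp [haR]
    · simp [hy]
  beta_reduce
  rw [e1, e2]; ring

lemma energy (X : Finset α) : ∀ (e : ℕ) (g : Finset α → ℝ),
    (∀ M, M ⊆ X → e < M.card → ∀ x, dd M g x = 0) →
    ∑ k ∈ X, EE (1 / 2) X (fun x => (del k g x) ^ 2)
      ≤ 4 * e * EE (1 / 2) X (fun x => (g x) ^ 2) := by
  induction X using Finset.induction_on with
  | empty =>
    intro e g _
    rw [sum_empty]
    have : 0 ≤ EE (1 / 2) ∅ (fun x => (g x) ^ 2) :=
      EE_nonneg (by norm_num) (by norm_num) (fun x _ => sq_nonneg _)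
    positivity
  | insert a X ha ih =>
    intro e g hg
    rcases Nat.eq_zero_or_pos e with he | he
    · subst he
      have h0 : ∀ k ∈ insert a X, EE (1 / 2) (insert a X) (fun x => (del k g x) ^ 2) = 0 := by
        intro k hk
        have h1 : EE (1 / 2) (insert a X) (fun x => (del k g x) ^ 2)
            = EE (1 / 2) (insert a X) (fun _ => 0) := by
          apply EE_congr
          intro x _
          have := hg {k} (singleton_subset_iff.mpr hk) (by simp) x
          rw [dd_singleton] at this
          rw [this]; ring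
        rw [h1, EE_const]
      rw [sum_eq_zero h0]
      simp
    · obtain ⟨e', rfl⟩ : ∃ e', e = e' + 1 := ⟨e - 1, by omega⟩
      set u : Finset α → ℝ := fun x => (g (insert a x) + g (x.erase a)) / 2 with hu
      set w : Finset α → ℝ := fun x => (g (insert a x) - g (x.erase a)) / 2 with hw
      have hiu := ih (e' + 1) u (by
        intro M hM hc x
        have haM : a ∉ M := fun h => ha (hM h)
        rw [hu, dd_add_half haM, hg M (hM.trans (subset_insert a X)) hc,
          hg M (hM.trans (subset_insert a X)) hc]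
        norm_num)
      have hiw := ih e' w (by
        intro M hM hc x
        have haM : a ∉ M := fun h => ha (hM h)
        rw [hw, dd_sub_half haM, hg (insert a M) (insert_subset_insert a hM) (by
          rw [card_insert_of_notMem haM]; omega)]
        norm_num)
      have gx : ∀ x, x ⊆ X → g x = u x - w x := by
        intro x hx
        have hax : a ∉ x := fun h => ha (hx h)
        rw [hu, hw]; simp only; rw [erase_eq_of_notMem hax]; ring
      have gx' : ∀ x, x ⊆ X → g (insert a x) = u x + w x := by
        intro x hx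
        rw [hu, hw]; simp only; ring
      have hE : EE (1 / 2) (insert a X) (fun x => (g x) ^ 2)
          = EE (1 / 2) X (fun x => (u x) ^ 2) + EE (1 / 2) X (fun x => (w x) ^ 2) := by
        rw [EE_insert _ ha]
        have e1 : EE (1 / 2) X (fun x => (g x) ^ 2)
            = EE (1 / 2) X (fun x => (u x - w x) ^ 2) := EE_congr (fun x hx => by rw [gx x hx])
        have e2 : EE (1 / 2) X (fun x => (g (insert a x)) ^ 2)
            = EE (1 / 2) X (fun x => (u x + w x) ^ 2) := EE_congr (fun x hx => by rw [gx' x hx])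
        rw [e1, e2, ← EE_mul_left, ← EE_mul_left, ← EE_add, ← EE_add]
        apply EE_congr
        intro x _; ring
      have hA : EE (1 / 2) (insert a X) (fun x => (del a g x) ^ 2)
          = 4 * EE (1 / 2) X (fun x => (w x) ^ 2) := by
        rw [EE_insert _ ha]
        have e1 : EE (1 / 2) X (fun x => (del a g x) ^ 2)
            = EE (1 / 2) X (fun x => 4 * (w x) ^ 2) := EE_congr (fun x hx => by
              rw [hw]; simp only [del]; ring)
        have e2 : EE (1 / 2) X (fun x => (del a g (insert a x)) ^ 2)
            = EE (1 / 2) X (fun x => 4 * (w x) ^ 2) := EE_congr (fun x hx => by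
              have hax : a ∉ x := fun h => ha (hx h)
              rw [hw]; simp only [del, insert_idem, erase_insert hax, erase_eq_of_notMem hax]; ring)
        rw [e1, e2, EE_mul_left]; ring
      have hB : ∀ k ∈ X, EE (1 / 2) (insert a X) (fun x => (del k g x) ^ 2)
          = EE (1 / 2) X (fun x => (del k u x) ^ 2) + EE (1 / 2) X (fun x => (del k w x) ^ 2) := by
        intro k hk
        have hka : k ≠ a := by rintro rfl; exact ha hk
        rw [EE_insert _ ha]
        have e1 : EE (1 / 2) X (fun x => (del k g x) ^ 2)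
            = EE (1 / 2) X (fun x => (del k u x - del k w x) ^ 2) := EE_congr (fun x hx => by
              have h1 := gx (insert k x) (insert_subset hk hx)
              have h2 := gx (x.erase k) ((erase_subset k x).trans hx)
              simp only [del]
              rw [h1, h2]; ring)
        have e2 : EE (1 / 2) X (fun x => (del k g (insert a x)) ^ 2)
            = EE (1 / 2) X (fun x => (del k u x + del k w x) ^ 2) := EE_congr (fun x hx => by
              have h1 := gx' (insert k x) (insert_subset hk hx)
              have h2 := gx' (x.erase k) ((erase_subset k x).trans hx)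
              simp only [del]
              rw [Finset.insert_comm, h1, erase_insert_of_ne hka.symm, h2]; ring)
        rw [e1, e2, ← EE_mul_left, ← EE_mul_left, ← EE_add, ← EE_add]
        apply EE_congr
        intro x _; ring
      rw [sum_insert ha, hA, sum_congr rfl hB, sum_add_distrib, hE]
      push_cast at hiu hiw ⊢
      nlinarith

/-- {0,1}-valued monotone functions on the cube -/
structure Mono (f : Finset α → ℝ) : Prop where
  val : ∀ x, f x = 0 ∨ f x = 1
  mono : ∀ x y, x ⊆ y → f x ≤ f y

lemma Mono.del_val {f : Finset α → ℝ} (hf : Mono f) (i : α) (x : Finset α) :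
    del i f x = 0 ∨ del i f x = 1 := by
  have h1 := hf.mono (x.erase i) (insert i x) ((erase_subset i x).trans (subset_insert i x))
  rcases hf.val (x.erase i) with h2 | h2 <;> rcases hf.val (insert i x) with h3 | h3 <;>
    simp only [del, h2, h3] at h1 ⊢ <;> first | (left; norm_num; done) | (right; norm_num; done) | (exfalso; norm_num at h1; done)

lemma Mono.one_of_subset {f : Finset α → ℝ} (hf : Mono f) {x y : Finset α} (h : x ⊆ y)
    (hx : f x = 1) : f y = 1 := by
  have := hf.mono x y h
  rcases hf.val y with h2 | h2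
  · rw [hx, h2] at this; norm_num at this
  · exact h2

lemma Mono.zero_of_subset {f : Finset α → ℝ} (hf : Mono f) {x y : Finset α} (h : x ⊆ y)
    (hy : f y = 0) : f x = 0 := by
  have := hf.mono x y h
  rcases hf.val x with h2 | h2
  · exact h2
  · rw [hy, h2] at this; norm_num at this

lemma Mono.del_eq_one {f : Finset α → ℝ} (hf : Mono f) {i : α} {x : Finset α} :
    del i f x = 1 ↔ f (insert i x) = 1 ∧ f (x.erase i) = 0 := by
  constructor
  · intro h
    rcases hf.val (x.erase i) with h2 | h2 <;> rcases hf.val (insert i x) with h3 | h3 <;>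
      simp only [del, h2, h3] at h ⊢ <;> first | (exfalso; norm_num at h; done) | norm_num
  · rintro ⟨h1, h2⟩
    rw [del, h1, h2]; norm_num

section Deg2

variable [Fintype α]

lemma dd_del_eq_zero {f : Finset α → ℝ} {d : ℕ} (hd : ∀ M, NZ M f → M.card ≤ d) (i : α)
    (M : Finset α) (hM : d - 1 < M.card) (x : Finset α) (hd1 : 1 ≤ d) :
    dd M (del i f) x = 0 := by
  have hdel : del i f = dd {i} f := by
    funext y; rw [dd_singleton]
  by_cases hi : i ∈ M
  · have hM' : M = insert i (M.erase i) := (insert_erase hi).symm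
    have hni : i ∉ M.erase i := notMem_erase i M
    rw [hM', dd_insert i _ hni, hdel]
    have hdis : Disjoint (M.erase i) {i} := by
      rw [disjoint_singleton_right]; exact hni
    rw [dd_comp _ _ hdis, dd_comp _ _ hdis]
    rw [dd_congr_of_sdiff (M.erase i ∪ {i}) f (insert i x) (x.erase i)]
    · ring
    · ext y
      simp only [mem_sdiff, mem_insert, mem_erase, mem_union, mem_singleton]
      tauto
  · have hdis : Disjoint M {i} := by
      rw [disjoint_singleton_right]; exact hi
    rw [hdel, dd_comp _ _ hdis]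
    by_contra h
    have h1 := hd (M ∪ {i}) ⟨x, h⟩
    rw [card_union_of_disjoint hdis, card_singleton] at h1
    omega

open Classical in
/-- the set of directions that matter for the derivative in direction `i` -/
noncomputable def nbr (f : Finset α → ℝ) (i : α) : Finset α :=
  univ.filter (fun k => k ≠ i ∧ NZ {k, i} f)

lemma mem_nbr {f : Finset α → ℝ} {i k : α} : k ∈ nbr f i ↔ k ≠ i ∧ NZ {k, i} f := by
  unfold nbr
  simp only [mem_filter, mem_univ, true_and]

/-- the influence of `i` -/
noncomputable def mu (f : Finset α → ℝ) (i : α) : ℝ := EE (1 / 2) univ (del i f)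

lemma mu_le_one {f : Finset α → ℝ} (hf : Mono f) (i : α) : mu f i ≤ 1 := by
  unfold mu
  apply EE_le_const (by norm_num) (by norm_num)
  intro x _
  rcases hf.del_val i x with h | h <;> rw [h] <;> norm_num

lemma mu_ge {f : Finset α → ℝ} (hf : Mono f) {d : ℕ} (hd : ∀ M, NZ M f → M.card ≤ d) {i : α}
    (hi : NZ {i} f) : (1 / 2 : ℝ) ^ (d - 1) ≤ mu f i := by
  have h1 := SZ hd hi
  rw [card_singleton] at h1
  refine le_trans h1 ?_
  unfold mu
  apply EE_mono (by norm_num) (by norm_num)
  intro x _
  rw [dd_singleton]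
  rcases hf.del_val i x with h | h
  · rw [h, ind_neg (by simp)]
  · rw [h]; exact ind_le_one _

lemma card_nbr_le {f : Finset α → ℝ} (hf : Mono f) {d : ℕ} (hd : ∀ M, NZ M f → M.card ≤ d)
    (hd1 : 1 ≤ d) (i : α) :
    ((nbr f i).card : ℝ) ≤ (d - 1) * 2 ^ d * mu f i := by
  by_cases hne : (nbr f i).card = 0
  · rw [hne]
    have h1 : 0 ≤ mu f i := by
      unfold mu
      apply EE_nonneg (by norm_num) (by norm_num)
      intro x _
      rcases hf.del_val i x with h | h <;> rw [h] <;> norm_num
    have h2 : (0 : ℝ) ≤ (d : ℝ) - 1 := by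
      have : (1 : ℝ) ≤ d := by exact_mod_cast hd1
      linarith
    push_cast
    positivity
  · have hd2 : 2 ≤ d := by
      obtain ⟨k, hk⟩ := card_pos.mp (Nat.pos_of_ne_zero hne)
      rw [mem_nbr] at hk
      have := hd _ hk.2
      rw [card_pair hk.1] at this
      exact this
    have hen := energy (univ : Finset α) (d - 1) (del i f) (by
      intro M _ hM x
      exact dd_del_eq_zero hd i M hM x hd1)
    have h1 : EE (1 / 2) univ (fun x => (del i f x) ^ 2) = mu f i := by
      unfold mu
      apply EE_congr
      intro x _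
      rcases hf.del_val i x with h | h <;> rw [h] <;> norm_num
    rw [h1] at hen
    have h2 : ∀ k ∈ nbr f i, (1 / 2 : ℝ) ^ (d - 2)
        ≤ EE (1 / 2) univ (fun x => (del k (del i f) x) ^ 2) := by
      intro k hk
      rw [mem_nbr] at hk
      have h3 := SZ hd hk.2
      rw [card_pair hk.1] at h3
      refine le_trans h3 ?_
      apply EE_mono (by norm_num) (by norm_num)
      intro x _
      have h4 : dd {k, i} f x = del k (del i f) x := by
        rw [dd_insert k {i} (by simpa using hk.1), dd_singleton, dd_singleton]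
        rfl
      rw [h4]
      by_cases h5 : del k (del i f) x = 0
      · rw [h5, ind_neg (by simp)]; norm_num
      · have h6 : (del k (del i f) x) ^ 2 = 1 := by
          unfold del at h5 ⊢
          have e1 := hf.del_val i (insert k x)
          have e2 := hf.del_val i (x.erase k)
          unfold del at e1 e2
          rcases e1 with e1 | e1 <;> rcases e2 with e2 | e2 <;> rw [e1, e2] at h5 ⊢ <;>
            first | (exfalso; norm_num at h5; done) | norm_num
        rw [h6]; exact ind_le_one _
    have h3 : ((nbr f i).card : ℝ) * (1 / 2 : ℝ) ^ (d - 2)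
        ≤ ∑ k ∈ (univ : Finset α), EE (1 / 2) univ (fun x => (del k (del i f) x) ^ 2) := by
      calc ((nbr f i).card : ℝ) * (1 / 2 : ℝ) ^ (d - 2)
          = ∑ _k ∈ nbr f i, (1 / 2 : ℝ) ^ (d - 2) := by rw [sum_const, nsmul_eq_mul]
        _ ≤ ∑ k ∈ nbr f i, EE (1 / 2) univ (fun x => (del k (del i f) x) ^ 2) := sum_le_sum h2
        _ ≤ _ := by
          apply sum_le_sum_of_subset_of_nonneg (subset_univ _)
          intro k _ _
          exact EE_nonneg (by norm_num) (by norm_num) (fun x _ => sq_nonneg _)
    have h4 := le_trans h3 hen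
    have h5 : ((d - 1 : ℕ) : ℝ) = (d : ℝ) - 1 := by
      rw [Nat.cast_sub hd1]; norm_num
    rw [h5] at h4
    have h6 : (2 : ℝ) ^ d = 4 * 2 ^ (d - 2) := by
      have : d = (d - 2) + 2 := by omega
      conv_lhs => rw [this, pow_add]
      ring
    have h7 : (1 / 2 : ℝ) ^ (d - 2) * 2 ^ (d - 2) = 1 := by
      rw [← mul_pow]; norm_num
    rw [h6]
    have h8 : (0 : ℝ) < 2 ^ (d - 2) := by positivity
    calc ((nbr f i).card : ℝ) = ((nbr f i).card * (1 / 2 : ℝ) ^ (d - 2)) * 2 ^ (d - 2) := by
          rw [mul_assoc, h7, mul_one]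
      _ ≤ (4 * ((d : ℝ) - 1) * mu f i) * 2 ^ (d - 2) := by
          apply mul_le_mul_of_nonneg_right h4 h8.le
      _ = _ := by ring

end Deg2

end Pool.Agent.Helper29_Rel
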