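import Mathlib
import Pool.Agent.Helper29_Rel.Poly

/-!
Boundary of pairwise incomparable convex families; isoperimetry; window estimates.
-/

set_option autoImplicit false
set_option linter.unusedSectionVars false

namespace Pool.Agent.Helper29_Rel

open Finset

variable {α : Type*} [DecidableEq α]

/-- indicator of the inner boundary in direction `k` -/
noncomputable def bd (k : α) (T : Finset α → Prop) (x : Finset α) : ℝ :=
  ind (T x ∧ ¬ (T (insert k x) ∧ T (x.erase k)))

lemma two_point_aux {θ p q : ℝ} (h0 : 1 / 4 ≤ θ) (h1 : θ ≤ 3 / 4) (hq : 0 ≤ q) (hpq : q ≤ p) :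
    Real.negMulLog ((1 - θ) * p + θ * q) ≤ (1 - θ) * Real.negMulLog p + θ * Real.negMulLog q
      + θ * (p - q) := by
  have hp : 0 ≤ p := hq.trans hpq
  rcases eq_or_lt_of_le hp with hp0 | hp0
  · have : q = 0 := by linarith
    subst this
    rw [← hp0]
    simp
  · set P := (1 - θ) * p + θ * q with hP
    have hPpos : 0 < P := by nlinarith
    have hqP : q ≤ P := by nlinarith
    have hPp : P ≤ p := by nlinarith
    have e1 : Real.log p - Real.log P ≤ p / P - 1 := by
      rw [← Real.log_div hp0.ne' hPpos.ne']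
      exact Real.log_le_sub_one_of_pos (div_pos hp0 hPpos)
    have e2 : q * (Real.log q - Real.log P) ≤ 0 := by
      rcases eq_or_lt_of_le hq with hq0 | hq0
      · rw [← hq0]; simp
      · apply mul_nonpos_of_nonneg_of_nonpos hq
        have := Real.log_le_log hq0 hqP
        linarith
    have e3 : (1 - θ) * p * (p / P - 1) ≤ θ * (p - q) := by
      have : (1 - θ) * p * (p / P - 1) = (1 - θ) * p * (θ * (p - q)) / P := by
        field_simp
        rw [hP]; ring
      rw [this, div_le_iff₀ hPpos]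
      have h5 : 0 ≤ θ * (p - q) := mul_nonneg (by linarith) (by linarith)
      have h6 : (1 - θ) * p ≤ P := by nlinarith
      nlinarith
    have e4 : (1 - θ) * p * (Real.log p - Real.log P) ≤ (1 - θ) * p * (p / P - 1) :=
      mul_le_mul_of_nonneg_left e1 (mul_nonneg (by linarith) hp)
    have e5 : θ * (q * (Real.log q - Real.log P)) ≤ 0 :=
      mul_nonpos_of_nonneg_of_nonpos (by linarith) e2
    simp only [Real.negMulLog]
    have e6 : P * Real.log P = (1 - θ) * p * Real.log P + θ * q * Real.log P := by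
      rw [hP]; ring
    nlinarith

lemma two_point {θ p q u v : ℝ} (h0 : 1 / 4 ≤ θ) (h1 : θ ≤ 3 / 4) (hp : 0 ≤ p) (hq : 0 ≤ q)
    (hu : 0 ≤ u) (hv : 0 ≤ v) (hu' : p - q ≤ u) (hv' : q - p ≤ v) :
    Real.negMulLog ((1 - θ) * p + θ * q) ≤ (1 - θ) * Real.negMulLog p + θ * Real.negMulLog q
      + 3 * ((1 - θ) * u + θ * v) := by
  rcases le_total q p with h | h
  · have := two_point_aux h0 h1 hq h
    nlinarith
  · have := two_point_aux (θ := 1 - θ) (p := q) (q := p) (by linarith) (by linarith) hp h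
    have e : (1 - (1 - θ)) * q + (1 - θ) * p = (1 - θ) * p + θ * q := by ring
    rw [e] at this
    nlinarith

/-- isoperimetric inequality -/
lemma iso {θ : ℝ} (h0 : 1 / 4 ≤ θ) (h1 : θ ≤ 3 / 4) (X : Finset α) : ∀ T : Finset α → Prop,
    Real.negMulLog (EE θ X (fun x => ind (T x))) ≤ 3 * ∑ k ∈ X, EE θ X (bd k T) := by
  have hθ0 : 0 ≤ θ := by linarith
  have hθ1 : θ ≤ 1 := by linarith
  induction X using Finset.induction_on with
  | empty =>
    intro T
    rw [EE_empty, sum_empty, mul_zero]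
    by_cases h : T ∅
    · rw [ind_pos h]; simp
    · rw [ind_neg h]; simp
  | insert a X ha ih =>
    intro T
    set p := EE θ X (fun x => ind (T x)) with hp
    set q := EE θ X (fun x => ind (T (insert a x))) with hq
    have i1 := ih T
    have i2 := ih (fun x => T (insert a x))
    rw [EE_insert θ ha, sum_insert ha]
    have hB : ∀ k ∈ X, EE θ (insert a X) (bd k T)
        = (1 - θ) * EE θ X (bd k T) + θ * EE θ X (bd k (fun x => T (insert a x))) := by
      intro k hk
      have hka : k ≠ a := by rintro rfl; exact ha hk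
      rw [EE_insert θ ha]
      congr 2
      apply EE_congr
      intro x _
      unfold bd
      rw [Finset.insert_comm, erase_insert_of_ne hka.symm]
    have hA : EE θ (insert a X) (bd a T)
        = (1 - θ) * EE θ X (fun x => ind (T x ∧ ¬ T (insert a x)))
          + θ * EE θ X (fun x => ind (T (insert a x) ∧ ¬ T x)) := by
      rw [EE_insert θ ha]
      congr 2
      · apply EE_congr
        intro x hx
        have hax : a ∉ x := fun h => ha (hx h)
        unfold bd
        apply ind_congr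
        rw [erase_eq_of_notMem hax]
        tauto
      · apply EE_congr
        intro x hx
        have hax : a ∉ x := fun h => ha (hx h)
        unfold bd
        apply ind_congr
        rw [insert_idem, erase_insert hax]
        tauto
    rw [sum_congr rfl hB, sum_add_distrib, ← mul_sum, ← mul_sum, hA]
    have hu : 0 ≤ EE θ X (fun x => ind (T x ∧ ¬ T (insert a x))) :=
      EE_nonneg hθ0 hθ1 (fun x _ => ind_nonneg _)
    have hv : 0 ≤ EE θ X (fun x => ind (T (insert a x) ∧ ¬ T x)) :=
      EE_nonneg hθ0 hθ1 (fun x _ => ind_nonneg _)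
    have hpq0 : ∀ (A B : Prop), ind A - ind B ≤ ind (A ∧ ¬ B) := by
      intro A B
      by_cases hA : A <;> by_cases hB : B
      · rw [ind_pos hA, ind_pos hB]; have := ind_nonneg (A ∧ ¬ B); linarith
      · rw [ind_pos hA, ind_neg hB, ind_pos ⟨hA, hB⟩]; norm_num
      · rw [ind_neg hA, ind_pos hB]; have := ind_nonneg (A ∧ ¬ B); linarith
      · rw [ind_neg hA, ind_neg hB]; have := ind_nonneg (A ∧ ¬ B); linarith
    have hu' : p - q ≤ EE θ X (fun x => ind (T x ∧ ¬ T (insert a x))) := by
      rw [hp, hq, ← EE_sub]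
      exact EE_mono hθ0 hθ1 (fun x _ => hpq0 _ _)
    have hv' : q - p ≤ EE θ X (fun x => ind (T (insert a x) ∧ ¬ T x)) := by
      rw [hp, hq, ← EE_sub]
      exact EE_mono hθ0 hθ1 (fun x _ => hpq0 _ _)
    have hp0 : 0 ≤ p := EE_nonneg hθ0 hθ1 (fun x _ => ind_nonneg _)
    have hq0 : 0 ≤ q := EE_nonneg hθ0 hθ1 (fun x _ => ind_nonneg _)
    have := two_point h0 h1 hp0 hq0 hu hv hu' hv'
    nlinarith

/-- convex pairwise incomparable families -/
structure Inc {ι : Type*} (s : Finset ι) (T : ι → Finset α → Prop) : Prop where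
  conv : ∀ i ∈ s, ∀ x y z, x ⊆ y → y ⊆ z → T i x → T i z → T i y
  cross : ∀ i ∈ s, ∀ j ∈ s, i ≠ j → ∀ x y, x ⊆ y → T i x → ¬ T j y

section CoreSec

variable {ι : Type*} {s : Finset ι} {T : ι → Finset α → Prop}

/-- up-closure of the union -/
def FF (s : Finset ι) (T : ι → Finset α → Prop) (x : Finset α) : Prop :=
  ∃ i ∈ s, ∃ y, y ⊆ x ∧ T i y

/-- the part of the up-closure outside of the union -/
def GG (s : Finset ι) (T : ι → Finset α → Prop) (x : Finset α) : Prop :=
  FF s T x ∧ ∀ i ∈ s, ¬ T i x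

lemma FF_mono {x y : Finset α} (h : x ⊆ y) (hx : FF s T x) : FF s T y := by
  obtain ⟨i, hi, z, hz, hT⟩ := hx
  exact ⟨i, hi, z, hz.trans h, hT⟩

lemma GG_mono (hI : Inc s T) {x y : Finset α} (h : x ⊆ y) (hx : GG s T x) : GG s T y := by
  refine ⟨FF_mono h hx.1, ?_⟩
  intro j hj hTj
  obtain ⟨i, hi, z, hz, hT⟩ := hx.1
  by_cases hij : i = j
  · subst hij
    exact hx.2 i hi (hI.conv i hi z x y hz h hT hTj)
  · exact hI.cross i hi j hj hij z y (hz.trans h) hT hTj

/-- sum of the two indicators -/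
noncomputable def hh (s : Finset ι) (T : ι → Finset α → Prop) (x : Finset α) : ℝ :=
  ind (FF s T x) + ind (GG s T x)

lemma hh_mono (hI : Inc s T) {x y : Finset α} (h : x ⊆ y) : hh s T x ≤ hh s T y :=
  add_le_add (ind_mono (FF_mono h)) (ind_mono (GG_mono hI h))

lemma hh_nonneg (x : Finset α) : 0 ≤ hh s T x := add_nonneg (ind_nonneg _) (ind_nonneg _)

lemma hh_le_two (x : Finset α) : hh s T x ≤ 2 := by
  have h1 := ind_le_one (FF s T x)
  have h2 := ind_le_one (GG s T x)
  unfold hh; linarith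

lemma core_pointwise (hI : Inc s T) (k : α) (x : Finset α) :
    ∑ i ∈ s, bd k (T i) x ≤ del k (hh s T) x := by
  classical
  have hnn : 0 ≤ del k (hh s T) x := by
    have := hh_mono hI (s := s) (T := T) ((erase_subset k x).trans (subset_insert k x))
    unfold del; linarith
  by_cases hex : ∃ i ∈ s, T i x
  · obtain ⟨i, hi, hTi⟩ := hex
    have h1 : ∑ j ∈ s, bd k (T j) x = bd k (T i) x := by
      apply sum_eq_single_of_mem i hi
      intro j hj hji
      unfold bd
      apply ind_neg
      rintro ⟨h, _⟩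
      exact hI.cross i hi j hj (Ne.symm hji) x x (Subset.refl x) hTi h
    rw [h1]
    by_cases hb : T i (insert k x) ∧ T i (x.erase k)
    · unfold bd
      rw [ind_neg (by tauto)]; exact hnn
    · unfold bd
      rw [ind_pos ⟨hTi, hb⟩]
      have hFx : FF s T x := ⟨i, hi, x, Subset.refl x, hTi⟩
      have hGx : ¬ GG s T x := fun h => h.2 i hi hTi
      by_cases hkx : k ∈ x
      · rw [insert_eq_of_mem hkx] at hb
        have hTe : ¬ T i (x.erase k) := fun h => hb ⟨hTi, h⟩
        have hFe : ¬ FF s T (x.erase k) := by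
          rintro ⟨j, hj, y, hy, hTj⟩
          by_cases hji : j = i
          · subst hji
            exact hTe (hI.conv j hj y _ x hy (erase_subset k x) hTj hTi)
          · exact hI.cross j hj i hi hji y x (hy.trans (erase_subset k x)) hTj hTi
        have hGe : ¬ GG s T (x.erase k) := fun h => hFe h.1
        unfold del hh
        rw [insert_eq_of_mem hkx, ind_pos hFx, ind_neg hGx, ind_neg hFe, ind_neg hGe]
        norm_num
      · rw [erase_eq_of_notMem hkx] at hb
        have hTe : ¬ T i (insert k x) := fun h => hb ⟨h, hTi⟩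
        have hFe : FF s T (insert k x) := FF_mono (subset_insert k x) hFx
        have hGe : GG s T (insert k x) := by
          refine ⟨hFe, ?_⟩
          intro j hj hTj
          by_cases hji : j = i
          · subst hji; exact hTe hTj
          · exact hI.cross i hi j hj (Ne.symm hji) x _ (subset_insert k x) hTi hTj
        unfold del hh
        rw [erase_eq_of_notMem hkx, ind_pos hFe, ind_pos hGe, ind_pos hFx, ind_neg hGx]
        norm_num
  · push Not at hex
    have h1 : ∑ j ∈ s, bd k (T j) x = 0 := by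
      apply sum_eq_zero
      intro j hj
      unfold bd
      apply ind_neg
      rintro ⟨h, _⟩
      exact hex j hj h
    rw [h1]; exact hnn

/-- the total boundary function -/
noncomputable def Psi (X : Finset α) (s : Finset ι) (T : ι → Finset α → Prop) (θ : ℝ) : ℝ :=
  ∑ k ∈ X, EE θ X (del k (hh s T))

lemma continuous_Psi (X : Finset α) : Continuous (Psi X s T) := by
  unfold Psi
  exact continuous_finsetSum _ (fun k _ => continuous_EE X _)

lemma integral_Psi (X : Finset α) : ∫ θ in (1 / 4 : ℝ)..(3 / 4), Psi X s T θ ≤ 2 := by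
  have h1 : ∫ θ in (1 / 4 : ℝ)..(3 / 4), Psi X s T θ
      = EE (3 / 4) X (hh s T) - EE (1 / 4) X (hh s T) := by
    exact intervalIntegral.integral_eq_sub_of_hasDerivAt (f := fun t => EE t X (hh s T))
      (f' := Psi X s T) (fun θ _ => russo X (hh s T) θ)
      ((continuous_Psi X).intervalIntegrable _ _)
  rw [h1]
  have h2 : EE (3 / 4) X (hh s T) ≤ 2 :=
    EE_le_const (by norm_num) (by norm_num) (fun x _ => hh_le_two x)
  have h3 : 0 ≤ EE (1 / 4) X (hh s T) :=
    EE_nonneg (by norm_num) (by norm_num) (fun x _ => hh_nonneg x)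
  linarith

lemma sum_phi_le (hI : Inc s T) (X : Finset α) {θ : ℝ} (h0 : 1 / 4 ≤ θ) (h1 : θ ≤ 3 / 4) :
    ∑ i ∈ s, Real.negMulLog (EE θ X (fun x => ind (T i x))) ≤ 3 * Psi X s T θ := by
  calc ∑ i ∈ s, Real.negMulLog (EE θ X (fun x => ind (T i x)))
      ≤ ∑ i ∈ s, 3 * ∑ k ∈ X, EE θ X (bd k (T i)) := sum_le_sum (fun i _ => iso h0 h1 X (T i))
    _ = 3 * ∑ k ∈ X, EE θ X (fun x => ∑ i ∈ s, bd k (T i) x) := by
        rw [← mul_sum, sum_comm]
        congr 1
        apply sum_congr rfl
        intro k _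
        rw [EE_sum]
    _ ≤ 3 * Psi X s T θ := by
        apply mul_le_mul_of_nonneg_left _ (by norm_num)
        unfold Psi
        apply sum_le_sum
        intro k _
        exact EE_mono (by linarith) (by linarith) (fun x _ => core_pointwise hI k x)

lemma sum_P_le (hI : Inc s T) (X : Finset α) {θ : ℝ} (h0 : 0 ≤ θ) (h1 : θ ≤ 1) :
    ∑ i ∈ s, EE θ X (fun x => ind (T i x)) ≤ 1 := by
  classical
  rw [← EE_sum]
  apply EE_le_const h0 h1
  intro x _
  by_cases hex : ∃ i ∈ s, T i x
  · obtain ⟨i, hi, hTi⟩ := hex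
    rw [sum_eq_single_of_mem i hi]
    · exact ind_le_one _
    · intro j hj hji
      apply ind_neg
      intro h
      exact hI.cross i hi j hj (Ne.symm hji) x x (Subset.refl x) hTi h
  · push Not at hex
    rw [sum_eq_zero (fun j hj => ind_neg (hex j hj))]
    norm_num

/-- truncation -/
noncomputable def psi (L : ℕ) (σ : ℝ) : ℝ := L * min σ ((1 / 4) ^ L)

lemma psi_mono (L : ℕ) {σ τ : ℝ} (h : σ ≤ τ) : psi L σ ≤ psi L τ := by
  unfold psi
  exact mul_le_mul_of_nonneg_left (min_le_min_right _ h) (Nat.cast_nonneg _)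

lemma psi_nonneg (L : ℕ) {σ : ℝ} (h : 0 ≤ σ) : 0 ≤ psi L σ := by
  unfold psi
  have : (0 : ℝ) ≤ (1 / 4) ^ L := by positivity
  exact mul_nonneg (Nat.cast_nonneg _) (le_min h this)

lemma continuous_psi (L : ℕ) : Continuous (psi L) := by
  unfold psi
  exact continuous_const.mul (continuous_id.min continuous_const)

lemma psi_le (L : ℕ) {σ P : ℝ} (hP0 : 0 ≤ P) (hP1 : P ≤ 1) (h : σ ≤ P) :
    psi L σ ≤ 2 * Real.negMulLog P + P := by
  refine le_trans (psi_mono L h) ?_
  have hφ : 0 ≤ Real.negMulLog P := Real.negMulLog_nonneg hP0 hP1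
  unfold psi
  rcases eq_or_lt_of_le hP0 with hP | hP
  · rw [← hP]
    have : (0 : ℝ) ≤ (1 / 4) ^ L := by positivity
    rw [min_eq_left this]
    simp
  · rcases le_total P (L * (1 / 4 : ℝ) ^ L) with hc | hc
    · have hL : 0 < (L : ℝ) := by
        by_contra hL
        have : (L : ℝ) = 0 := le_antisymm (not_lt.mp hL) (Nat.cast_nonneg _)
        rw [this, zero_mul] at hc
        linarith
      have h1 : Real.log P ≤ Real.log L + L * Real.log (1 / 4) := by
        have h2 := Real.log_le_log hP hc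
        rw [Real.log_mul hL.ne' (by positivity), Real.log_pow] at h2
        exact h2
      have h3 : Real.log (1 / 4 : ℝ) = - (2 * Real.log 2) := by
        have : (1 / 4 : ℝ) = (2 ^ 2)⁻¹ := by norm_num
        rw [this, Real.log_inv, Real.log_pow]; norm_num
      have h4 : Real.log L ≤ L / 2 - 1 + Real.log 2 := by
        have h5 := Real.log_le_sub_one_of_pos (show (0 : ℝ) < L / 2 by positivity)
        rw [Real.log_div hL.ne' (by norm_num)] at h5
        linarith
      have h6 := Real.log_two_gt_d9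
      have h7 := Real.log_two_lt_d9
      have h8 : (L : ℝ) ≤ 2 * (- Real.log P) + 1 := by
        rw [h3] at h1
        nlinarith
      calc (L : ℝ) * min P ((1 / 4) ^ L) ≤ L * P :=
            mul_le_mul_of_nonneg_left (min_le_left _ _) hL.le
        _ ≤ (2 * (- Real.log P) + 1) * P := mul_le_mul_of_nonneg_right h8 hP0
        _ = 2 * Real.negMulLog P + P := by rw [Real.negMulLog]; ring
    · calc (L : ℝ) * min P ((1 / 4) ^ L) ≤ L * (1 / 4 : ℝ) ^ L :=
            mul_le_mul_of_nonneg_left (min_le_right _ _) (Nat.cast_nonneg _)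
        _ ≤ P := hc
        _ ≤ _ := by linarith

lemma core_final (hI : Inc s T) (X : Finset α) (L : ℕ) (σ : ι → ℝ → ℝ)
    (hc : ∀ i ∈ s, Continuous (σ i))
    (hσ : ∀ i ∈ s, ∀ θ, 0 ≤ θ → θ ≤ 1 → σ i θ ≤ EE θ X (fun x => ind (T i x))) :
    ∑ i ∈ s, ∫ θ in (1 / 4 : ℝ)..(3 / 4), psi L (σ i θ) ≤ 13 := by
  have hint : ∀ i ∈ s, IntervalIntegrable (fun θ => psi L (σ i θ)) MeasureTheory.volume
      (1 / 4 : ℝ) (3 / 4) := by
    intro i hi
    exact ((continuous_psi L).comp (hc i hi)).intervalIntegrable _ _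
  rw [← intervalIntegral.integral_finsetSum hint]
  have hcont : Continuous (fun θ => 6 * Psi X s T θ + 1) :=
    (continuous_const.mul (continuous_Psi X)).add continuous_const
  have h1 : ∫ θ in (1 / 4 : ℝ)..(3 / 4), ∑ i ∈ s, psi L (σ i θ)
      ≤ ∫ θ in (1 / 4 : ℝ)..(3 / 4), (6 * Psi X s T θ + 1) := by
    apply intervalIntegral.integral_mono_on (by norm_num)
    · apply Continuous.intervalIntegrable
      exact continuous_finsetSum _ (fun i hi => (continuous_psi L).comp (hc i hi))
    · exact hcont.intervalIntegrable _ _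
    · intro θ hθ
      have h0 : 1 / 4 ≤ θ := hθ.1
      have h2 : θ ≤ 3 / 4 := hθ.2
      calc ∑ i ∈ s, psi L (σ i θ)
          ≤ ∑ i ∈ s, (2 * Real.negMulLog (EE θ X (fun x => ind (T i x)))
              + EE θ X (fun x => ind (T i x))) := by
            apply sum_le_sum
            intro i hi
            apply psi_le
            · exact EE_nonneg (by linarith) (by linarith) (fun x _ => ind_nonneg _)
            · exact EE_le_const (by linarith) (by linarith) (fun x _ => ind_le_one _)
            · exact hσ i hi θ (by linarith) (by linarith)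
        _ ≤ 6 * Psi X s T θ + 1 := by
            rw [sum_add_distrib, ← mul_sum]
            have := sum_phi_le hI X h0 h2
            have := sum_P_le hI X (show 0 ≤ θ by linarith) (show θ ≤ 1 by linarith)
            linarith
  refine le_trans h1 ?_
  have hi1 : IntervalIntegrable (fun θ => 6 * Psi X s T θ) MeasureTheory.volume
      (1 / 4 : ℝ) (3 / 4) := (continuous_const.mul (continuous_Psi X)).intervalIntegrable _ _
  have hi2 : IntervalIntegrable (fun _ : ℝ => (1 : ℝ)) MeasureTheory.volume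
      (1 / 4 : ℝ) (3 / 4) := continuous_const.intervalIntegrable _ _
  rw [intervalIntegral.integral_add hi1 hi2, intervalIntegral.integral_const_mul,
    intervalIntegral.integral_const]
  have := integral_Psi (s := s) (T := T) X
  rw [smul_eq_mul]
  linarith

end CoreSec

section Window

lemma window_point {θ : ℝ} (h0 : 0 ≤ θ) (h1 : θ ≤ 1) (Y : Finset α) {N : ℕ}
    (hN : Y.card ≤ 2 * N) {g : Finset α → ℝ} (hg : ∀ x, 0 ≤ g x) :
    2 * (4 * θ * (1 - θ)) ^ N * EE (1 / 2) Y g ≤ EE θ Y g + EE (1 - θ) Y g := by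
  rw [EE_half]
  unfold EE
  rw [← sum_add_distrib, mul_sum, mul_sum]
  apply sum_le_sum
  intro x _
  rw [← add_mul]
  have e1 : 2 * (4 * θ * (1 - θ)) ^ N * ((1 / 2) ^ Y.card * g x)
      = (2 * (4 * θ * (1 - θ)) ^ N * (1 / 2) ^ Y.card) * g x := by ring
  rw [e1]
  apply mul_le_mul_of_nonneg_right _ (hg x)
  set w := ∏ k ∈ Y, (if k ∈ x then θ else 1 - θ) with hw
  set w' := ∏ k ∈ Y, (if k ∈ x then 1 - θ else 1 - (1 - θ)) with hw'
  have hw0 : 0 ≤ w := prod_nonneg (fun k _ => by split_ifs <;> linarith)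
  have hw0' : 0 ≤ w' := prod_nonneg (fun k _ => by split_ifs <;> linarith)
  have hprod : w * w' = (θ * (1 - θ)) ^ Y.card := by
    rw [hw, hw', ← prod_mul_distrib, ← prod_const]
    apply prod_congr rfl
    intro k _
    split_ifs <;> ring
  have hb0 : 0 ≤ 4 * θ * (1 - θ) := by nlinarith
  have hb1 : 4 * θ * (1 - θ) ≤ 1 := by nlinarith [sq_nonneg (2 * θ - 1)]
  have h2 : (4 * θ * (1 - θ)) ^ (2 * N) ≤ (4 * θ * (1 - θ)) ^ Y.card :=
    pow_le_pow_of_le_one hb0 hb1 hN
  have h3 : (2 * (4 * θ * (1 - θ)) ^ N * (1 / 2) ^ Y.card) ^ 2 ≤ (w + w') ^ 2 := by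
    calc (2 * (4 * θ * (1 - θ)) ^ N * (1 / 2) ^ Y.card) ^ 2
        = 4 * ((4 * θ * (1 - θ)) ^ (2 * N) * (1 / 4) ^ Y.card) := by
          rw [mul_pow, mul_pow, ← pow_mul, ← pow_mul, mul_comm N 2, mul_comm Y.card 2,
            pow_mul (1 / 2 : ℝ)]
          norm_num
          ring
      _ ≤ 4 * ((4 * θ * (1 - θ)) ^ Y.card * (1 / 4) ^ Y.card) := by
          have : (0 : ℝ) ≤ (1 / 4) ^ Y.card := by positivity
          nlinarith
      _ = 4 * (w * w') := by
          rw [hprod, ← mul_pow]
          congr 2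
          ring
      _ ≤ (w + w') ^ 2 := by nlinarith [sq_nonneg (w - w')]
  have h4 : 0 ≤ w + w' := add_nonneg hw0 hw0'
  have h5 : 0 ≤ 2 * (4 * θ * (1 - θ)) ^ N * (1 / 2) ^ Y.card := by positivity
  exact (pow_le_pow_iff_left₀ h5 h4 two_ne_zero).mp h3

lemma window_int {G : ℝ → ℝ} (hG : Continuous G) {N : ℕ} (hN : 2 ≤ N) {L : ℕ}
    (hG0 : ∀ θ, 0 ≤ θ → θ ≤ 1 → 0 ≤ G θ) {μ : ℝ} (hμ : 0 ≤ μ)
    (hG2 : ∀ θ, 0 ≤ θ → θ ≤ 1 → 2 * (4 * θ * (1 - θ)) ^ N * μ ≤ G θ + G (1 - θ)) :
    1 / Real.sqrt (8 * N) * psi L (μ / 2) ≤ ∫ θ in (1 / 4 : ℝ)..(3 / 4), psi L (G θ) := by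
  have hN0 : (2 : ℝ) ≤ N := by exact_mod_cast hN
  have hs4 : (4 : ℝ) ≤ Real.sqrt (8 * N) := by
    apply Real.le_sqrt_of_sq_le
    linarith
  set δ := 1 / Real.sqrt (8 * N) with hδ
  have hδ0 : 0 < δ := by positivity
  have hδ4 : δ ≤ 1 / 4 := by
    rw [hδ]
    exact one_div_le_one_div_of_le (by norm_num) hs4
  have hδ2 : δ ^ 2 = 1 / (8 * N) := by
    rw [hδ, div_pow, one_pow, Real.sq_sqrt (by positivity)]
  have hcont : Continuous (fun θ => psi L (G θ)) := (continuous_psi L).comp hG
  have hcont' : Continuous (fun θ => psi L (G (1 - θ))) :=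
    (continuous_psi L).comp (hG.comp (continuous_const.sub continuous_id))
  have h1 : ∫ θ in (1 / 2 - δ : ℝ)..(1 / 2 + δ), psi L (G θ)
      ≤ ∫ θ in (1 / 4 : ℝ)..(3 / 4), psi L (G θ) := by
    apply intervalIntegral.integral_mono_interval (by linarith) (by linarith) (by linarith)
    · rw [Filter.EventuallyLE, MeasureTheory.ae_restrict_iff' measurableSet_Ioc]
      apply Filter.Eventually.of_forall
      intro θ hθ
      exact psi_nonneg L (hG0 θ (by linarith [hθ.1]) (by linarith [hθ.2]))
    · exact hcont.intervalIntegrable _ _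
  have h2 : ∫ θ in (1 / 2 - δ : ℝ)..(1 / 2 + δ), psi L (G θ)
      = ∫ θ in (1 / 2 : ℝ)..(1 / 2 + δ), (psi L (G (1 - θ)) + psi L (G θ)) := by
    rw [← intervalIntegral.integral_add_adjacent_intervals (b := 1 / 2)
      (hcont.intervalIntegrable _ _) (hcont.intervalIntegrable _ _)]
    rw [intervalIntegral.integral_add (hcont'.intervalIntegrable _ _)
      (hcont.intervalIntegrable _ _)]
    congr 1
    rw [intervalIntegral.integral_comp_sub_left (fun θ => psi L (G θ)) 1]
    congr 1 <;> ring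
  have h3 : ∫ _θ in (1 / 2 : ℝ)..(1 / 2 + δ), psi L (μ / 2)
      ≤ ∫ θ in (1 / 2 : ℝ)..(1 / 2 + δ), (psi L (G (1 - θ)) + psi L (G θ)) := by
    apply intervalIntegral.integral_mono_on (by linarith)
    · exact continuous_const.intervalIntegrable _ _
    · exact (hcont'.add hcont).intervalIntegrable _ _
    · intro θ hθ
      have t0 : 1 / 2 ≤ θ := hθ.1
      have t1 : θ ≤ 1 / 2 + δ := hθ.2
      have g1 := hG0 θ (by linarith) (by linarith)
      have g2 := hG0 (1 - θ) (by linarith) (by linarith)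
      have g3 := hG2 θ (by linarith) (by linarith)
      have e1 : 4 * θ * (1 - θ) = 1 + (- (4 * (θ - 1 / 2) ^ 2)) := by ring
      have e2 : (θ - 1 / 2) ^ 2 ≤ δ ^ 2 := by
        apply pow_le_pow_left₀ (by linarith); linarith
      have e3 : (1 / 2 : ℝ) ≤ (4 * θ * (1 - θ)) ^ N := by
        rw [e1]
        have h8 : (-2 : ℝ) ≤ - (4 * (θ - 1 / 2) ^ 2) := by nlinarith
        have h9 := one_add_mul_le_pow h8 N
        refine le_trans ?_ h9
        rw [hδ2] at e2
        have h10 : (N : ℝ) * (θ - 1 / 2) ^ 2 ≤ 1 / 8 := by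
          calc (N : ℝ) * (θ - 1 / 2) ^ 2 ≤ N * (1 / (8 * N)) :=
                mul_le_mul_of_nonneg_left e2 (by linarith)
            _ = 1 / 8 := by field_simp
        linarith
      have e4 : μ ≤ G θ + G (1 - θ) := by nlinarith
      rcases le_total (G θ) (G (1 - θ)) with hc | hc
      · have h11 : psi L (μ / 2) ≤ psi L (G (1 - θ)) := psi_mono L (by linarith)
        have h12 := psi_nonneg L g1
        linarith
      · have h11 : psi L (μ / 2) ≤ psi L (G θ) := psi_mono L (by linarith)
        have h12 := psi_nonneg L g2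
        linarith
  rw [intervalIntegral.integral_const, smul_eq_mul] at h3
  have e5 : (1 / 2 + δ - 1 / 2) * psi L (μ / 2) = δ * psi L (μ / 2) := by ring
  rw [e5] at h3
  linarith

end Window

end Pool.Agent.Helper29_Rel
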