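import Mathlib
import Pool.Agent.Helper29_Rel.Core

/-!
Minterms, maxterms and the basic lower bound.
-/

set_option autoImplicit false
set_option linter.unusedSectionVars false

namespace Pool.Agent.Helper29_Rel

open Finset

variable {α : Type*} [DecidableEq α]

lemma dd_sub (M : Finset α) (g h : Finset α → ℝ) (x : Finset α) :
    dd M (fun x => g x - h x) x = dd M g x - dd M h x := by
  unfold dd
  rw [← sum_sub_distrib]
  apply sum_congr rfl
  intro R _; ring

lemma dd_const {M : Finset α} (hM : M.Nonempty) (c : ℝ) (x : Finset α) :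
    dd M (fun _ => c) x = 0 := by
  obtain ⟨k, hk⟩ := hM
  have h1 : M = insert k (M.erase k) := (insert_erase hk).symm
  rw [h1, dd_insert k _ (notMem_erase k M)]
  unfold dd
  ring

lemma dd_eq_zero_of_zero {f : Finset α → ℝ} (hf : Mono f) {M x : Finset α} (h : f (x ∪ M) = 0) :
    dd M f x = 0 := by
  unfold dd
  apply sum_eq_zero
  intro R hR
  rw [hf.zero_of_subset (union_subset_union sdiff_subset (mem_powerset.mp hR)) h, mul_zero]

lemma dd_eq_zero_of_one {f : Finset α → ℝ} (hf : Mono f) {M x : Finset α} (hM : M.Nonempty)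
    (h : f (x \ M) = 1) : dd M f x = 0 := by
  rw [← dd_const hM 1 x]
  unfold dd
  apply sum_congr rfl
  intro R _
  rw [hf.one_of_subset subset_union_left h]

lemma exists_minterm {f : Finset α → ℝ} (hf : Mono f) (Z Y : Finset α)
    (h : f (Z ∪ Y) = 1) : ∃ A ⊆ Y, f (Z ∪ A) = 1 ∧ ∀ R, R ⊂ A → f (Z ∪ R) = 0 := by
  classical
  obtain ⟨A, hA, hmin⟩ := Finset.exists_min_image
    (Y.powerset.filter (fun A => f (Z ∪ A) = 1)) (fun A => A.card)
    ⟨Y, by rw [mem_filter, mem_powerset]; exact ⟨Subset.refl Y, h⟩⟩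
  rw [mem_filter, mem_powerset] at hA
  refine ⟨A, hA.1, hA.2, ?_⟩
  intro R hR
  rcases hf.val (Z ∪ R) with h1 | h1
  · exact h1
  · exfalso
    have := hmin R (by rw [mem_filter, mem_powerset]; exact ⟨hR.subset.trans hA.1, h1⟩)
    have := card_lt_card hR
    omega

lemma minterm_NZ {f : Finset α → ℝ} {Z A : Finset α} (hZA : Disjoint Z A)
    (h1 : f (Z ∪ A) = 1) (h2 : ∀ R, R ⊂ A → f (Z ∪ R) = 0) : NZ A f := by
  refine ⟨Z, ?_⟩
  unfold dd
  have hZ : Z \ A = Z := sdiff_eq_self_of_disjoint hZA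
  rw [sum_eq_single A]
  · rw [hZ, h1]; simp
  · intro R hR hRA
    rw [hZ, h2 R (Finset.ssubset_iff_subset_ne.mpr ⟨mem_powerset.mp hR, hRA⟩), mul_zero]
  · intro h
    exact absurd (mem_powerset.mpr (Subset.refl A)) h

lemma exists_maxterm {f : Finset α → ℝ} (hf : Mono f) (W Y : Finset α)
    (h : f (W \ Y) = 0) : ∃ B ⊆ Y, f (W \ B) = 0 ∧ ∀ R, R ⊂ B → f (W \ R) = 1 := by
  classical
  obtain ⟨B, hB, hmin⟩ := Finset.exists_min_image
    (Y.powerset.filter (fun B => f (W \ B) = 0)) (fun B => B.card)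
    ⟨Y, by rw [mem_filter, mem_powerset]; exact ⟨Subset.refl Y, h⟩⟩
  rw [mem_filter, mem_powerset] at hB
  refine ⟨B, hB.1, hB.2, ?_⟩
  intro R hR
  rcases hf.val (W \ R) with h1 | h1
  · exfalso
    have := hmin R (by rw [mem_filter, mem_powerset]; exact ⟨hR.subset.trans hB.1, h1⟩)
    have := card_lt_card hR
    omega
  · exact h1

lemma maxterm_NZ {f : Finset α → ℝ} {W B : Finset α} (hWB : B ⊆ W) (hBne : B.Nonempty)
    (h1 : f (W \ B) = 0) (h2 : ∀ R, R ⊂ B → f (W \ R) = 1) : NZ B f := by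
  refine ⟨W, ?_⟩
  have e1 : dd B (fun x => 1 - f x) W = - dd B f W := by
    rw [dd_sub, dd_const hBne]; ring
  have e2 : dd B (fun x => 1 - f x) W ≠ 0 := by
    unfold dd
    rw [sum_eq_single ∅]
    · rw [sdiff_empty, union_empty]; beta_reduce; rw [h1]; simp
    · intro R hR hR0
      have hRB := mem_powerset.mp hR
      have e3 : W \ B ∪ R = W \ (B \ R) := by
        ext v
        simp only [mem_union, mem_sdiff]
        constructor
        · rintro (⟨hv1, hv2⟩ | hv)
          · exact ⟨hv1, fun h => hv2 h.1⟩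
          · exact ⟨hWB (hRB hv), fun h => h.2 hv⟩
        · rintro ⟨hv1, hv2⟩
          by_cases hvR : v ∈ R
          · right; exact hvR
          · left; exact ⟨hv1, fun h => hv2 ⟨h, hvR⟩⟩
      rw [e3]; beta_reduce; rw [h2 (B \ R)]
      · simp
      · refine Finset.ssubset_iff_subset_ne.mpr ⟨sdiff_subset, ?_⟩
        intro h
        apply hR0
        rw [sdiff_eq_left] at h
        ext v
        constructor
        · intro hv
          exact absurd hv (disjoint_left.mp h (hRB hv))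
        · intro hv; exact absurd hv (notMem_empty v)
    · intro h
      exact absurd (empty_mem_powerset B) h
  intro h
  rw [h, neg_zero] at e1
  exact e2 e1

/-- the reciprocal of the lower bound -/
noncomputable def BB (d L r : ℕ) : ℝ :=
  (4 * Real.sqrt d / L) * (2 ^ d / Real.sqrt (2 ^ r) + 4 ^ L * Real.sqrt (2 ^ d))

lemma BB_nonneg (d L r : ℕ) : 0 ≤ BB d L r := by
  unfold BB; positivity

lemma BB_lower {d L r : ℕ} (hd : 1 ≤ d) (hL : 1 ≤ L) {m : ℝ} (h1 : 2 ^ r ≤ m) (h2 : m ≤ 2 ^ d) :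
    1 ≤ BB d L r * (1 / Real.sqrt (16 * d * m) * psi L (m / 2 ^ d)) := by
  have hr0 : (0 : ℝ) < 2 ^ r := by positivity
  have hm : 0 < m := lt_of_lt_of_le hr0 h1
  have hd0 : (0 : ℝ) < d := by exact_mod_cast hd
  have hL0 : (0 : ℝ) < L := by exact_mod_cast hL
  have hsm : 0 < Real.sqrt m := Real.sqrt_pos.mpr hm
  have hsd : 0 < Real.sqrt d := Real.sqrt_pos.mpr hd0
  have hsr : 0 < Real.sqrt (2 ^ r) := Real.sqrt_pos.mpr hr0
  have hsD : 0 < Real.sqrt (2 ^ d) := Real.sqrt_pos.mpr (by positivity)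
  have e1 : Real.sqrt (16 * d * m) = 4 * Real.sqrt d * Real.sqrt m := by
    rw [Real.sqrt_mul (by positivity), Real.sqrt_mul (by norm_num)]
    congr 2
    rw [show (16 : ℝ) = 4 ^ 2 by norm_num, Real.sqrt_sq (by norm_num)]
  rw [e1]
  unfold BB psi
  have e2 : 4 * Real.sqrt d / L * (2 ^ d / Real.sqrt (2 ^ r) + 4 ^ L * Real.sqrt (2 ^ d)) *
      (1 / (4 * Real.sqrt d * Real.sqrt m) * (L * min (m / 2 ^ d) ((1 / 4) ^ L)))
      = (2 ^ d / Real.sqrt (2 ^ r) + 4 ^ L * Real.sqrt (2 ^ d)) / Real.sqrt m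
        * min (m / 2 ^ d) ((1 / 4) ^ L) := by
    field_simp
  rw [e2]
  have hA : (0 : ℝ) ≤ 2 ^ d / Real.sqrt (2 ^ r) := by positivity
  have hB : (0 : ℝ) ≤ 4 ^ L * Real.sqrt (2 ^ d) := by positivity
  rcases min_choice (m / 2 ^ d) ((1 / 4 : ℝ) ^ L) with hc | hc
  · rw [hc]
    calc (1 : ℝ) ≤ Real.sqrt m / Real.sqrt (2 ^ r) := by
          rw [le_div_iff₀ hsr, one_mul]
          exact Real.sqrt_le_sqrt h1
      _ = (2 ^ d / Real.sqrt (2 ^ r)) / Real.sqrt m * (m / 2 ^ d) := by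
          have : m = Real.sqrt m * Real.sqrt m := (Real.mul_self_sqrt hm.le).symm
          field_simp
          rw [Real.sq_sqrt hm.le]
      _ ≤ _ := by
          apply mul_le_mul_of_nonneg_right _ (by positivity)
          apply div_le_div_of_nonneg_right _ hsm.le
          linarith
  · rw [hc]
    calc (1 : ℝ) ≤ Real.sqrt (2 ^ d) / Real.sqrt m := by
          rw [le_div_iff₀ hsm, one_mul]
          exact Real.sqrt_le_sqrt h2
      _ = (4 ^ L * Real.sqrt (2 ^ d)) / Real.sqrt m * (1 / 4) ^ L := by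
          have : (4 : ℝ) ^ L * (1 / 4) ^ L = 1 := by rw [← mul_pow]; norm_num
          calc Real.sqrt (2 ^ d) / Real.sqrt m
              = (4 ^ L * (1 / 4) ^ L) * (Real.sqrt (2 ^ d) / Real.sqrt m) := by rw [this, one_mul]
            _ = _ := by ring
      _ ≤ _ := by
          apply mul_le_mul_of_nonneg_right _ (by positivity)
          apply div_le_div_of_nonneg_right _ hsm.le
          linarith

/-- window bound in the form used below -/
lemma window_BB {d L r : ℕ} (hd : 1 ≤ d) (hL : 1 ≤ L) {m : ℝ} (h1 : 2 ^ r ≤ m) (h2 : m ≤ 2 ^ d)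
    {Y : Finset α} {g : Finset α → ℝ} (hg : ∀ x, 0 ≤ g x) {n : ℕ} (hY : Y.card ≤ n)
    (hn : (n : ℝ) ≤ 2 * (d - 1) * m) {G : ℝ → ℝ} (hGc : Continuous G)
    (hG : ∀ θ, G θ = EE θ Y g) (hμ : m / 2 ^ d ≤ G (1 / 2) / 2) :
    1 ≤ BB d L r * ∫ θ in (1 / 4 : ℝ)..(3 / 4), psi L (G θ) := by
  have hr0 : (0 : ℝ) < 2 ^ r := by positivity
  have hr1 : (1 : ℝ) ≤ 2 ^ r := one_le_pow₀ (by norm_num)
  have hm : 0 < m := lt_of_lt_of_le hr0 h1
  have hd0 : (0 : ℝ) < d := by exact_mod_cast hd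
  have hw := window_int (G := G) hGc (N := n + 2) (by omega) (L := L) (μ := G (1 / 2))
    (fun θ h0 h1 => by rw [hG]; exact EE_nonneg h0 h1 (fun x _ => hg x))
    (by rw [hG]; exact EE_nonneg (by norm_num) (by norm_num) (fun x _ => hg x))
    (fun θ h0 h1 => by
      rw [hG, hG, hG]
      exact window_point h0 h1 Y (by omega) hg)
  refine le_trans (BB_lower hd hL h1 h2) ?_
  apply mul_le_mul_of_nonneg_left _ (BB_nonneg d L r)
  refine le_trans ?_ hw
  have hpsi : psi L (m / 2 ^ d) ≤ psi L (G (1 / 2) / 2) := psi_mono L hμ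
  have hpsi0 : 0 ≤ psi L (m / 2 ^ d) := psi_nonneg L (by positivity)
  have hs : 1 / Real.sqrt (16 * d * m) ≤ 1 / Real.sqrt (8 * ((n + 2 : ℕ) : ℝ)) := by
    apply one_div_le_one_div_of_le
    · apply Real.sqrt_pos.mpr
      positivity
    · apply Real.sqrt_le_sqrt
      push_cast
      nlinarith
  apply mul_le_mul hs hpsi hpsi0
  positivity

end Pool.Agent.Helper29_Rel
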