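import Mathlib
import Pool.Agent.Helper29_Rel.Terms

/-!
The class of variables with large influence.
-/

set_option autoImplicit false
set_option linter.unusedSectionVars false

namespace Pool.Agent.Helper29_Rel

open Finset

variable {α : Type*} [DecidableEq α]

/-- the families used for the classes with large influence -/
def TA (f : Finset α → ℝ) (I : Finset α) (i : α) (P : Finset α) : Prop :=
  f (insert i P) = 1 ∧ f (P ∪ I.erase i) = 0

lemma inc_TA {f : Finset α → ℝ} (hf : Mono f) (I : Finset α) : Inc I (TA f I) where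
  conv := by
    intro i _ x y z hxy hyz hx hz
    exact ⟨hf.one_of_subset (insert_subset_insert i hxy) hx.1,
      hf.zero_of_subset (union_subset_union hyz (Subset.refl _)) hz.2⟩
  cross := by
    intro i hi j hj hij x y hxy hx hy
    have h1 : f (y ∪ I.erase j) = 1 := by
      apply hf.one_of_subset _ hx.1
      apply insert_subset
      · exact mem_union_right _ (mem_erase.mpr ⟨hij, hi⟩)
      · exact hxy.trans subset_union_left
    have h2 := hy.2
    rw [h1] at h2
    norm_num at h2

lemma EE_mem (q : ℝ) {C : Finset α} {i : α} (hi : i ∈ C) :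
    EE q C (fun x => ind (i ∈ x)) = q := by
  rw [← insert_erase hi, EE_insert q (notMem_erase i C)]
  have e1 : EE q (C.erase i) (fun x => ind (i ∈ x)) = EE q (C.erase i) (fun _ => 0) := by
    apply EE_congr
    intro x hx
    exact ind_neg (fun h => (notMem_erase i C) (hx h))
  have e2 : EE q (C.erase i) (fun x => ind (i ∈ insert i x)) = EE q (C.erase i) (fun _ => 1) := by
    apply EE_congr
    intro x _
    exact ind_pos (mem_insert_self i x)
  rw [e1, e2, EE_const, EE_const]; ring

lemma EE_mem_mem (q : ℝ) {C : Finset α} {i v : α} (hi : i ∈ C) (hv : v ∈ C) (hvi : v ≠ i) :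
    EE q C (fun x => ind (i ∈ x) * ind (v ∈ x)) = q ^ 2 := by
  have hv' : v ∈ C.erase i := mem_erase.mpr ⟨hvi, hv⟩
  have hm := EE_mem q hv'
  rw [← insert_erase hi, EE_insert q (notMem_erase i C)]
  have e1 : EE q (C.erase i) (fun x => ind (i ∈ x) * ind (v ∈ x))
      = EE q (C.erase i) (fun _ => 0) := by
    apply EE_congr
    intro x hx
    rw [ind_neg (fun h => (notMem_erase i C) (hx h)), zero_mul]
  have e2 : EE q (C.erase i) (fun x => ind (i ∈ insert i x) * ind (v ∈ insert i x))
      = EE q (C.erase i) (fun x => ind (v ∈ x)) := by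
    apply EE_congr
    intro x _
    rw [ind_pos (mem_insert_self i x), one_mul]
    apply ind_congr
    rw [mem_insert]
    constructor
    · intro h; exact h.resolve_left hvi
    · exact fun h => Or.inr h
  rw [e1, e2, EE_const, hm]; ring

lemma EE_comm (q θ : ℝ) (C X : Finset α) (H : Finset α → Finset α → ℝ) :
    EE q C (fun I => EE θ X (fun x => H I x)) = EE θ X (fun x => EE q C (fun I => H I x)) := by
  unfold EE
  simp only [mul_sum]
  rw [sum_comm]
  apply sum_congr rfl
  intro x _
  apply sum_congr rfl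
  intro I _
  ring

lemma integral_EE (q : ℝ) (C : Finset α) (H : Finset α → ℝ → ℝ) (hH : ∀ I, Continuous (H I))
    (a b : ℝ) : ∫ θ in a..b, EE q C (fun I => H I θ) = EE q C (fun I => ∫ θ in a..b, H I θ) := by
  unfold EE
  rw [intervalIntegral.integral_finsetSum]
  · apply sum_congr rfl
    intro I _
    rw [intervalIntegral.integral_const_mul]
  · intro I _
    exact (continuous_const.mul (hH I)).intervalIntegrable _ _

lemma continuous_EE_right (q : ℝ) (C : Finset α) (H : Finset α → ℝ → ℝ)
    (hH : ∀ I, Continuous (H I)) : Continuous (fun θ => EE q C (fun I => H I θ)) := by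
  unfold EE
  exact continuous_finsetSum _ (fun I _ => continuous_const.mul (hH I))

lemma prob_A {q : ℝ} (h0 : 0 ≤ q) (h1 : q ≤ 1) {C D : Finset α} {i : α} (hi : i ∈ C)
    (hD : D ⊆ C) (hiD : i ∉ D) {H : Finset α → ℝ} (hH0 : ∀ I, 0 ≤ H I)
    (hH1 : ∀ I, I ⊆ C → i ∈ I → Disjoint I D → 1 ≤ H I) :
    q - D.card * q ^ 2 ≤ EE q C H := by
  have e1 : q - D.card * q ^ 2
      = EE q C (fun I => ind (i ∈ I) - ∑ v ∈ D, ind (i ∈ I) * ind (v ∈ I)) := by
    rw [EE_sub, EE_mem q hi, EE_sum]
    congr 1
    rw [sum_congr rfl (fun v hv => EE_mem_mem q hi (hD hv) (by rintro rfl; exact hiD hv)),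
      sum_const, nsmul_eq_mul]
  rw [e1]
  apply EE_mono h0 h1
  intro I hI
  by_cases hiI : i ∈ I
  · rw [ind_pos hiI]
    by_cases hdis : Disjoint I D
    · have h2 : 0 ≤ ∑ v ∈ D, 1 * ind (v ∈ I) :=
        sum_nonneg (fun v _ => by rw [one_mul]; exact ind_nonneg _)
      have := hH1 I hI hiI hdis
      linarith
    · rw [not_disjoint_iff] at hdis
      obtain ⟨v, hvI, hvD⟩ := hdis
      have h2 : (1 : ℝ) ≤ ∑ v ∈ D, 1 * ind (v ∈ I) := by
        have h3 := single_le_sum (f := fun v => 1 * ind (v ∈ I))
          (fun v _ => by rw [one_mul]; exact ind_nonneg _) hvD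
        beta_reduce at h3
        rw [ind_pos hvI] at h3
        linarith
      have := hH0 I
      linarith
  · rw [ind_neg hiI]
    have h2 : ∑ v ∈ D, 0 * ind (v ∈ I) = 0 := sum_eq_zero (fun v _ => zero_mul _)
    rw [h2]
    have := hH0 I
    linarith

lemma partA_point {f : Finset α → ℝ} (hf : Mono f) {C : Finset α} {r : ℕ} {i : α} (hi : i ∈ C)
    (hC : ∀ K, K ⊆ C → i ∈ K → NZ K f → K.card ≤ r + 1) {x : Finset α} (hx : del i f x = 1) :
    ∃ D, D ⊆ C ∧ i ∉ D ∧ D.card ≤ 2 * r ∧
      ∀ I, I ⊆ C → i ∈ I → Disjoint I D → TA f I i (x \ I) := by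
  rw [hf.del_eq_one] at hx
  obtain ⟨hx1, hx0⟩ := hx
  -- minterm
  have hZY : x \ C ∪ insert i (x ∩ C) = insert i x := by
    ext v
    simp only [mem_union, mem_sdiff, mem_insert, mem_inter]
    tauto
  obtain ⟨A, hAY, hA1, hA2⟩ := exists_minterm hf (x \ C) (insert i (x ∩ C)) (by rw [hZY]; exact hx1)
  have hAC : A ⊆ C := hAY.trans (insert_subset hi inter_subset_right)
  have hiA : i ∈ A := by
    by_contra hiA
    have hsub : x \ C ∪ A ⊆ x.erase i := by
      intro v hv
      rw [mem_union, mem_sdiff] at hv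
      rw [mem_erase]
      rcases hv with hv | hv
      · exact ⟨fun h => hv.2 (h ▸ hi), hv.1⟩
      · have := hAY hv
        rw [mem_insert, mem_inter] at this
        rcases this with h | h
        · rw [h] at hv; exact absurd hv hiA
        · exact ⟨fun h => hiA (h ▸ hv), h.1⟩
    have := hf.zero_of_subset hsub hx0
    rw [hA1] at this
    norm_num at this
  have hAcard : A.card ≤ r + 1 := by
    apply hC A hAC hiA
    apply minterm_NZ _ hA1 hA2
    exact disjoint_of_subset_right hAC sdiff_disjoint
  -- maxterm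
  have hWY : (x ∪ C) \ insert i (C \ x) = x.erase i := by
    ext v
    simp only [mem_union, mem_sdiff, mem_insert, mem_erase]
    tauto
  obtain ⟨B, hBY, hB1, hB2⟩ := exists_maxterm hf (x ∪ C) (insert i (C \ x)) (by rw [hWY]; exact hx0)
  have hBC : B ⊆ C := hBY.trans (insert_subset hi sdiff_subset)
  have hiB : i ∈ B := by
    by_contra hiB
    have hsub : insert i x ⊆ (x ∪ C) \ B := by
      intro v hv
      rw [mem_insert] at hv
      rw [mem_sdiff, mem_union]
      rcases hv with hv | hv
      · rw [hv]; exact ⟨Or.inr hi, hiB⟩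
      · refine ⟨Or.inl hv, ?_⟩
        intro hvB
        have := hBY hvB
        rw [mem_insert, mem_sdiff] at this
        rcases this with h | h
        · rw [h] at hvB; exact hiB hvB
        · exact h.2 hv
    have := hf.one_of_subset hsub hx1
    rw [hB1] at this
    norm_num at this
  have hBcard : B.card ≤ r + 1 := by
    apply hC B hBC hiB
    apply maxterm_NZ _ ⟨i, hiB⟩ hB1 hB2
    exact hBC.trans subset_union_right
  refine ⟨(A ∪ B).erase i, ?_, notMem_erase i _, ?_, ?_⟩
  · exact (erase_subset i _).trans (union_subset hAC hBC)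
  · have : (A ∪ B).erase i ⊆ A.erase i ∪ B.erase i := by
      intro v hv
      simp only [mem_erase, mem_union] at hv ⊢
      tauto
    refine (card_le_card this).trans ((card_union_le _ _).trans ?_)
    rw [card_erase_of_mem hiA, card_erase_of_mem hiB]
    omega
  · intro I hIC hiI hdis
    rw [disjoint_left] at hdis
    constructor
    · apply hf.one_of_subset _ hA1
      intro v hv
      rw [mem_union, mem_sdiff] at hv
      rw [mem_insert, mem_sdiff]
      rcases hv with hv | hv
      · exact Or.inr ⟨hv.1, fun h => hv.2 (hIC h)⟩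
      · by_cases hvi : v = i
        · exact Or.inl hvi
        · right
          have h1 := hAY hv
          rw [mem_insert, mem_inter] at h1
          refine ⟨(h1.resolve_left hvi).1, ?_⟩
          intro hvI
          exact hdis hvI (mem_erase.mpr ⟨hvi, mem_union_left _ hv⟩)
    · apply hf.zero_of_subset _ hB1
      intro v hv
      rw [mem_union, mem_sdiff, mem_erase] at hv
      rw [mem_sdiff, mem_union]
      rcases hv with hv | hv
      · refine ⟨Or.inl hv.1, ?_⟩
        intro hvB
        have h1 := hBY hvB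
        rw [mem_insert, mem_sdiff] at h1
        rcases h1 with h1 | h1
        · rw [h1] at hv; exact hv.2 hiI
        · exact h1.2 hv.1
      · refine ⟨Or.inr (hIC hv.2), ?_⟩
        intro hvB
        exact hdis hv.2 (mem_erase.mpr ⟨hv.1, mem_union_right _ hvB⟩)

lemma psi_concave (L : ℕ) {σ G : ℝ} (h0 : 0 ≤ σ) (h1 : σ ≤ G) :
    σ * psi L G ≤ G * psi L σ := by
  have ha : (0 : ℝ) ≤ (1 / 4) ^ L := by positivity
  have hL : (0 : ℝ) ≤ L := Nat.cast_nonneg L
  unfold psi
  have key : σ * min G ((1 / 4) ^ L) ≤ G * min σ ((1 / 4) ^ L) := by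
    rcases min_choice σ ((1 / 4 : ℝ) ^ L) with h | h
    · rw [h, mul_comm G σ]
      exact mul_le_mul_of_nonneg_left (min_le_left _ _) h0
    · rw [h]
      exact mul_le_mul h1 (min_le_right _ _) (le_min (h0.trans h1) ha) (h0.trans h1)
  nlinarith

section

variable [Fintype α]

lemma EE_univ_sdiff (θ : ℝ) (I : Finset α) (g : Finset α → ℝ) :
    EE θ univ (fun x => g (x \ I)) = EE θ (univ \ I) g := by
  have h := EE_union_sdiff θ (univ \ I) I sdiff_disjoint g
  rwa [union_sdiff_of_subset (subset_univ I)] at h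

lemma partA_step {f : Finset α → ℝ} (hf : Mono f) {C : Finset α} {r : ℕ} {i : α} (hi : i ∈ C)
    (hC : ∀ K, K ⊆ C → i ∈ K → NZ K f → K.card ≤ r + 1) (L : ℕ) {q θ : ℝ}
    (hq : q = 1 / (4 * r + 4)) (h0 : 0 ≤ θ) (h1 : θ ≤ 1) :
    q / 2 * psi L (EE θ univ (del i f))
      ≤ EE q C (fun I => ind (i ∈ I) * psi L (EE θ (univ \ I) (fun x => ind (TA f I i x)))) := by
  have hr0 : (0 : ℝ) ≤ r := Nat.cast_nonneg r
  have hq0 : 0 < q := by rw [hq]; positivity
  have hq1 : q ≤ 1 := by
    rw [hq, div_le_one (by positivity)]; linarith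
  set G := EE θ univ (del i f) with hG
  have hG0 : 0 ≤ G := EE_nonneg h0 h1 (fun x _ => by
    rcases hf.del_val i x with h | h <;> rw [h]; norm_num)
  have hσ0 : ∀ I, 0 ≤ EE θ (univ \ I) (fun x => ind (TA f I i x)) := fun I =>
    EE_nonneg h0 h1 (fun x _ => ind_nonneg _)
  rcases eq_or_lt_of_le hG0 with hG1 | hG1
  · have : psi L G = 0 := by
      rw [← hG1]; unfold psi
      rw [min_eq_left (by positivity)]; ring
    rw [this, mul_zero]
    apply EE_nonneg hq0.le hq1
    intro I _
    exact mul_nonneg (ind_nonneg _) (psi_nonneg L (hσ0 I))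
  · -- main case
    have hσG : ∀ I, i ∈ I → EE θ (univ \ I) (fun x => ind (TA f I i x)) ≤ G := by
      intro I hiI
      rw [← EE_univ_sdiff θ I (fun x => ind (TA f I i x)), hG]
      apply EE_mono h0 h1
      intro x _
      by_cases hT : TA f I i (x \ I)
      · have : del i f x = 1 := by
          rw [hf.del_eq_one]
          constructor
          · exact hf.one_of_subset (insert_subset_insert i sdiff_subset) hT.1
          · apply hf.zero_of_subset _ hT.2
            intro v hv
            rw [mem_erase] at hv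
            rw [mem_union, mem_sdiff, mem_erase]
            by_cases hvI : v ∈ I
            · exact Or.inr ⟨hv.1, hvI⟩
            · exact Or.inl ⟨hv.2, hvI⟩
        rw [this]; exact ind_le_one _
      · rw [ind_neg hT]
        rcases hf.del_val i x with h | h <;> rw [h]; norm_num
    have hkey : q / 2 * G ≤ EE q C (fun I => ind (i ∈ I)
        * EE θ (univ \ I) (fun x => ind (TA f I i x))) := by
      have e1 : EE q C (fun I => ind (i ∈ I) * EE θ (univ \ I) (fun x => ind (TA f I i x)))
          = EE θ univ (fun x => EE q C (fun I => ind (i ∈ I) * ind (TA f I i (x \ I)))) := by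
        rw [← EE_comm]
        congr 1
        funext I
        rw [← EE_univ_sdiff θ I (fun x => ind (TA f I i x)), ← EE_mul_left]
      rw [e1, hG, ← EE_mul_left]
      apply EE_mono h0 h1
      intro x _
      rcases hf.del_val i x with h | h
      · rw [h, mul_zero]
        apply EE_nonneg hq0.le hq1
        intro I _
        exact mul_nonneg (ind_nonneg _) (ind_nonneg _)
      · rw [h, mul_one]
        obtain ⟨D, hDC, hiD, hDcard, hD⟩ := partA_point hf hi hC h
        have h2 := prob_A hq0.le hq1 hi hDC hiD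
          (H := fun I => ind (i ∈ I) * ind (TA f I i (x \ I)))
          (fun I => mul_nonneg (ind_nonneg _) (ind_nonneg _))
          (fun I hI hiI hdis => by
            beta_reduce
            rw [ind_pos hiI, ind_pos (hD I hI hiI hdis)]; norm_num)
        refine le_trans ?_ h2
        have h3 : (D.card : ℝ) ≤ 2 * r := by exact_mod_cast hDcard
        have h4 : (2 * r : ℝ) * q ≤ 1 / 2 := by
          rw [hq, mul_one_div, div_le_iff₀ (by positivity)]
          linarith
        have h5 : (D.card : ℝ) * q ^ 2 ≤ q / 2 := by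
          calc (D.card : ℝ) * q ^ 2 ≤ (2 * r) * q ^ 2 :=
                mul_le_mul_of_nonneg_right h3 (sq_nonneg q)
            _ = ((2 * r) * q) * q := by ring
            _ ≤ (1 / 2) * q := mul_le_mul_of_nonneg_right h4 hq0.le
            _ = q / 2 := by ring
        linarith
    have hcomb : psi L G / G * EE q C (fun I => ind (i ∈ I)
        * EE θ (univ \ I) (fun x => ind (TA f I i x)))
        ≤ EE q C (fun I => ind (i ∈ I) * psi L (EE θ (univ \ I) (fun x => ind (TA f I i x)))) := by
      rw [← EE_mul_left]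
      apply EE_mono hq0.le hq1
      intro I _
      by_cases hiI : i ∈ I
      · rw [ind_pos hiI, one_mul, one_mul, div_mul_eq_mul_div, div_le_iff₀ hG1]
        have := psi_concave L (hσ0 I) (hσG I hiI)
        linarith
      · rw [ind_neg hiI]; simp
    refine le_trans ?_ hcomb
    have hpsi0 : 0 ≤ psi L G / G := div_nonneg (psi_nonneg L hG0) hG0
    calc q / 2 * psi L G = psi L G / G * (q / 2 * G) := by field_simp
      _ ≤ _ := mul_le_mul_of_nonneg_left hkey hpsi0

lemma partA_upper {f : Finset α → ℝ} (hf : Mono f) {C : Finset α} {r : ℕ}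
    (hC : ∀ i ∈ C, ∀ K, K ⊆ C → i ∈ K → NZ K f → K.card ≤ r + 1) (L : ℕ) :
    ∑ i ∈ C, ∫ θ in (1 / 4 : ℝ)..(3 / 4), psi L (EE θ univ (del i f)) ≤ 104 * (r + 1) := by
  have hr0 : (0 : ℝ) ≤ r := Nat.cast_nonneg r
  set q : ℝ := 1 / (4 * r + 4) with hq
  have hq0 : 0 < q := by rw [hq]; positivity
  have hq1 : q ≤ 1 := by
    rw [hq, div_le_one (by positivity)]; linarith
  have hcont : ∀ i I, Continuous (fun θ => ind (i ∈ I)
      * psi L (EE θ (univ \ I) (fun x => ind (TA f I i x)))) := by
    intro i I
    exact continuous_const.mul ((continuous_psi L).comp (continuous_EE _ _))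
  have hstep : ∀ i ∈ C, q / 2 * ∫ θ in (1 / 4 : ℝ)..(3 / 4), psi L (EE θ univ (del i f))
      ≤ EE q C (fun I => ∫ θ in (1 / 4 : ℝ)..(3 / 4), ind (i ∈ I)
          * psi L (EE θ (univ \ I) (fun x => ind (TA f I i x)))) := by
    intro i hi
    rw [← integral_EE q C _ (hcont i), ← intervalIntegral.integral_const_mul]
    apply intervalIntegral.integral_mono_on (by norm_num)
    · exact (continuous_const.mul ((continuous_psi L).comp
        (continuous_EE _ _))).intervalIntegrable _ _
    · exact (continuous_EE_right q C _ (hcont i)).intervalIntegrable _ _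
    · intro θ hθ
      exact partA_step hf hi (hC i hi) L hq (by linarith [hθ.1]) (by linarith [hθ.2])
  have h1 : q / 2 * ∑ i ∈ C, ∫ θ in (1 / 4 : ℝ)..(3 / 4), psi L (EE θ univ (del i f)) ≤ 13 := by
    rw [mul_sum]
    refine le_trans (sum_le_sum hstep) ?_
    rw [← EE_sum]
    apply EE_le_const hq0.le hq1
    intro I hIC
    have h2 : ∑ i ∈ C, ∫ θ in (1 / 4 : ℝ)..(3 / 4), ind (i ∈ I)
          * psi L (EE θ (univ \ I) (fun x => ind (TA f I i x)))
        = ∑ i ∈ I, ∫ θ in (1 / 4 : ℝ)..(3 / 4),
          psi L (EE θ (univ \ I) (fun x => ind (TA f I i x))) := by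
      rw [← sum_subset hIC]
      · apply sum_congr rfl
        intro i hi
        rw [ind_pos hi]
        simp only [one_mul]
      · intro i _ hi
        rw [ind_neg hi]
        simp
    rw [h2]
    exact core_final (inc_TA hf I) (univ \ I) L
      (fun i θ => EE θ (univ \ I) (fun x => ind (TA f I i x)))
      (fun i _ => continuous_EE _ _) (fun i _ θ _ _ => le_refl _)
  have h3 : ∑ i ∈ C, ∫ θ in (1 / 4 : ℝ)..(3 / 4), psi L (EE θ univ (del i f)) ≤ 13 * (2 / q) := by
    rw [mul_div_assoc', le_div_iff₀ hq0]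
    linarith
  refine le_trans h3 (le_of_eq ?_)
  rw [hq]
  field_simp
  ring

/-- the class with large influence is small -/
lemma partA {f : Finset α → ℝ} (hf : Mono f) {d L r : ℕ} (hd : ∀ M, NZ M f → M.card ≤ d)
    (hd1 : 1 ≤ d) (hL : 1 ≤ L) {C : Finset α}
    (hC : ∀ i ∈ C, ∀ K, K ⊆ C → i ∈ K → NZ K f → K.card ≤ r + 1)
    (hm : ∀ i ∈ C, (2 : ℝ) ^ r ≤ 2 ^ d / 2 * mu f i) :
    (C.card : ℝ) ≤ BB d L r * (104 * (r + 1)) := by
  have h1 : ∀ i ∈ C, 1 ≤ BB d L r * ∫ θ in (1 / 4 : ℝ)..(3 / 4),
      psi L (EE θ univ (del i f)) := by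
    intro i hi
    have hmu1 := mu_le_one hf i
    have h2d : (0 : ℝ) < 2 ^ d := by positivity
    have hdel : ∀ x, del i f x = dd {i} f x := fun x => (dd_singleton i f x).symm
    have hind : ∀ θ, EE θ univ (del i f) = EE θ (nbr f i) (del i f) := by
      intro θ
      have h2 : EE θ (univ \ (univ \ nbr f i)) (del i f) = EE θ (nbr f i) (del i f) := by
        congr 1
        rw [sdiff_sdiff_right_self]
        simp
      rw [← h2, ← EE_univ_sdiff]
      apply EE_congr
      intro x _
      rw [hdel, hdel]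
      symm
      apply dd_indep
      intro v hv hvi hNZ
      rw [mem_sdiff, mem_nbr] at hv
      exact hv.2 ⟨by simpa using hvi, hNZ⟩
    apply window_BB hd1 hL (m := 2 ^ d / 2 * mu f i) (hm i hi) (by nlinarith)
      (Y := nbr f i) (g := del i f) (n := (nbr f i).card)
    · intro x
      rcases hf.del_val i x with h | h <;> rw [h]; norm_num
    · exact le_refl _
    · have := card_nbr_le hf hd hd1 i
      calc ((nbr f i).card : ℝ) ≤ (d - 1) * 2 ^ d * mu f i := this
        _ = _ := by ring
    · exact continuous_EE _ _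
    · exact hind
    · apply le_of_eq
      change 2 ^ d / 2 * mu f i / 2 ^ d = mu f i / 2
      field_simp
  calc (C.card : ℝ) = ∑ _i ∈ C, (1 : ℝ) := by rw [sum_const, nsmul_eq_mul, mul_one]
    _ ≤ ∑ i ∈ C, BB d L r * ∫ θ in (1 / 4 : ℝ)..(3 / 4), psi L (EE θ univ (del i f)) :=
        sum_le_sum h1
    _ = BB d L r * ∑ i ∈ C, ∫ θ in (1 / 4 : ℝ)..(3 / 4), psi L (EE θ univ (del i f)) := by
        rw [mul_sum]
    _ ≤ _ := mul_le_mul_of_nonneg_left (partA_upper hf hC L) (BB_nonneg d L r)

end

end Pool.Agent.Helper29_Rel
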