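import Mathlib
import Pool.Agent.Helper29_Rel.Terms

/-!
The class of variables with small influence.
-/

set_option autoImplicit false
set_option linter.unusedSectionVars false

namespace Pool.Agent.Helper29_Rel

open Finset

variable {α : Type*} [DecidableEq α]

/-- the families used for the classes with small influence -/
def TB (f : Finset α → ℝ) (I : Finset α) (K : α → Finset α) (i : α) (P : Finset α) : Prop :=
  f (P ∪ K i) = 1 ∧ f (P ∪ (I \ K i)) = 0

lemma inc_TB {f : Finset α → ℝ} (hf : Mono f) {I J : Finset α} {K : α → Finset α}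
    (hKI : ∀ i ∈ J, K i ⊆ I) (hdis : ∀ i ∈ J, ∀ j ∈ J, i ≠ j → Disjoint (K i) (K j)) :
    Inc J (TB f I K) where
  conv := by
    intro i _ x y z hxy hyz hx hz
    exact ⟨hf.one_of_subset (union_subset_union hxy (Subset.refl _)) hx.1,
      hf.zero_of_subset (union_subset_union hyz (Subset.refl _)) hz.2⟩
  cross := by
    intro i hi j hj hij x y hxy hx hy
    have h1 : f (y ∪ (I \ K j)) = 1 := by
      apply hf.one_of_subset _ hx.1
      apply union_subset_union hxy
      intro v hv
      rw [mem_sdiff]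
      exact ⟨hKI i hi hv, fun h => disjoint_left.mp (hdis i hi j hj hij) hv h⟩
    have h2 := hy.2
    rw [h1] at h2
    norm_num at h2

lemma TB_of_ne {f : Finset α → ℝ} (hf : Mono f) {I : Finset α} {K : α → Finset α} {i : α}
    (hKI : K i ⊆ I) (hKne : (K i).Nonempty)
    (hind : ∀ x, dd (K i) f (x \ I) = dd (K i) f x) {P : Finset α} (hP : Disjoint P I)
    (hne : dd (K i) f P ≠ 0) : TB f I K i P := by
  constructor
  · rcases hf.val (P ∪ K i) with h | h
    · exact absurd (dd_eq_zero_of_zero hf h) hne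
    · exact h
  · have h1 : dd (K i) f (P ∪ (I \ K i)) ≠ 0 := by
      rw [← hind]
      have : (P ∪ (I \ K i)) \ I = P := by
        ext v
        simp only [mem_sdiff, mem_union]
        constructor
        · rintro ⟨h | h, h2⟩
          · exact h
          · exact absurd h.1 h2
        · intro h
          exact ⟨Or.inl h, fun h2 => disjoint_left.mp hP h h2⟩
      rw [this]; exact hne
    rcases hf.val (P ∪ (I \ K i)) with h | h
    · exact h
    · exfalso
      apply h1
      apply dd_eq_zero_of_one hf hKne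
      have : (P ∪ (I \ K i)) \ K i = P ∪ (I \ K i) := by
        rw [sdiff_eq_self_of_disjoint]
        rw [disjoint_union_left]
        exact ⟨disjoint_of_subset_right hKI hP, sdiff_disjoint⟩
      rw [this]; exact h

variable [Fintype α]

lemma EE_univ_sdiff' (θ : ℝ) (I : Finset α) (g : Finset α → ℝ) :
    EE θ univ (fun x => g (x \ I)) = EE θ (univ \ I) g := by
  have h := EE_union_sdiff θ (univ \ I) I sdiff_disjoint g
  rwa [union_sdiff_of_subset (subset_univ I)] at h

/-- the class with small influence has a small independent part -/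
lemma partB {f : Finset α → ℝ} (hf : Mono f) {d L r : ℕ} (hd : ∀ M, NZ M f → M.card ≤ d)
    (hd1 : 1 ≤ d) (hL : 1 ≤ L) {I J : Finset α} {K : α → Finset α}
    (hKI : ∀ i ∈ J, K i ⊆ I) (hdis : ∀ i ∈ J, ∀ j ∈ J, i ≠ j → Disjoint (K i) (K j))
    (hiK : ∀ i ∈ J, i ∈ K i) (hKcard : ∀ i ∈ J, (K i).card = r + 1)
    (hNZ : ∀ i ∈ J, NZ (K i) f)
    (hmaxK : ∀ i ∈ J, ∀ v ∈ I, v ∉ K i → ¬ NZ (insert v (K i)) f)
    (hm : ∀ i ∈ J, 2 ^ d / 2 * mu f i ≤ (2 : ℝ) ^ r) :
    (J.card : ℝ) ≤ BB d L r * 13 := by
  set X : Finset α := univ \ I with hX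
  have hindI : ∀ i ∈ J, ∀ x, dd (K i) f (x \ I) = dd (K i) f x := by
    intro i hi
    exact dd_indep I (fun v hv hvK => hmaxK i hi v hv hvK)
  have hrd : ∀ i ∈ J, r + 1 ≤ d := by
    intro i hi
    rw [← hKcard i hi]; exact hd _ (hNZ i hi)
  have hupper := core_final (inc_TB hf hKI hdis) X L
    (fun i θ => EE θ X (fun x => ind (dd (K i) f x ≠ 0)))
    (fun i _ => continuous_EE _ _)
    (fun i hi θ h0 h1 => by
      apply EE_mono h0 h1
      intro x hx
      apply ind_mono
      intro hne
      apply TB_of_ne hf (hKI i hi) ⟨i, hiK i hi⟩ (hindI i hi) _ hne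
      rw [disjoint_left]
      intro v hv hvI
      have := hx hv
      rw [hX, mem_sdiff] at this
      exact this.2 hvI)
  have hlower : ∀ i ∈ J, 1 ≤ BB d L r * ∫ θ in (1 / 4 : ℝ)..(3 / 4),
      psi L (EE θ X (fun x => ind (dd (K i) f x ≠ 0))) := by
    intro i hi
    have hrd' := hrd i hi
    set Y := X ∩ nbr f i with hY
    have hind : ∀ θ, EE θ X (fun x => ind (dd (K i) f x ≠ 0))
        = EE θ Y (fun x => ind (dd (K i) f x ≠ 0)) := by
      intro θ
      have h3 := EE_union_sdiff θ Y (X \ Y) sdiff_disjoint.symm (fun x => ind (dd (K i) f x ≠ 0))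
      rw [sdiff_union_of_subset (inter_subset_left)] at h3
      rw [← h3]
      apply EE_congr
      intro x _
      have h4 : dd (K i) f (x \ (X \ Y)) = dd (K i) f x := by
        apply dd_indep
        intro v hv hvK hNZ'
        rw [mem_sdiff] at hv
        apply hv.2
        rw [hY, mem_inter, mem_nbr]
        refine ⟨hv.1, ?_, ?_⟩
        · rintro rfl; exact hvK (hiK v hi)
        · apply NZ_mono _ hNZ'
          intro w hw
          rw [mem_insert, mem_singleton] at hw
          rw [mem_insert]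
          rcases hw with h | h
          · exact Or.inl h
          · exact Or.inr (h ▸ hiK i hi)
      rw [h4]
    have hSZ := SZ hd (hNZ i hi)
    have hhalf : EE (1 / 2) univ (fun x => ind (dd (K i) f x ≠ 0))
        = EE (1 / 2) X (fun x => ind (dd (K i) f x ≠ 0)) := by
      rw [hX, ← EE_univ_sdiff']
      apply EE_congr
      intro x _
      rw [hindI i hi]
    apply window_BB hd1 hL (m := 2 ^ r) (le_refl _)
      (pow_le_pow_right₀ (by norm_num) (by omega))
      (Y := Y) (g := fun x => ind (dd (K i) f x ≠ 0)) (n := (nbr f i).card)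
    · intro x; exact ind_nonneg _
    · exact card_le_card inter_subset_right
    · have h5 := card_nbr_le hf hd hd1 i
      have h6 := hm i hi
      have h7 : (0 : ℝ) ≤ (d : ℝ) - 1 := by
        have : (1 : ℝ) ≤ d := by exact_mod_cast hd1
        linarith
      calc ((nbr f i).card : ℝ) ≤ (d - 1) * 2 ^ d * mu f i := h5
        _ = 2 * (d - 1) * (2 ^ d / 2 * mu f i) := by ring
        _ ≤ 2 * (d - 1) * 2 ^ r := mul_le_mul_of_nonneg_left h6 (by linarith)
    · exact continuous_EE _ _
    · exact hind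
    · beta_reduce
      rw [← hhalf]
      rw [hKcard i hi] at hSZ
      have h8 : (2 : ℝ) ^ r / 2 ^ d = (1 / 2) ^ (d - (r + 1)) / 2 := by
        obtain ⟨e, he⟩ : ∃ e, d = r + 1 + e := ⟨d - (r + 1), by omega⟩
        have h9 : d - (r + 1) = e := by omega
        rw [h9, he, pow_add, pow_add, one_div, inv_pow]
        field_simp
      rw [h8]
      linarith
  calc (J.card : ℝ) = ∑ _i ∈ J, (1 : ℝ) := by rw [sum_const, nsmul_eq_mul, mul_one]
    _ ≤ ∑ i ∈ J, BB d L r * ∫ θ in (1 / 4 : ℝ)..(3 / 4),
          psi L (EE θ X (fun x => ind (dd (K i) f x ≠ 0))) := sum_le_sum hlower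
    _ = BB d L r * ∑ i ∈ J, ∫ θ in (1 / 4 : ℝ)..(3 / 4),
          psi L (EE θ X (fun x => ind (dd (K i) f x ≠ 0))) := by rw [mul_sum]
    _ ≤ _ := mul_le_mul_of_nonneg_left hupper (BB_nonneg d L r)

end Pool.Agent.Helper29_Rel
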