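import Mathlib

/-!
An abstract selection lemma.
-/

set_option autoImplicit false
set_option linter.unusedSectionVars false

namespace Pool.Agent.Helper29_Rel

open Finset

variable {α : Type*} [DecidableEq α]

/-- rank of `i` with respect to `I` -/
def rho (F : α → Finset (Finset α)) (I : Finset α) (i : α) : ℕ :=
  ((F i).filter (fun R => R ⊆ I)).sup card

lemma le_rho {F : α → Finset (Finset α)} {I : Finset α} {i : α} {R : Finset α} (hR : R ∈ F i)
    (hRI : R ⊆ I) : R.card ≤ rho F I i :=
  le_sup (f := card) (mem_filter.mpr ⟨hR, hRI⟩)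

lemma exists_rho {F : α → Finset (Finset α)} (I : Finset α) {i : α} (h0 : ∅ ∈ F i) :
    ∃ R ∈ F i, R ⊆ I ∧ R.card = rho F I i := by
  have hne : ((F i).filter (fun R => R ⊆ I)).Nonempty :=
    ⟨∅, mem_filter.mpr ⟨h0, empty_subset I⟩⟩
  obtain ⟨R, hR, hR2⟩ := exists_mem_eq_sup _ hne (card : Finset α → ℕ)
  rw [mem_filter] at hR
  exact ⟨R, hR.1, hR.2, hR2.symm⟩

lemma rho_mono {F : α → Finset (Finset α)} {I I' : Finset α} (h : I' ⊆ I) (i : α) :
    rho F I' i ≤ rho F I i := by
  unfold rho
  apply Finset.sup_mono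
  intro R hR
  rw [mem_filter] at hR ⊢
  exact ⟨hR.1, hR.2.trans h⟩

/-- weight function -/
noncomputable def ww (F : α → Finset (Finset α)) (I : Finset α) (i : α) : ℝ :=
  1 + 1 / ((rho F I i : ℝ) + 1)

lemma ww_ge (F : α → Finset (Finset α)) (I : Finset α) (i : α) : 1 ≤ ww F I i := by
  unfold ww
  have : (0 : ℝ) ≤ 1 / ((rho F I i : ℝ) + 1) := by positivity
  linarith

lemma ww_le (F : α → Finset (Finset α)) (I : Finset α) (i : α) : ww F I i ≤ 2 := by
  unfold ww
  have h1 : (1 : ℝ) ≤ (rho F I i : ℝ) + 1 := by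
    have : (0 : ℝ) ≤ (rho F I i : ℝ) := Nat.cast_nonneg _
    linarith
  have h2 : 1 / ((rho F I i : ℝ) + 1) ≤ 1 := by
    rw [div_le_one (by linarith)]; exact h1
  linarith

lemma ww_anti {F : α → Finset (Finset α)} {I I' : Finset α} (h : I' ⊆ I) (i : α) :
    ww F I i ≤ ww F I' i := by
  unfold ww
  have h1 : (rho F I' i : ℝ) ≤ rho F I i := by exact_mod_cast rho_mono h i
  have h2 : (0 : ℝ) ≤ rho F I' i := Nat.cast_nonneg _
  have h3 : 1 / ((rho F I i : ℝ) + 1) ≤ 1 / ((rho F I' i : ℝ) + 1) :=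
    one_div_le_one_div_of_le (by linarith) (by linarith)
  linarith

/-- load bound -/
def TT (r : ℕ) : ℕ := 2 * r * (2 * r * (r + 1) + 1)

lemma greedy {G : Finset α} {R : α → Finset α} {r T : ℕ}
    (hR : ∀ i ∈ G, (R i).card = r)
    (hload : ∀ v, (G.filter (fun i => v ∈ R i)).card ≤ T) :
    ∃ J ⊆ G, (∀ i ∈ J, ∀ j ∈ J, i ≠ j → Disjoint (insert i (R i)) (insert j (R j))) ∧
      G.card ≤ J.card * ((r + 1) * (T + 1)) := by
  obtain ⟨J, hJ, hmax⟩ := Finset.exists_max_image
    (G.powerset.filter (fun J => ∀ i ∈ J, ∀ j ∈ J, i ≠ j →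
      Disjoint (insert i (R i)) (insert j (R j)))) (fun J => J.card)
    ⟨∅, by simp⟩
  rw [mem_filter, mem_powerset] at hJ
  refine ⟨J, hJ.1, hJ.2, ?_⟩
  have hcov : G ⊆ J.biUnion (fun i => G.filter (fun j =>
      ¬ Disjoint (insert i (R i)) (insert j (R j)))) := by
    intro j hj
    rw [mem_biUnion]
    by_cases hjJ : j ∈ J
    · refine ⟨j, hjJ, ?_⟩
      rw [mem_filter]
      refine ⟨hj, ?_⟩
      rw [not_disjoint_iff]
      exact ⟨j, mem_insert_self _ _, mem_insert_self _ _⟩
    · by_contra hcon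
      push Not at hcon
      have hcon' : ∀ i ∈ J, Disjoint (insert i (R i)) (insert j (R j)) := by
        intro i hi
        have := hcon i hi
        rw [mem_filter] at this
        push Not at this
        exact this hj
      have := hmax (insert j J) (by
        rw [mem_filter, mem_powerset]
        refine ⟨insert_subset hj hJ.1, ?_⟩
        intro i hi k hk hik
        rw [mem_insert] at hi hk
        rcases hi with rfl | hi <;> rcases hk with rfl | hk
        · exact absurd rfl hik
        · exact (hcon' k hk).symm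
        · exact hcon' i hi
        · exact hJ.2 i hi k hk hik)
      rw [card_insert_of_notMem hjJ] at this
      omega
  refine le_trans (card_le_card hcov) ?_
  apply card_biUnion_le_card_mul
  intro i hi
  have hsub : (G.filter (fun j => ¬ Disjoint (insert i (R i)) (insert j (R j))))
      ⊆ (insert i (R i)).biUnion (fun v => insert v (G.filter (fun j => v ∈ R j))) := by
    intro j hj
    rw [mem_filter, not_disjoint_iff] at hj
    obtain ⟨hjG, v, hv1, hv2⟩ := hj
    rw [mem_biUnion]
    refine ⟨v, hv1, ?_⟩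
    rw [mem_insert] at hv2 ⊢
    rcases hv2 with rfl | hv2
    · left; rfl
    · right; rw [mem_filter]; exact ⟨hjG, hv2⟩
  refine le_trans (card_le_card hsub) ?_
  refine le_trans (card_biUnion_le_card_mul _ _ (T + 1) ?_) ?_
  · intro v _
    refine le_trans (card_insert_le _ _) ?_
    have := hload v
    omega
  · apply Nat.mul_le_mul_right
    refine le_trans (card_insert_le _ _) ?_
    rw [hR i (hJ.1 hi)]

/-- families with bounded loads -/
def GoodFam (F : α → Finset (Finset α)) (I : Finset α) (r : ℕ) (G : Finset α)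
    (R : α → Finset α) : Prop :=
  (∀ i ∈ G, R i ∈ F i ∧ R i ⊆ I ∧ (R i).card = r) ∧
    ∀ v, (G.filter (fun i => v ∈ R i)).card ≤ TT r

lemma select_class (V : Finset α) (F : α → Finset (Finset α)) (h0 : ∀ i, ∅ ∈ F i)
    (I : Finset α) (hIV : I ⊆ V)
    (hmaxI : ∀ I' ⊆ V, ∑ i ∈ I', ww F I' i ≤ ∑ i ∈ I, ww F I i)
    (r : ℕ) (C : Finset α) (hCI : C ⊆ I) (hC : ∀ i ∈ C, rho F I i = r) (hr : 1 ≤ r) :
    ∃ G ⊆ C, ∃ R : α → Finset α, GoodFam F I r G R ∧ C.card ≤ 2 * G.card := by
  classical
  obtain ⟨G, hG, hmax⟩ := Finset.exists_max_image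
    (C.powerset.filter (fun G => ∃ R : α → Finset α, GoodFam F I r G R)) (fun G => G.card)
    ⟨∅, by
      rw [mem_filter, mem_powerset]
      exact ⟨empty_subset C, fun _ => ∅, by simp [GoodFam]⟩⟩
  rw [mem_filter, mem_powerset] at hG
  obtain ⟨hGC, R, hR⟩ := hG
  refine ⟨G, hGC, R, hR, ?_⟩
  set H := I.filter (fun v => (G.filter (fun i => v ∈ R i)).card = TT r) with hH
  have hHI : H ⊆ I := filter_subset _ _
  -- load count
  have hcount : TT r * H.card ≤ r * G.card := by
    calc TT r * H.card = ∑ v ∈ H, (G.filter (fun i => v ∈ R i)).card := by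
          rw [sum_congr rfl (fun v hv => (mem_filter.mp hv).2), sum_const, smul_eq_mul, mul_comm]
      _ = ∑ i ∈ G, (H.filter (fun v => v ∈ R i)).card := by
          simp only [card_filter]
          rw [sum_comm]
      _ ≤ ∑ i ∈ G, r := by
          apply sum_le_sum
          intro i hi
          rw [← (hR.1 i hi).2.2]
          apply card_le_card
          intro v hv
          exact (mem_filter.mp hv).2
      _ = r * G.card := by rw [sum_const, smul_eq_mul, mul_comm]
  -- maximality
  have hmeet : ∀ i ∈ C \ G, ∀ R' ∈ F i, R' ⊆ I → R'.card = r → ∃ v ∈ R', v ∈ H := by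
    intro i hi R' hR' hR'I hR'c
    rw [mem_sdiff] at hi
    by_contra hcon
    push Not at hcon
    have := hmax (insert i G) (by
      rw [mem_filter, mem_powerset]
      refine ⟨insert_subset hi.1 hGC, Function.update R i R', ?_, ?_⟩
      · intro j hj
        rw [mem_insert] at hj
        rcases hj with rfl | hj
        · rw [Function.update_self]; exact ⟨hR', hR'I, hR'c⟩
        · have hji : j ≠ i := by rintro rfl; exact hi.2 hj
          rw [Function.update_of_ne hji]; exact hR.1 j hj
      · intro v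
        rw [filter_insert, Function.update_self]
        have hsame : G.filter (fun j => v ∈ Function.update R i R' j)
            = G.filter (fun j => v ∈ R j) := by
          apply filter_congr
          intro j hj
          have hji : j ≠ i := by rintro rfl; exact hi.2 hj
          rw [Function.update_of_ne hji]
        rw [hsame]
        split_ifs with hv
        · refine le_trans (card_insert_le _ _) ?_
          have h1 := hcon v hv
          rw [hH, mem_filter] at h1
          push Not at h1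
          have h2 := h1 (hR'I hv)
          have h3 := hR.2 v
          omega
        · exact hR.2 v)
    rw [card_insert_of_notMem hi.2] at this
    omega
  have hdrop : ∀ i ∈ (C \ G) \ H, rho F (I \ H) i + 1 ≤ r := by
    intro i hi
    rw [mem_sdiff] at hi
    obtain ⟨R', hR', hR'I, hR'c⟩ := exists_rho (I \ H) (h0 i)
    have h1 : rho F (I \ H) i ≤ r := by
      rw [← hC i (mem_sdiff.mp hi.1).1]
      exact rho_mono sdiff_subset i
    rcases Nat.lt_or_ge (rho F (I \ H) i) r with h2 | h2
    · omega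
    · exfalso
      obtain ⟨v, hv, hvH⟩ := hmeet i hi.1 R' hR' (hR'I.trans sdiff_subset) (by omega)
      exact (mem_sdiff.mp (hR'I hv)).2 hvH
  have hrr : (1 : ℝ) ≤ r := by exact_mod_cast hr
  have hW := hmaxI (I \ H) (sdiff_subset.trans hIV)
  have hsplit : ∑ i ∈ I, ww F I i = ∑ i ∈ I \ H, ww F I i + ∑ i ∈ H, ww F I i :=
    (sum_sdiff hHI).symm
  have hHle : ∑ i ∈ H, ww F I i ≤ 2 * H.card := by
    calc ∑ i ∈ H, ww F I i ≤ ∑ _i ∈ H, (2 : ℝ) := sum_le_sum (fun i _ => ww_le F I i)
      _ = 2 * H.card := by rw [sum_const, nsmul_eq_mul, mul_comm]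
  have hsub : (C \ G) \ H ⊆ I \ H := sdiff_subset_sdiff (sdiff_subset.trans hCI) (Subset.refl _)
  have hlow : ∑ i ∈ I \ H, ww F I i + ((C \ G) \ H).card * (1 / ((r : ℝ) * (r + 1)))
      ≤ ∑ i ∈ I \ H, ww F (I \ H) i := by
    have e1 : ((((C \ G) \ H).card : ℕ) : ℝ) * (1 / ((r : ℝ) * (r + 1)))
        = ∑ _i ∈ (C \ G) \ H, (1 / ((r : ℝ) * (r + 1))) := by
      rw [sum_const, nsmul_eq_mul]
    rw [e1, ← sum_sdiff hsub, ← sum_sdiff hsub, add_assoc, ← sum_add_distrib]
    apply add_le_add
    · exact sum_le_sum (fun i _ => ww_anti sdiff_subset i)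
    · apply sum_le_sum
      intro i hi
      have h1 := hdrop i hi
      have h2 : rho F I i = r := hC i (mem_sdiff.mp (mem_sdiff.mp hi).1).1
      unfold ww
      rw [h2]
      have h3 : ((rho F (I \ H) i : ℕ) : ℝ) + 1 ≤ r := by exact_mod_cast h1
      have h4 : (0 : ℝ) ≤ (rho F (I \ H) i : ℝ) := Nat.cast_nonneg _
      have h5 : 1 / (r : ℝ) ≤ 1 / ((rho F (I \ H) i : ℝ) + 1) :=
        one_div_le_one_div_of_le (by linarith) h3
      have h6 : 1 / (r : ℝ) = 1 / ((r : ℝ) + 1) + 1 / ((r : ℝ) * (r + 1)) := by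
        field_simp
      linarith
  have hfin : (((C \ G) \ H).card : ℝ) * (1 / ((r : ℝ) * (r + 1))) ≤ 2 * H.card := by
    linarith
  have hfin2 : (((C \ G) \ H).card : ℝ) ≤ 2 * r * (r + 1) * H.card := by
    have h7 : (0 : ℝ) < (r : ℝ) * (r + 1) := by positivity
    rw [mul_one_div, div_le_iff₀ h7] at hfin
    linarith
  have hfin3 : ((C \ G) \ H).card ≤ 2 * r * (r + 1) * H.card := by exact_mod_cast hfin2
  have hCG : (C \ G).card ≤ ((C \ G) \ H).card + H.card := by
    have : C \ G ⊆ ((C \ G) \ H) ∪ H := by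
      intro v hv
      rw [mem_union]
      by_cases h : v ∈ H
      · right; exact h
      · left; exact mem_sdiff.mpr ⟨hv, h⟩
    exact (card_le_card this).trans (card_union_le _ _)
  have hCc : C.card = (C \ G).card + G.card := by
    rw [card_sdiff_add_card_eq_card hGC]
  unfold TT at hcount
  have hcount2 : 2 * (2 * r * (r + 1) + 1) * H.card ≤ G.card := by
    have : r * (2 * (2 * r * (r + 1) + 1) * H.card) ≤ r * G.card := by
      calc r * (2 * (2 * r * (r + 1) + 1) * H.card) = 2 * r * (2 * r * (r + 1) + 1) * H.card := by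
            ring
        _ ≤ _ := hcount
    exact Nat.le_of_mul_le_mul_left this (by omega)
  have : 2 * (C \ G).card ≤ G.card := by nlinarith
  omega

theorem selection (V : Finset α) (F : α → Finset (Finset α)) (h0 : ∀ i, ∅ ∈ F i) :
    ∃ I ⊆ V, V.card ≤ 2 * I.card ∧ ∀ r : ℕ, ∀ C ⊆ I, (∀ i ∈ C, rho F I i = r) →
      ∃ J ⊆ C, ∃ R : α → Finset α, (∀ i ∈ J, R i ∈ F i ∧ R i ⊆ I ∧ (R i).card = r) ∧
        (∀ i ∈ J, ∀ j ∈ J, i ≠ j → Disjoint (insert i (R i)) (insert j (R j))) ∧
        C.card ≤ 2 * ((r + 1) * (TT r + 1)) * J.card := by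
  classical
  obtain ⟨I, hI, hmax⟩ := Finset.exists_max_image V.powerset (fun I => ∑ i ∈ I, ww F I i)
    ⟨∅, empty_mem_powerset V⟩
  rw [mem_powerset] at hI
  refine ⟨I, hI, ?_, ?_⟩
  · have h1 := hmax V (mem_powerset.mpr (Subset.refl V))
    have h2 : (V.card : ℝ) ≤ ∑ i ∈ V, ww F V i := by
      calc (V.card : ℝ) = ∑ _i ∈ V, (1 : ℝ) := by rw [sum_const, nsmul_eq_mul, mul_one]
        _ ≤ _ := sum_le_sum (fun i _ => ww_ge F V i)
    have h3 : ∑ i ∈ I, ww F I i ≤ 2 * I.card := by
      calc ∑ i ∈ I, ww F I i ≤ ∑ _i ∈ I, (2 : ℝ) := sum_le_sum (fun i _ => ww_le F I i)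
        _ = 2 * I.card := by rw [sum_const, nsmul_eq_mul, mul_comm]
    have h4 : (V.card : ℝ) ≤ 2 * I.card := by
      have := le_trans h2 (le_trans h1 h3)
      exact this
    exact_mod_cast h4
  · intro r C hCI hC
    rcases Nat.eq_zero_or_pos r with hr | hr
    · subst hr
      refine ⟨C, Subset.refl C, fun _ => ∅, ?_, ?_, ?_⟩
      · intro i _
        exact ⟨h0 i, empty_subset I, card_empty⟩
      · intro i _ j _ hij
        rw [insert_empty_eq, insert_empty_eq, disjoint_singleton]
        exact hij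
      · simp [TT]; omega
    · obtain ⟨G, hGC, R, hR, hcard⟩ := select_class V F h0 I hI
        (fun I' hI' => hmax I' (mem_powerset.mpr hI')) r C hCI hC hr
      obtain ⟨J, hJG, hdisj, hJcard⟩ := greedy (G := G) (R := R) (r := r) (T := TT r)
        (fun i hi => (hR.1 i hi).2.2) hR.2
      refine ⟨J, hJG.trans hGC, R, fun i hi => hR.1 i (hJG hi), hdisj, ?_⟩
      calc C.card ≤ 2 * G.card := hcard
        _ ≤ 2 * (J.card * ((r + 1) * (TT r + 1))) := by omega
        _ = _ := by ring

end Pool.Agent.Helper29_Rel
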