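import Mathlib
import Pool.Agent.Helper29_Rel.Select
import Pool.Agent.Helper29_Rel.PartA
import Pool.Agent.Helper29_Rel.PartB

/-!
The degree bound.
-/

set_option autoImplicit false
set_option linter.unusedSectionVars false

namespace Pool.Agent.Helper29_Rel

open Finset

section Num

lemma exists_S : ∃ S : ℝ, 0 ≤ S ∧ ∀ d : ℕ,
    ∑ r ∈ range d, ((r : ℝ) + 1) ^ 4 * (1 / Real.sqrt 2) ^ r ≤ S := by
  set c : ℝ := 1 / Real.sqrt 2 with hc
  have hs : 1 < Real.sqrt 2 := by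
    rw [Real.lt_sqrt (by norm_num)]; norm_num
  have hc0 : 0 < c := by rw [hc]; positivity
  have hc1 : c < 1 := by
    rw [hc, div_lt_one (by positivity)]; exact hs
  have h1 : Summable (fun n : ℕ => (n : ℝ) ^ 4 * c ^ n) :=
    summable_pow_mul_geometric_of_norm_lt_one 4 (by
      rw [Real.norm_eq_abs, abs_of_pos hc0]; exact hc1)
  have h2 : Summable (fun n : ℕ => ((n + 1 : ℕ) : ℝ) ^ 4 * c ^ (n + 1)) :=
    (summable_nat_add_iff 1).mpr h1
  have h3 : Summable (fun n : ℕ => ((n : ℝ) + 1) ^ 4 * c ^ n) := by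
    have h4 := h2.mul_left (1 / c)
    refine h4.congr ?_
    intro n
    push_cast
    field_simp
    ring
  refine ⟨∑' n : ℕ, ((n : ℝ) + 1) ^ 4 * c ^ n, tsum_nonneg (fun n => by positivity), ?_⟩
  intro d
  exact h3.sum_le_tsum _ (fun n _ => by positivity)

lemma exists_S' : ∃ S : ℝ, 0 ≤ S ∧ ∀ L : ℕ, (L : ℝ) ^ 5 * (1 / 4) ^ L ≤ S := by
  have h1 : Summable (fun n : ℕ => (n : ℝ) ^ 5 * (1 / 4 : ℝ) ^ n) :=
    summable_pow_mul_geometric_of_norm_lt_one 5 (by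
      rw [Real.norm_eq_abs, abs_of_pos (by norm_num)]; norm_num)
  refine ⟨∑' n : ℕ, (n : ℝ) ^ 5 * (1 / 4 : ℝ) ^ n, tsum_nonneg (fun n => by positivity), ?_⟩
  intro L
  exact h1.le_tsum L (fun n _ => by positivity)

lemma BB_sqrt {d L : ℕ} (hd : 8 * L ≤ d) (hd' : d ≤ 15 * L) (hL : 1 ≤ L) (r : ℕ) :
    BB d L r * Real.sqrt d ≤ 60 * 2 ^ d * ((1 / Real.sqrt 2) ^ r + (1 / 4) ^ L) := by
  have hL0 : (0 : ℝ) < L := by exact_mod_cast hL
  have hd0 : (0 : ℝ) ≤ d := Nat.cast_nonneg d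
  have e1 : BB d L r * Real.sqrt d
      = (4 * (d / L)) * (2 ^ d / Real.sqrt (2 ^ r) + 4 ^ L * Real.sqrt (2 ^ d)) := by
    unfold BB
    have : Real.sqrt d * Real.sqrt d = d := Real.mul_self_sqrt hd0
    calc 4 * Real.sqrt d / L * (2 ^ d / Real.sqrt (2 ^ r) + 4 ^ L * Real.sqrt (2 ^ d)) * Real.sqrt d
        = (4 * ((Real.sqrt d * Real.sqrt d) / L))
          * (2 ^ d / Real.sqrt (2 ^ r) + 4 ^ L * Real.sqrt (2 ^ d)) := by ring
      _ = _ := by rw [this]
  rw [e1]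
  have h1 : (d : ℝ) / L ≤ 15 := by
    rw [div_le_iff₀ hL0]
    exact_mod_cast hd'
  have h2 : (2 : ℝ) ^ d / Real.sqrt (2 ^ r) = 2 ^ d * (1 / Real.sqrt 2) ^ r := by
    have : Real.sqrt (2 ^ r) = Real.sqrt 2 ^ r := by
      rw [Real.sqrt_eq_iff_mul_self_eq (by positivity) (by positivity), ← mul_pow,
        Real.mul_self_sqrt (by norm_num)]
    rw [this, one_div, inv_pow]
    rfl
  have h3 : (4 : ℝ) ^ L * Real.sqrt (2 ^ d) ≤ 2 ^ d * (1 / 4) ^ L := by
    have h4 : (16 : ℝ) ^ L ≤ Real.sqrt (2 ^ d) := by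
      apply Real.le_sqrt_of_sq_le
      calc ((16 : ℝ) ^ L) ^ 2 = 2 ^ (8 * L) := by
            rw [← pow_mul, mul_comm L 2, pow_mul, pow_mul]; norm_num
        _ ≤ 2 ^ d := pow_le_pow_right₀ (by norm_num) hd
    have h5 : Real.sqrt (2 ^ d) * Real.sqrt (2 ^ d) = (2 : ℝ) ^ d :=
      Real.mul_self_sqrt (by positivity)
    have h6 : (4 : ℝ) ^ L = 16 ^ L * (1 / 4) ^ L := by
      rw [← mul_pow]; norm_num
    calc (4 : ℝ) ^ L * Real.sqrt (2 ^ d) = (16 ^ L * Real.sqrt (2 ^ d)) * (1 / 4) ^ L := by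
          rw [h6]; ring
      _ ≤ (Real.sqrt (2 ^ d) * Real.sqrt (2 ^ d)) * (1 / 4) ^ L := by
          apply mul_le_mul_of_nonneg_right _ (by positivity)
          exact mul_le_mul_of_nonneg_right h4 (Real.sqrt_nonneg _)
      _ = _ := by rw [h5]
  calc (4 * ((d : ℝ) / L)) * (2 ^ d / Real.sqrt (2 ^ r) + 4 ^ L * Real.sqrt (2 ^ d))
      ≤ 60 * (2 ^ d / Real.sqrt (2 ^ r) + 4 ^ L * Real.sqrt (2 ^ d)) := by
        apply mul_le_mul_of_nonneg_right _ (by positivity)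
        linarith
    _ ≤ 60 * (2 ^ d * (1 / Real.sqrt 2) ^ r + 2 ^ d * (1 / 4) ^ L) := by
        rw [h2]; linarith
    _ = _ := by ring

lemma TT_le (r : ℕ) : 104 * (r + 1) + 26 * ((r + 1) * (TT r + 1)) ≤ 208 * (r + 1) ^ 4 := by
  unfold TT
  nlinarith [sq_nonneg (r : ℤ), Nat.zero_le (r ^ 4), Nat.zero_le (r ^ 3), Nat.zero_le (r ^ 2),
    Nat.zero_le r]

end Num

variable {α : Type*} [DecidableEq α] [Fintype α]

open Classical in
/-- the families used in the degree case -/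
noncomputable def Fam (f : Finset α → ℝ) (i : α) : Finset (Finset α) :=
  univ.filter (fun R => R = ∅ ∨ (i ∉ R ∧ NZ (insert i R) f))

lemma mem_Fam {f : Finset α → ℝ} {i : α} {R : Finset α} :
    R ∈ Fam f i ↔ R = ∅ ∨ (i ∉ R ∧ NZ (insert i R) f) := by
  unfold Fam
  simp only [mem_filter, mem_univ, true_and]

lemma Fam_NZ {f : Finset α → ℝ} {i : α} (hi : NZ {i} f) {R : Finset α} (hR : R ∈ Fam f i) :
    i ∉ R ∧ NZ (insert i R) f := by
  rw [mem_Fam] at hR
  rcases hR with h | h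
  · subst h
    exact ⟨notMem_empty i, by rw [insert_empty_eq]; exact hi⟩
  · exact h

lemma class_bound {f : Finset α → ℝ} (hf : Mono f) {d L r : ℕ} (hd : ∀ M, NZ M f → M.card ≤ d)
    (hd1 : 1 ≤ d) (hL : 1 ≤ L) {I : Finset α} (hI : ∀ i ∈ I, NZ {i} f)
    (hsel : ∀ C ⊆ I, (∀ i ∈ C, rho (Fam f) I i = r) →
      ∃ J ⊆ C, ∃ R : α → Finset α, (∀ i ∈ J, R i ∈ Fam f i ∧ R i ⊆ I ∧ (R i).card = r) ∧
        (∀ i ∈ J, ∀ j ∈ J, i ≠ j → Disjoint (insert i (R i)) (insert j (R j))) ∧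
        C.card ≤ 2 * ((r + 1) * (TT r + 1)) * J.card) :
    ((I.filter (fun i => rho (Fam f) I i = r)).card : ℝ) ≤ 208 * ((r : ℝ) + 1) ^ 4 * BB d L r := by
  classical
  set CA := I.filter (fun i => rho (Fam f) I i = r ∧ (2 : ℝ) ^ r ≤ 2 ^ d / 2 * mu f i) with hCA
  set CB := I.filter (fun i => rho (Fam f) I i = r ∧ ¬ (2 : ℝ) ^ r ≤ 2 ^ d / 2 * mu f i) with hCB
  have hsplit : I.filter (fun i => rho (Fam f) I i = r) ⊆ CA ∪ CB := by
    intro i hi
    rw [mem_filter] at hi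
    rw [mem_union, hCA, hCB, mem_filter, mem_filter]
    by_cases h : (2 : ℝ) ^ r ≤ 2 ^ d / 2 * mu f i
    · exact Or.inl ⟨hi.1, hi.2, h⟩
    · exact Or.inr ⟨hi.1, hi.2, h⟩
  have hA : (CA.card : ℝ) ≤ BB d L r * (104 * (r + 1)) := by
    apply partA hf hd hd1 hL
    · intro i hi K hK hiK hNZ
      have hi' := mem_filter.mp hi
      have h1 : K.erase i ∈ Fam f i := by
        rw [mem_Fam]
        right
        exact ⟨notMem_erase i K, by rw [insert_erase hiK]; exact hNZ⟩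
      have h2 := le_rho h1 (((erase_subset i K).trans hK).trans (filter_subset _ _) : K.erase i ⊆ I)
      rw [hi'.2.1, card_erase_of_mem hiK] at h2
      omega
    · intro i hi
      exact (mem_filter.mp hi).2.2
  obtain ⟨J, hJC, R, hR, hdis, hcard⟩ := hsel CB (filter_subset _ _)
    (fun i hi => (mem_filter.mp hi).2.1)
  have hJI : ∀ i ∈ J, i ∈ I := fun i hi => (mem_filter.mp (hJC hi)).1
  have hB : (J.card : ℝ) ≤ BB d L r * 13 := by
    apply partB hf hd hd1 hL (I := I) (K := fun i => insert i (R i))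
    · intro i hi
      exact insert_subset (hJI i hi) (hR i hi).2.1
    · exact hdis
    · intro i _; exact mem_insert_self i _
    · intro i hi
      have h1 := Fam_NZ (hI i (hJI i hi)) (hR i hi).1
      beta_reduce
      rw [card_insert_of_notMem h1.1, (hR i hi).2.2]
    · intro i hi
      exact (Fam_NZ (hI i (hJI i hi)) (hR i hi).1).2
    · intro i hi v hv hvK hNZ
      rw [mem_insert] at hvK
      push Not at hvK
      have h1 := Fam_NZ (hI i (hJI i hi)) (hR i hi).1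
      have h2 : insert v (R i) ∈ Fam f i := by
        rw [mem_Fam]
        right
        refine ⟨?_, ?_⟩
        · rw [mem_insert]; push Not
          exact ⟨hvK.1.symm, h1.1⟩
        · rw [Finset.insert_comm]; exact hNZ
      have h3 := le_rho h2 (insert_subset hv (hR i hi).2.1)
      rw [card_insert_of_notMem hvK.2, (hR i hi).2.2, (mem_filter.mp (hJC hi)).2.1] at h3
      omega
    · intro i hi
      exact (not_le.mp (mem_filter.mp (hJC hi)).2.2).le
  have hB' : (CB.card : ℝ) ≤ 2 * (((r : ℝ) + 1) * (TT r + 1)) * (BB d L r * 13) := by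
    have h4 : (CB.card : ℝ) ≤ 2 * (((r : ℝ) + 1) * (TT r + 1)) * J.card := by exact_mod_cast hcard
    refine h4.trans ?_
    apply mul_le_mul_of_nonneg_left hB
    positivity
  have hTT : (104 : ℝ) * (r + 1) + 26 * ((r + 1) * (TT r + 1)) ≤ 208 * (r + 1) ^ 4 := by
    exact_mod_cast TT_le r
  have hBB := BB_nonneg d L r
  calc ((I.filter (fun i => rho (Fam f) I i = r)).card : ℝ) ≤ ((CA ∪ CB).card : ℝ) := by
        exact_mod_cast card_le_card hsplit
    _ ≤ CA.card + CB.card := by exact_mod_cast card_union_le _ _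
    _ ≤ BB d L r * (104 * (r + 1)) + 2 * (((r : ℝ) + 1) * (TT r + 1)) * (BB d L r * 13) :=
        add_le_add hA hB'
    _ = (104 * (r + 1) + 26 * ((r + 1) * (TT r + 1))) * BB d L r := by ring
    _ ≤ _ := mul_le_mul_of_nonneg_right hTT hBB

lemma degree_sum {f : Finset α → ℝ} (hf : Mono f) {d L : ℕ} (hd : ∀ M, NZ M f → M.card ≤ d)
    (hd1 : 1 ≤ d) (hL : 1 ≤ L) (V : Finset α) (hV : ∀ i ∈ V, NZ {i} f) :
    (V.card : ℝ) ≤ 416 * ∑ r ∈ range d, ((r : ℝ) + 1) ^ 4 * BB d L r := by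
  classical
  obtain ⟨I, hIV, hVI, hsel⟩ := selection V (Fam f) (fun i => by rw [mem_Fam]; left; rfl)
  have hrho : ∀ i ∈ I, rho (Fam f) I i ∈ range d := by
    intro i hi
    obtain ⟨R, hR, _, hRc⟩ := exists_rho (F := Fam f) I (i := i) (by rw [mem_Fam]; left; rfl)
    have h1 := Fam_NZ (hV i (hIV hi)) hR
    have h2 := hd _ h1.2
    rw [card_insert_of_notMem h1.1] at h2
    rw [mem_range]
    omega
  have h1 : (I.card : ℝ) ≤ ∑ r ∈ range d, 208 * ((r : ℝ) + 1) ^ 4 * BB d L r := by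
    rw [card_eq_sum_card_fiberwise hrho]
    push_cast
    apply sum_le_sum
    intro r _
    exact class_bound hf hd hd1 hL (fun i hi => hV i (hIV hi)) (hsel r)
  have h2 : (V.card : ℝ) ≤ 2 * I.card := by exact_mod_cast hVI
  calc (V.card : ℝ) ≤ 2 * I.card := h2
    _ ≤ 2 * ∑ r ∈ range d, 208 * ((r : ℝ) + 1) ^ 4 * BB d L r := by linarith
    _ = _ := by
      rw [mul_sum, mul_sum]
      apply sum_congr rfl
      intro r _; ring

/-- degree bound, large degree -/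
lemma degree_large : ∃ C : ℝ, 0 ≤ C ∧ ∀ (n : ℕ) (f : Finset (Fin n) → ℝ), Mono f → ∀ d : ℕ, 8 ≤ d →
    (∀ M, NZ M f → M.card ≤ d) → ∀ V : Finset (Fin n), (∀ i ∈ V, NZ {i} f) →
    (V.card : ℝ) * Real.sqrt d ≤ C * 2 ^ d := by
  obtain ⟨S, hS0, hS⟩ := exists_S
  obtain ⟨S', hS'0, hS'⟩ := exists_S'
  refine ⟨416 * 60 * (S + 15 ^ 5 * S'), by positivity, ?_⟩
  intro n f hf d hd8 hd V hV
  set L := d / 8 with hL
  have hL1 : 1 ≤ L := by omega
  have hL8 : 8 * L ≤ d := by omega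
  have hL15 : d ≤ 15 * L := by omega
  have h1 := degree_sum hf (L := L) hd (by omega) hL1 V hV
  have hsq : 0 ≤ Real.sqrt d := Real.sqrt_nonneg _
  have h2 : ∑ r ∈ range d, ((r : ℝ) + 1) ^ 4 * (1 / 4) ^ L ≤ 15 ^ 5 * S' := by
    have h3 : ∀ r ∈ range d, ((r : ℝ) + 1) ^ 4 * (1 / 4) ^ L ≤ (15 * L : ℝ) ^ 4 * (1 / 4) ^ L := by
      intro r hr
      have h4 : (r : ℝ) + 1 ≤ 15 * L := by
        have : r + 1 ≤ 15 * L := by have := mem_range.mp hr; omega
        exact_mod_cast this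
      apply mul_le_mul_of_nonneg_right _ (by positivity)
      apply pow_le_pow_left₀ (by positivity) h4
    calc ∑ r ∈ range d, ((r : ℝ) + 1) ^ 4 * (1 / 4) ^ L
        ≤ ∑ _r ∈ range d, (15 * L : ℝ) ^ 4 * (1 / 4) ^ L := sum_le_sum h3
      _ = d * ((15 * L : ℝ) ^ 4 * (1 / 4) ^ L) := by
          rw [sum_const, card_range, nsmul_eq_mul]
      _ ≤ (15 * L) * ((15 * L : ℝ) ^ 4 * (1 / 4) ^ L) := by
          apply mul_le_mul_of_nonneg_right _ (by positivity)
          exact_mod_cast hL15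
      _ = 15 ^ 5 * ((L : ℝ) ^ 5 * (1 / 4) ^ L) := by ring
      _ ≤ 15 ^ 5 * S' := by
          apply mul_le_mul_of_nonneg_left (hS' L) (by norm_num)
  calc (V.card : ℝ) * Real.sqrt d
      ≤ (416 * ∑ r ∈ range d, ((r : ℝ) + 1) ^ 4 * BB d L r) * Real.sqrt d :=
        mul_le_mul_of_nonneg_right h1 hsq
    _ = 416 * ∑ r ∈ range d, ((r : ℝ) + 1) ^ 4 * (BB d L r * Real.sqrt d) := by
        rw [mul_assoc, sum_mul]
        congr 1
        apply sum_congr rfl
        intro r _; ring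
    _ ≤ 416 * ∑ r ∈ range d, ((r : ℝ) + 1) ^ 4
          * (60 * 2 ^ d * ((1 / Real.sqrt 2) ^ r + (1 / 4) ^ L)) := by
        apply mul_le_mul_of_nonneg_left _ (by norm_num)
        apply sum_le_sum
        intro r _
        apply mul_le_mul_of_nonneg_left (BB_sqrt hL8 hL15 hL1 r) (by positivity)
    _ = 416 * 60 * 2 ^ d * (∑ r ∈ range d, ((r : ℝ) + 1) ^ 4 * (1 / Real.sqrt 2) ^ r
          + ∑ r ∈ range d, ((r : ℝ) + 1) ^ 4 * (1 / 4) ^ L) := by
        rw [← sum_add_distrib, mul_sum, mul_sum]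
        apply sum_congr rfl
        intro r _; ring
    _ ≤ 416 * 60 * 2 ^ d * (S + 15 ^ 5 * S') := by
        apply mul_le_mul_of_nonneg_left _ (by positivity)
        exact add_le_add (hS d) h2
    _ = _ := by ring

/-- degree bound -/
theorem degree_bound : ∃ C : ℝ, 0 ≤ C ∧ ∀ (n : ℕ) (f : Finset (Fin n) → ℝ), Mono f → ∀ d : ℕ,
    (∀ M, NZ M f → M.card ≤ d) → ∀ V : Finset (Fin n), (∀ i ∈ V, NZ {i} f) →
    (V.card : ℝ) * Real.sqrt d ≤ C * 2 ^ d := by
  obtain ⟨C, hC0, hC⟩ := degree_large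
  refine ⟨256 * C, by positivity, ?_⟩
  intro n f hf d hd V hV
  rcases le_or_gt 8 d with h | h
  · refine (hC n f hf d h hd V hV).trans ?_
    have : 0 ≤ C * 2 ^ d := by positivity
    linarith
  · have h1 := hC n f hf 8 (le_refl 8) (fun M hM => (hd M hM).trans h.le) V hV
    have h2 : Real.sqrt d ≤ Real.sqrt ((8 : ℕ) : ℝ) := by
      apply Real.sqrt_le_sqrt
      exact_mod_cast h.le
    have h3 : (1 : ℝ) ≤ 2 ^ d := one_le_pow₀ (by norm_num)
    calc (V.card : ℝ) * Real.sqrt d ≤ V.card * Real.sqrt ((8 : ℕ) : ℝ) :=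
          mul_le_mul_of_nonneg_left h2 (Nat.cast_nonneg _)
      _ ≤ C * 2 ^ 8 := h1
      _ = 256 * C * 1 := by ring
      _ ≤ 256 * C * 2 ^ d := mul_le_mul_of_nonneg_left h3 (by positivity)

end Pool.Agent.Helper29_Rel
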