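import Mathlib
import Pool.Agent.Helper29_Rel.Select
import Pool.Agent.Helper29_Rel.Terms

/-!
The sensitivity bound.
-/

set_option autoImplicit false
set_option linter.unusedSectionVars false

namespace Pool.Agent.Helper29_Rel

open Finset

variable {α : Type*} [DecidableEq α]

/-- Bollobas inequality -/
lemma bollobas {ι : Type*} (X : Finset α) : ∀ (J : Finset ι) (A B : ι → Finset α),
    (∀ i ∈ J, A i ⊆ X) → (∀ i ∈ J, B i ⊆ X) → (∀ i ∈ J, Disjoint (A i) (B i)) →
    (∀ i ∈ J, ∀ j ∈ J, i ≠ j → ¬ Disjoint (A i) (B j)) →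
    ∑ i ∈ J, (1 : ℝ) / (((A i).card + (B i).card).choose (A i).card) ≤ 1 := by
  classical
  induction X using Finset.strongInduction with
  | H X ih =>
    intro J A B hA hB hAB hcross
    have hterm : ∀ a b : ℕ, (1 : ℝ) / ((a + b).choose a) ≤ 1 := by
      intro a b
      have h1 : (1 : ℝ) ≤ ((a + b).choose a : ℝ) := by
        exact_mod_cast Nat.choose_pos (Nat.le_add_right a b)
      rw [div_le_one (by linarith)]; exact h1
    by_cases hb0 : ∃ i ∈ J, (B i).card = 0
    · obtain ⟨i, hi, hbi⟩ := hb0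
      rw [card_eq_zero] at hbi
      have hJ : J = {i} := by
        ext j
        rw [mem_singleton]
        constructor
        · intro hj
          by_contra hji
          apply hcross j hj i hi hji
          rw [hbi]; exact disjoint_empty_right _
        · rintro rfl; exact hi
      rw [hJ, sum_singleton]
      exact hterm _ _
    · push Not at hb0
      rcases J.eq_empty_or_nonempty with hJ | hJ
      · rw [hJ, sum_empty]; norm_num
      · have hXpos : 0 < X.card := by
          obtain ⟨i, hi⟩ := hJ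
          have h1 := hb0 i hi
          have h2 := card_le_card (hB i hi)
          omega
        have hXpos' : (0 : ℝ) < X.card := by exact_mod_cast hXpos
        -- inequality for each x
        have hx : ∀ x ∈ X, ∑ i ∈ J.filter (fun i => x ∉ A i),
            (1 : ℝ) / (((A i).card + ((B i).erase x).card).choose (A i).card) ≤ 1 := by
          intro x hx
          apply ih (X.erase x) (erase_ssubset hx) (J.filter (fun i => x ∉ A i)) A
            (fun i => (B i).erase x)
          · intro i hi
            rw [mem_filter] at hi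
            intro v hv
            rw [mem_erase]
            exact ⟨fun h => hi.2 (h ▸ hv), hA i hi.1 hv⟩
          · intro i hi
            rw [mem_filter] at hi
            exact erase_subset_erase x (hB i hi.1)
          · intro i hi
            rw [mem_filter] at hi
            exact disjoint_of_subset_right (erase_subset x _) (hAB i hi.1)
          · intro i hi j hj hij hdis
            rw [mem_filter] at hi hj
            apply hcross i hi.1 j hj.1 hij
            rw [disjoint_left] at hdis ⊢
            intro v hvA hvB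
            apply hdis hvA
            rw [mem_erase]
            exact ⟨fun h => hi.2 (h ▸ hvA), hvB⟩
        have hsum : ∑ x ∈ X, ∑ i ∈ J.filter (fun i => x ∉ A i),
            (1 : ℝ) / (((A i).card + ((B i).erase x).card).choose (A i).card) ≤ X.card := by
          calc _ ≤ ∑ _x ∈ X, (1 : ℝ) := sum_le_sum hx
            _ = X.card := by rw [sum_const, nsmul_eq_mul, mul_one]
        have hswap : ∑ x ∈ X, ∑ i ∈ J.filter (fun i => x ∉ A i),
            (1 : ℝ) / (((A i).card + ((B i).erase x).card).choose (A i).card)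
            = ∑ i ∈ J, ∑ x ∈ X.filter (fun x => x ∉ A i),
              (1 : ℝ) / (((A i).card + ((B i).erase x).card).choose (A i).card) := by
          simp only [sum_filter]
          rw [sum_comm]
        have hi : ∀ i ∈ J, ∑ x ∈ X.filter (fun x => x ∉ A i),
              (1 : ℝ) / (((A i).card + ((B i).erase x).card).choose (A i).card)
              = X.card * ((1 : ℝ) / (((A i).card + (B i).card).choose (A i).card)) := by
          intro i hi
          have hbpos : 0 < (B i).card := Nat.pos_of_ne_zero (hb0 i hi)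
          have hBsub : B i ⊆ X.filter (fun x => x ∉ A i) := by
            intro x hx
            rw [mem_filter]
            exact ⟨hB i hi hx, fun h => disjoint_left.mp (hAB i hi) h hx⟩
          rw [← sum_sdiff hBsub]
          have e1 : ∑ x ∈ X.filter (fun x => x ∉ A i) \ B i,
              (1 : ℝ) / (((A i).card + ((B i).erase x).card).choose (A i).card)
              = ((X.filter (fun x => x ∉ A i) \ B i).card : ℝ)
                * ((1 : ℝ) / (((A i).card + (B i).card).choose (A i).card)) := by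
            rw [← nsmul_eq_mul, ← sum_const]
            apply sum_congr rfl
            intro x hx
            rw [mem_sdiff] at hx
            rw [erase_eq_of_notMem hx.2]
          have e2 : ∑ x ∈ B i,
              (1 : ℝ) / (((A i).card + ((B i).erase x).card).choose (A i).card)
              = ((A i).card + (B i).card) * ((1 : ℝ) / (((A i).card + (B i).card).choose (A i).card)) := by
            have e3 : ∀ x ∈ B i,
                (1 : ℝ) / (((A i).card + ((B i).erase x).card).choose (A i).card)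
                = (1 : ℝ) / (((A i).card + ((B i).card - 1)).choose (A i).card) := by
              intro x hx
              rw [card_erase_of_mem hx]
            rw [sum_congr rfl e3, sum_const, nsmul_eq_mul]
            obtain ⟨b, hb⟩ : ∃ b, (B i).card = b + 1 := ⟨(B i).card - 1, by omega⟩
            rw [hb]
            set a := (A i).card with ha
            have e4 : (a + (b + 1 - 1)) = a + b := by omega
            rw [e4]
            have e5 : (a + b + 1) * (a + b).choose a = (a + (b + 1)).choose a * (b + 1) := by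
              have h5 := Nat.add_one_mul_choose_eq (a + b) b
              have h6 : (a + b).choose b = (a + b).choose a := by
                rw [Nat.choose_symm_add]
              have h7 : (a + b + 1).choose (b + 1) = (a + (b + 1)).choose a :=
                (Nat.choose_symm_add (a := a) (b := b + 1)).symm
              rw [h6, h7] at h5
              exact h5
            have e6 : ((a : ℝ) + b + 1) * (a + b).choose a
                = (a + (b + 1)).choose a * ((b : ℝ) + 1) := by exact_mod_cast e5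
            have p1 : (0 : ℝ) < (a + b).choose a := by
              exact_mod_cast Nat.choose_pos (Nat.le_add_right a b)
            have p2 : (0 : ℝ) < (a + (b + 1)).choose a := by
              exact_mod_cast Nat.choose_pos (Nat.le_add_right a (b + 1))
            push_cast
            rw [mul_one_div, mul_one_div, div_eq_div_iff p1.ne' p2.ne']
            linarith
          rw [e1, e2, ← add_mul]
          congr 1
          have h8 : (X.filter (fun x => x ∉ A i) \ B i).card + (B i).card
              = (X.filter (fun x => x ∉ A i)).card := card_sdiff_add_card_eq_card hBsub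
          have h9 : (X.filter (fun x => x ∉ A i)).card + (A i).card = X.card := by
            have h10 : X.filter (fun x => x ∉ A i) = X \ A i := by
              ext x; simp [mem_sdiff]
            rw [h10]
            exact card_sdiff_add_card_eq_card (hA i hi)
          have h11 : (((X.filter (fun x => x ∉ A i) \ B i).card : ℕ) : ℝ) + (B i).card + (A i).card
              = X.card := by
            rw [← h9, ← h8]; push_cast; ring
          linarith
        rw [hswap, sum_congr rfl hi, ← mul_sum] at hsum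
        have h12 : (X.card : ℝ) * (∑ i ∈ J, (1 : ℝ) / (((A i).card + (B i).card).choose (A i).card))
            ≤ X.card * 1 := by rw [mul_one]; exact hsum
        exact le_of_mul_le_mul_left h12 hXpos'

lemma central_even (n : ℕ) : (n.centralBinom : ℝ) ^ 2 * (2 * n + 1) ≤ 4 ^ (2 * n) := by
  induction n with
  | zero => simp
  | succ n ih =>
    have h1 := Nat.succ_mul_centralBinom_succ n
    have h2 : ((n : ℝ) + 1) * (n + 1).centralBinom = 2 * (2 * n + 1) * n.centralBinom := by
      exact_mod_cast h1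
    have h3 : ((n + 1).centralBinom : ℝ) = 2 * (2 * n + 1) * n.centralBinom / (n + 1) := by
      rw [eq_div_iff (by positivity)]; linarith
    rw [h3]
    have h4 : (4 : ℝ) ^ (2 * (n + 1)) = 16 * 4 ^ (2 * n) := by
      rw [show 2 * (n + 1) = 2 * n + 2 by ring, pow_add]; ring
    rw [h4]
    push_cast
    have h5 : (2 * (2 * (n : ℝ) + 1) * n.centralBinom / (n + 1)) ^ 2 * (2 * (n + 1) + 1)
        = (n.centralBinom : ℝ) ^ 2 * (2 * n + 1) * (4 * (2 * n + 1) * (2 * n + 3) / (n + 1) ^ 2) := by
      field_simp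
      ring
    rw [h5]
    have h6 : 4 * (2 * (n : ℝ) + 1) * (2 * n + 3) / (n + 1) ^ 2 ≤ 16 := by
      rw [div_le_iff₀ (by positivity)]
      nlinarith
    have h7 : 0 ≤ (n.centralBinom : ℝ) ^ 2 * (2 * n + 1) := by positivity
    calc _ ≤ (n.centralBinom : ℝ) ^ 2 * (2 * n + 1) * 16 := mul_le_mul_of_nonneg_left h6 h7
      _ ≤ 4 ^ (2 * n) * 16 := by linarith
      _ = _ := by ring

lemma choose_bound (N a : ℕ) : ((N.choose a : ℕ) : ℝ) ^ 2 * (N + 1) ≤ 4 ^ N := by
  have h1 : (N.choose a : ℝ) ≤ N.choose (N / 2) := by exact_mod_cast Nat.choose_le_middle a N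
  have h2 : ((N.choose a : ℕ) : ℝ) ^ 2 * (N + 1) ≤ ((N.choose (N / 2) : ℕ) : ℝ) ^ 2 * (N + 1) := by
    apply mul_le_mul_of_nonneg_right _ (by positivity)
    exact pow_le_pow_left₀ (by positivity) h1 2
  refine h2.trans ?_
  rcases Nat.even_or_odd' N with ⟨n, hn | hn⟩
  · have h3 : N / 2 = n := by omega
    rw [h3, hn]
    have h4 := central_even n
    rw [Nat.centralBinom] at h4
    push_cast
    exact h4
  · have h3 : N / 2 = n := by omega
    rw [h3, hn]
    have h4 := central_even (n + 1)
    have h5 : ((n + 1).centralBinom : ℝ) = 2 * (2 * n + 1).choose n := by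
      have h6 : (n + 1).centralBinom = 2 * (2 * n + 1).choose n := by
        rw [Nat.centralBinom, show 2 * (n + 1) = (2 * n + 1) + 1 by ring, Nat.choose_succ_succ]
        have h7 : (2 * n + 1).choose (n + 1) = (2 * n + 1).choose n := by
          rw [← Nat.choose_symm_half]
        rw [h7]; ring
      exact_mod_cast h6
    rw [h5] at h4
    have h8 : (4 : ℝ) ^ (2 * (n + 1)) = 4 * 4 ^ (2 * n + 1) := by
      rw [show 2 * (n + 1) = (2 * n + 1) + 1 by ring, pow_succ]; ring
    rw [h8] at h4
    push_cast at h4 ⊢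
    have h9 : (0 : ℝ) ≤ ((2 * n + 1).choose n : ℝ) ^ 2 := by positivity
    nlinarith

/-- minterm/maxterm pair through a relevant variable -/
lemma exists_pair [Fintype α] {f : Finset α → ℝ} (hf : Mono f) {s : ℕ}
    (hs : ∀ (x S : Finset α), (∀ i ∈ S, del i f x ≠ 0) → S.card ≤ s) {i : α}
    (hi : ∃ x, del i f x = 1) :
    ∃ A B : Finset α, i ∈ A ∧ i ∈ B ∧ (∀ v ∈ A, v ∈ B → v = i) ∧ A.card ≤ s ∧ B.card ≤ s ∧
      f A = 1 ∧ f (univ \ B) = 0 := by
  obtain ⟨x, hx⟩ := hi
  rw [hf.del_eq_one] at hx
  obtain ⟨hx1, hx0⟩ := hx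
  obtain ⟨A, hAY, hA1, hA2⟩ := exists_minterm hf ∅ (insert i x) (by rw [empty_union]; exact hx1)
  rw [empty_union] at hA1
  simp only [empty_union] at hA2
  have hWY : (univ : Finset α) \ insert i (univ \ x) = x.erase i := by
    ext v
    simp only [mem_sdiff, mem_insert, mem_erase, mem_univ, true_and]
    tauto
  obtain ⟨B, hBY, hB1, hB2⟩ := exists_maxterm hf univ (insert i (univ \ x)) (by rw [hWY]; exact hx0)
  have hiA : i ∈ A := by
    by_contra hiA
    have hsub : A ⊆ x.erase i := by
      intro v hv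
      rw [mem_erase]
      have := hAY hv
      rw [mem_insert] at this
      have hvi : v ≠ i := fun h => hiA (h ▸ hv)
      exact ⟨hvi, this.resolve_left hvi⟩
    have := hf.zero_of_subset hsub hx0
    rw [hA1] at this
    norm_num at this
  have hiB : i ∈ B := by
    by_contra hiB
    have hsub : insert i x ⊆ univ \ B := by
      intro v hv
      rw [mem_insert] at hv
      rw [mem_sdiff]
      refine ⟨mem_univ v, ?_⟩
      rcases hv with hv | hv
      · rw [hv]; exact hiB
      · intro hvB
        have := hBY hvB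
        rw [mem_insert, mem_sdiff] at this
        rcases this with h | h
        · rw [h] at hvB; exact hiB hvB
        · exact h.2 hv
    have := hf.one_of_subset hsub hx1
    rw [hB1] at this
    norm_num at this
  refine ⟨A, B, hiA, hiB, ?_, ?_, ?_, hA1, hB1⟩
  · intro v hvA hvB
    have h1 := hAY hvA
    have h2 := hBY hvB
    rw [mem_insert] at h1
    rw [mem_insert, mem_sdiff] at h2
    tauto
  · apply hs A A
    intro a ha
    rw [del, insert_eq_of_mem ha, hA1, hA2 (A.erase a) (erase_ssubset ha)]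
    norm_num
  · apply hs (univ \ B) B
    intro b hb
    have h1 : insert b (univ \ B) = univ \ (B.erase b) := by
      ext v
      simp only [mem_insert, mem_sdiff, mem_univ, true_and, mem_erase]
      tauto
    have h2 : (univ \ B).erase b = univ \ B := by
      apply erase_eq_of_notMem
      rw [mem_sdiff]
      exact fun h => h.2 hb
    rw [del, h1, h2, hB1, hB2 (B.erase b) (erase_ssubset hb)]
    norm_num

lemma sens_class [Fintype α] {f : Finset α → ℝ} (hf : Mono f) {s r : ℕ} {I J : Finset α}
    {A B R : α → Finset α} (hJI : J ⊆ I)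
    (hiA : ∀ i ∈ J, i ∈ A i) (hiB : ∀ i ∈ J, i ∈ B i) (hAB : ∀ i ∈ J, ∀ v ∈ A i, v ∈ B i → v = i)
    (hAs : ∀ i ∈ J, (A i).card ≤ s) (hBs : ∀ i ∈ J, (B i).card ≤ s)
    (hA1 : ∀ i ∈ J, f (A i) = 1) (hB0 : ∀ i ∈ J, f (univ \ B i) = 0)
    (hR : ∀ i ∈ J, R i = ((A i ∪ B i).erase i) ∩ I) (hRc : ∀ i ∈ J, (R i).card = r)
    (hdis : ∀ i ∈ J, ∀ j ∈ J, i ≠ j → Disjoint (insert i (R i)) (insert j (R j))) :
    (J.card : ℝ) * Real.sqrt s ≤ ((r : ℝ) + 1) * (4 ^ s * (1 / 2) ^ r) := by
  classical
  rcases J.eq_empty_or_nonempty with hJ | hJ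
  · rw [hJ]; simp; positivity
  have hKI : ∀ i ∈ J, (A i ∪ B i) ∩ I = insert i (R i) := by
    intro i hi
    rw [hR i hi]
    ext v
    simp only [mem_inter, mem_union, mem_insert, mem_erase]
    by_cases hv : v = i
    · subst hv
      simp [hiA v hi, hJI hi]
    · simp [hv]
  have hcard : ∀ i ∈ J, (A i \ I).card + (B i \ I).card + (r + 2) ≤ 2 * s := by
    intro i hi
    have hiR : i ∉ R i := by
      rw [hR i hi, mem_inter, mem_erase]
      exact fun h => h.1.1 rfl
    have h1 : ((A i ∪ B i) ∩ I).card = r + 1 := by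
      rw [hKI i hi, card_insert_of_notMem hiR, hRc i hi]
    have h2 : ((A i ∪ B i) \ I).card + ((A i ∪ B i) ∩ I).card = (A i ∪ B i).card :=
      card_sdiff_add_card_inter _ _
    have h3 : (A i ∪ B i).card + (A i ∩ B i).card = (A i).card + (B i).card :=
      card_union_add_card_inter _ _
    have h4 : (A i ∩ B i).card = 1 := by
      rw [card_eq_one]
      refine ⟨i, ?_⟩
      ext v
      rw [mem_inter, mem_singleton]
      constructor
      · rintro ⟨hvA, hvB⟩; exact hAB i hi v hvA hvB
      · rintro rfl; exact ⟨hiA v hi, hiB v hi⟩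
    have h5 : (A i \ I).card + (B i \ I).card = ((A i ∪ B i) \ I).card := by
      rw [union_sdiff_distrib, card_union_of_disjoint]
      rw [disjoint_left]
      intro v hvA hvB
      rw [mem_sdiff] at hvA hvB
      have := hAB i hi v hvA.1 hvB.1
      rw [this] at hvA
      exact hvA.2 (hJI hi)
    have h6 := hAs i hi
    have h7 := hBs i hi
    omega
  have hB := bollobas (univ : Finset α) J (fun i => A i \ I) (fun i => B i \ I)
    (fun i _ => subset_univ _) (fun i _ => subset_univ _)
    (fun i hi => by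
      rw [disjoint_left]
      intro v hvA hvB
      rw [mem_sdiff] at hvA hvB
      have := hAB i hi v hvA.1 hvB.1
      rw [this] at hvA
      exact hvA.2 (hJI hi))
    (fun i hi j hj hij hdis' => by
      have h1 : ¬ (A i ⊆ univ \ B j) := by
        intro h
        have h2 := hf.one_of_subset h (hA1 i hi)
        rw [hB0 j hj] at h2
        norm_num at h2
      rw [not_subset] at h1
      obtain ⟨v, hvA, hvB⟩ := h1
      rw [mem_sdiff] at hvB
      push Not at hvB
      have hvB' := hvB (mem_univ v)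
      by_cases hvI : v ∈ I
      · have h3 : v ∈ insert i (R i) := by
          rw [← hKI i hi, mem_inter, mem_union]; exact ⟨Or.inl hvA, hvI⟩
        have h4 : v ∈ insert j (R j) := by
          rw [← hKI j hj, mem_inter, mem_union]; exact ⟨Or.inr hvB', hvI⟩
        exact disjoint_left.mp (hdis i hi j hj hij) h3 h4
      · rw [disjoint_left] at hdis'
        exact hdis' (mem_sdiff.mpr ⟨hvA, hvI⟩) (mem_sdiff.mpr ⟨hvB', hvI⟩))
  obtain ⟨N, hN⟩ : ∃ N, 2 * s = N + (r + 2) := by
    obtain ⟨i, hi⟩ := hJ
    have := hcard i hi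
    exact ⟨2 * s - (r + 2), by omega⟩
  have hNs : (0 : ℝ) < Real.sqrt ((N : ℝ) + 1) := Real.sqrt_pos.mpr (by positivity)
  have hterm : ∀ i ∈ J, Real.sqrt ((N : ℝ) + 1) / 2 ^ N
      ≤ (1 : ℝ) / (((A i \ I).card + (B i \ I).card).choose (A i \ I).card) := by
    intro i hi
    have h1 := hcard i hi
    set a := (A i \ I).card
    set b := (B i \ I).card
    have h2 : a + b ≤ N := by omega
    have h3 : (a + b).choose a ≤ N.choose a := Nat.choose_le_choose a h2
    have h4 := choose_bound N a
    have h5 : (N.choose a : ℝ) * Real.sqrt ((N : ℝ) + 1) ≤ 2 ^ N := by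
      have h6 : ((N.choose a : ℝ) * Real.sqrt ((N : ℝ) + 1)) ^ 2 ≤ ((2 : ℝ) ^ N) ^ 2 := by
        rw [mul_pow, Real.sq_sqrt (by positivity), ← pow_mul, mul_comm N 2, pow_mul]
        norm_num
        exact h4
      exact (pow_le_pow_iff_left₀ (by positivity) (by positivity) two_ne_zero).mp h6
    have h7 : (0 : ℝ) < (a + b).choose a := by
      exact_mod_cast Nat.choose_pos (Nat.le_add_right a b)
    rw [div_le_div_iff₀ (by positivity) h7, one_mul]
    have h8 : ((a + b).choose a : ℝ) ≤ N.choose a := by exact_mod_cast h3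
    nlinarith
  have h9 : (J.card : ℝ) * (Real.sqrt ((N : ℝ) + 1) / 2 ^ N) ≤ 1 := by
    calc (J.card : ℝ) * (Real.sqrt ((N : ℝ) + 1) / 2 ^ N)
        = ∑ _i ∈ J, Real.sqrt ((N : ℝ) + 1) / 2 ^ N := by rw [sum_const, nsmul_eq_mul]
      _ ≤ _ := sum_le_sum hterm
      _ ≤ 1 := hB
  have h10 : (J.card : ℝ) * Real.sqrt ((N : ℝ) + 1) ≤ 2 ^ N := by
    rw [mul_div_assoc', div_le_one (by positivity)] at h9
    exact h9
  have hsN : (s : ℝ) ≤ ((r : ℝ) + 1) ^ 2 * (N + 1) := by
    have h11 : (2 : ℝ) * s = N + (r + 2) := by exact_mod_cast hN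
    have hr0 : (0 : ℝ) ≤ r := Nat.cast_nonneg r
    have hN0 : (0 : ℝ) ≤ N := Nat.cast_nonneg N
    nlinarith [mul_nonneg hr0 hN0, mul_nonneg (mul_nonneg hr0 hr0) hN0, sq_nonneg (r : ℝ)]
  have hsq : Real.sqrt s ≤ ((r : ℝ) + 1) * Real.sqrt ((N : ℝ) + 1) := by
    calc Real.sqrt s ≤ Real.sqrt (((r : ℝ) + 1) ^ 2 * (N + 1)) := Real.sqrt_le_sqrt hsN
      _ = _ := by rw [Real.sqrt_mul (by positivity), Real.sqrt_sq (by positivity)]
  have h2N : (2 : ℝ) ^ N ≤ 4 ^ s * (1 / 2) ^ r := by
    have h12 : (4 : ℝ) ^ s = 2 ^ N * 2 ^ r * 4 := by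
      calc (4 : ℝ) ^ s = 2 ^ (2 * s) := by rw [pow_mul]; norm_num
        _ = 2 ^ (N + (r + 2)) := by rw [hN]
        _ = _ := by rw [pow_add, pow_add]; ring
    have h13 : (2 : ℝ) ^ r * (1 / 2) ^ r = 1 := by rw [← mul_pow]; norm_num
    calc (2 : ℝ) ^ N ≤ 4 * 2 ^ N := by
          have : (0 : ℝ) < 2 ^ N := by positivity
          linarith
      _ = (2 ^ N * 2 ^ r * 4) * (1 / 2) ^ r := by
          calc (4 : ℝ) * 2 ^ N = 4 * 2 ^ N * (2 ^ r * (1 / 2) ^ r) := by rw [h13, mul_one]
            _ = _ := by ring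
      _ = _ := by rw [h12]
  calc (J.card : ℝ) * Real.sqrt s ≤ J.card * (((r : ℝ) + 1) * Real.sqrt ((N : ℝ) + 1)) :=
        mul_le_mul_of_nonneg_left hsq (Nat.cast_nonneg _)
    _ = ((r : ℝ) + 1) * (J.card * Real.sqrt ((N : ℝ) + 1)) := by ring
    _ ≤ ((r : ℝ) + 1) * 2 ^ N := mul_le_mul_of_nonneg_left h10 (by positivity)
    _ ≤ _ := mul_le_mul_of_nonneg_left h2N (by positivity)

lemma exists_S5 : ∃ S : ℝ, 0 ≤ S ∧ ∀ d : ℕ,
    ∑ r ∈ range d, ((r : ℝ) + 1) ^ 5 * (1 / 2) ^ r ≤ S := by
  have h1 : Summable (fun n : ℕ => (n : ℝ) ^ 5 * (1 / 2 : ℝ) ^ n) :=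
    summable_pow_mul_geometric_of_norm_lt_one 5 (by
      rw [Real.norm_eq_abs, abs_of_pos (by norm_num)]; norm_num)
  have h2 : Summable (fun n : ℕ => ((n + 1 : ℕ) : ℝ) ^ 5 * (1 / 2 : ℝ) ^ (n + 1)) :=
    (summable_nat_add_iff 1).mpr h1
  have h3 : Summable (fun n : ℕ => ((n : ℝ) + 1) ^ 5 * (1 / 2 : ℝ) ^ n) := by
    have h4 := h2.mul_left 2
    refine h4.congr ?_
    intro n
    push_cast
    rw [pow_succ]
    ring
  refine ⟨∑' n : ℕ, ((n : ℝ) + 1) ^ 5 * (1 / 2 : ℝ) ^ n, tsum_nonneg (fun n => by positivity), ?_⟩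
  intro d
  exact h3.sum_le_tsum _ (fun n _ => by positivity)

lemma TT_le' (r : ℕ) : 2 * ((r + 1) * (TT r + 1)) * (r + 1) ≤ 8 * (r + 1) ^ 5 := by
  have h1 : TT r + 1 ≤ 4 * (r + 1) ^ 3 := by
    unfold TT
    nlinarith [Nat.zero_le (r ^ 3), Nat.zero_le (r ^ 2), Nat.zero_le r]
  calc 2 * ((r + 1) * (TT r + 1)) * (r + 1) ≤ 2 * ((r + 1) * (4 * (r + 1) ^ 3)) * (r + 1) := by
        gcongr
    _ = _ := by ring

/-- sensitivity bound -/
theorem sens_bound : ∃ C : ℝ, 0 ≤ C ∧ ∀ (n : ℕ) (f : Finset (Fin n) → ℝ), Mono f → ∀ s : ℕ,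
    (∀ (x S : Finset (Fin n)), (∀ i ∈ S, del i f x ≠ 0) → S.card ≤ s) →
    ∀ V : Finset (Fin n), (∀ i ∈ V, ∃ x, del i f x = 1) →
    (V.card : ℝ) * Real.sqrt s ≤ C * 4 ^ s := by
  obtain ⟨S, hS0, hS⟩ := exists_S5
  refine ⟨16 * S, by positivity, ?_⟩
  intro n f hf s hs V hV
  have hex := fun i (hi : i ∈ V) => exists_pair hf hs (hV i hi)
  choose! A B hiA hiB hAB hAs hBs hA1 hB0 using hex
  obtain ⟨I, hIV, hVI, hsel⟩ := selection V (fun i => ((A i ∪ B i).erase i).powerset)
    (fun i => empty_mem_powerset _)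
  set F : Fin n → Finset (Finset (Fin n)) := fun i => ((A i ∪ B i).erase i).powerset with hF
  have hrho : ∀ i ∈ I, rho F I i ∈ range (2 * s) := by
    intro i hi
    obtain ⟨R, hR, _, hRc⟩ := exists_rho (F := F) I (i := i) (empty_mem_powerset _)
    have hiV := hIV hi
    have h1 : R ⊆ (A i ∪ B i).erase i := mem_powerset.mp hR
    have h2 := card_le_card h1
    rw [card_erase_of_mem (mem_union_left _ (hiA i hiV))] at h2
    have h3 := card_union_le (A i) (B i)
    have h4 := hAs i hiV
    have h5 := hBs i hiV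
    have h6 : 0 < (A i).card := card_pos.mpr ⟨i, hiA i hiV⟩
    rw [mem_range]
    omega
  have hclass : ∀ r, ((I.filter (fun i => rho F I i = r)).card : ℝ) * Real.sqrt s
      ≤ 8 * ((r : ℝ) + 1) ^ 5 * (4 ^ s * (1 / 2) ^ r) := by
    intro r
    obtain ⟨J, hJC, R, hR, hdis, hcard⟩ := hsel r (I.filter (fun i => rho F I i = r))
      (filter_subset _ _) (fun i hi => (mem_filter.mp hi).2)
    have hJI : J ⊆ I := hJC.trans (filter_subset _ _)
    have hJV : J ⊆ V := hJI.trans hIV
    have hReq : ∀ i ∈ J, R i = ((A i ∪ B i).erase i) ∩ I := by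
      intro i hi
      obtain ⟨h1, h2, h3⟩ := hR i hi
      apply eq_of_subset_of_card_le
      · exact subset_inter (mem_powerset.mp h1) h2
      · rw [h3, ← (mem_filter.mp (hJC hi)).2]
        exact le_rho (F := F) (mem_powerset.mpr inter_subset_left) inter_subset_right
    have h1 := sens_class hf (s := s) (r := r) (I := I) (J := J) (A := A) (B := B) (R := R) hJI
      (fun i hi => hiA i (hJV hi)) (fun i hi => hiB i (hJV hi)) (fun i hi => hAB i (hJV hi))
      (fun i hi => hAs i (hJV hi)) (fun i hi => hBs i (hJV hi)) (fun i hi => hA1 i (hJV hi))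
      (fun i hi => hB0 i (hJV hi)) hReq (fun i hi => (hR i hi).2.2) hdis
    have h2 : ((I.filter (fun i => rho F I i = r)).card : ℝ)
        ≤ 2 * (((r : ℝ) + 1) * (TT r + 1)) * J.card := by exact_mod_cast hcard
    have h3 : 2 * (((r : ℝ) + 1) * (TT r + 1)) * (r + 1) ≤ 8 * (r + 1) ^ 5 := by
      exact_mod_cast TT_le' r
    calc ((I.filter (fun i => rho F I i = r)).card : ℝ) * Real.sqrt s
        ≤ (2 * (((r : ℝ) + 1) * (TT r + 1)) * J.card) * Real.sqrt s :=
          mul_le_mul_of_nonneg_right h2 (Real.sqrt_nonneg _)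
      _ = 2 * (((r : ℝ) + 1) * (TT r + 1)) * (J.card * Real.sqrt s) := by ring
      _ ≤ 2 * (((r : ℝ) + 1) * (TT r + 1)) * (((r : ℝ) + 1) * (4 ^ s * (1 / 2) ^ r)) :=
          mul_le_mul_of_nonneg_left h1 (by positivity)
      _ = (2 * (((r : ℝ) + 1) * (TT r + 1)) * (r + 1)) * (4 ^ s * (1 / 2) ^ r) := by ring
      _ ≤ _ := mul_le_mul_of_nonneg_right h3 (by positivity)
  have h1 : (I.card : ℝ) * Real.sqrt s
      ≤ ∑ r ∈ range (2 * s), 8 * ((r : ℝ) + 1) ^ 5 * (4 ^ s * (1 / 2) ^ r) := by
    rw [card_eq_sum_card_fiberwise hrho]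
    push_cast
    rw [sum_mul]
    exact sum_le_sum (fun r _ => hclass r)
  have h2 : (V.card : ℝ) ≤ 2 * I.card := by exact_mod_cast hVI
  calc (V.card : ℝ) * Real.sqrt s ≤ (2 * I.card) * Real.sqrt s :=
        mul_le_mul_of_nonneg_right h2 (Real.sqrt_nonneg _)
    _ = 2 * (I.card * Real.sqrt s) := by ring
    _ ≤ 2 * ∑ r ∈ range (2 * s), 8 * ((r : ℝ) + 1) ^ 5 * (4 ^ s * (1 / 2) ^ r) := by linarith
    _ = 16 * 4 ^ s * ∑ r ∈ range (2 * s), ((r : ℝ) + 1) ^ 5 * (1 / 2) ^ r := by
        rw [mul_sum, mul_sum]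
        apply sum_congr rfl
        intro r _; ring
    _ ≤ 16 * 4 ^ s * S := mul_le_mul_of_nonneg_left (hS _) (by positivity)
    _ = _ := by ring

end Pool.Agent.Helper29_Rel
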