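import Mathlib
import Pool.Agent.Helper29_Rel.Degree
import Pool.Agent.Helper29_Rel.Sens

/-!
Translation between functions on `Fin n → Bool` and functions on finite sets.
-/

set_option autoImplicit false
set_option linter.unusedSectionVars false

namespace Pool.Agent.Helper29_Rel

open Finset

/-- characteristic vector -/
def chi {n : ℕ} (x : Finset (Fin n)) : Fin n → Bool := fun i => decide (i ∈ x)

/-- support of a vector -/
def supp {n : ℕ} (x : Fin n → Bool) : Finset (Fin n) := univ.filter (fun i => x i = true)

lemma chi_supp {n : ℕ} (x : Fin n → Bool) : chi (supp x) = x := by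
  funext i
  unfold chi supp
  simp

lemma supp_chi {n : ℕ} (x : Finset (Fin n)) : supp (chi x) = x := by
  ext i
  unfold chi supp
  simp

lemma chi_insert {n : ℕ} (x : Finset (Fin n)) (i : Fin n) :
    chi (insert i x) = Function.update (chi x) i true := by
  funext j
  by_cases hj : j = i
  · subst hj; simp [chi]
  · rw [Function.update_of_ne hj]
    simp [chi, hj]

lemma chi_erase {n : ℕ} (x : Finset (Fin n)) (i : Fin n) :
    chi (x.erase i) = Function.update (chi x) i false := by
  funext j
  by_cases hj : j = i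
  · subst hj; simp [chi]
  · rw [Function.update_of_ne hj]
    simp [chi, hj]

/-- real-valued version of a Boolean function -/
def toF {n : ℕ} (f : (Fin n → Bool) → Bool) (x : Finset (Fin n)) : ℝ :=
  if f (chi x) then 1 else 0

lemma toF_mono {n : ℕ} {f : (Fin n → Bool) → Bool} (hf : Monotone f) : Mono (toF f) where
  val := by
    intro x
    unfold toF
    split_ifs
    · right; rfl
    · left; rfl
  mono := by
    intro x y hxy
    have h1 : chi x ≤ chi y := by
      intro i
      unfold chi
      by_cases hi : i ∈ x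
      · have := hxy hi
        simp [hi, this]
      · simp [hi]
    have h2 := hf h1
    unfold toF
    by_cases h3 : f (chi x) = true
    · have h4 : f (chi y) = true := by
        rw [h3] at h2
        exact Bool.eq_true_of_true_le h2
      rw [if_pos h3, if_pos h4]
    · rw [if_neg h3]
      split_ifs <;> norm_num

lemma toF_ne {n : ℕ} (f : (Fin n → Bool) → Bool) (x y : Finset (Fin n)) :
    toF f x ≠ toF f y ↔ f (chi x) ≠ f (chi y) := by
  unfold toF
  cases f (chi x) <;> cases f (chi y) <;> simp

lemma del_toF_ne {n : ℕ} (f : (Fin n → Bool) → Bool) (i : Fin n) (x : Finset (Fin n)) :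
    del i (toF f) x ≠ 0 ↔
      f (Function.update (chi x) i true) ≠ f (Function.update (chi x) i false) := by
  rw [← chi_insert, ← chi_erase, ← toF_ne]
  unfold del
  rw [sub_ne_zero]

lemma rel_del {n : ℕ} {f : (Fin n → Bool) → Bool} (hf : Monotone f) {i : Fin n}
    (hi : ∃ x : Fin n → Bool, f (Function.update x i true) ≠ f (Function.update x i false)) :
    ∃ x, del i (toF f) x = 1 := by
  obtain ⟨x, hx⟩ := hi
  refine ⟨supp x, ?_⟩
  have h1 : del i (toF f) (supp x) ≠ 0 := by
    rw [del_toF_ne, chi_supp]; exact hx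
  exact ((toF_mono hf).del_val i (supp x)).resolve_left h1

lemma rel_NZ {n : ℕ} {f : (Fin n → Bool) → Bool} (hf : Monotone f) {i : Fin n}
    (hi : ∃ x : Fin n → Bool, f (Function.update x i true) ≠ f (Function.update x i false)) :
    NZ {i} (toF f) := by
  obtain ⟨x, hx⟩ := rel_del hf hi
  refine ⟨x, ?_⟩
  rw [dd_singleton, hx]; norm_num

lemma sens_trans {n : ℕ} {f : (Fin n → Bool) → Bool} {d : ℕ}
    (h : ∀ x : Fin n → Bool,
      (univ.filter (fun i : Fin n => f (Function.update x i (!x i)) ≠ f x)).card ≤ d) :
    ∀ (x S : Finset (Fin n)), (∀ i ∈ S, del i (toF f) x ≠ 0) → S.card ≤ d := by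
  intro x S hS
  refine le_trans (card_le_card ?_) (h (chi x))
  intro i hi
  rw [mem_filter]
  refine ⟨mem_univ i, ?_⟩
  have h1 := hS i hi
  rw [del_toF_ne] at h1
  have h2 : Function.update (chi x) i (chi x i) = chi x := Function.update_eq_self i (chi x)
  cases h3 : chi x i with
  | true =>
    rw [h3] at h2
    rw [h2] at h1
    simp only [Bool.not_true]
    exact fun h => h1 h.symm
  | false =>
    rw [h3] at h2
    rw [h2] at h1
    simp only [Bool.not_false]
    exact h1

/-! degree -/

lemma complete {α : Type*} [DecidableEq α] (Y : Finset α) : ∀ h : Finset α → ℝ,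
    (∀ S, S ⊆ Y → EE (1 / 2) Y (fun x => h x * (-1) ^ (S ∩ x).card) = 0) →
    ∀ x, x ⊆ Y → h x = 0 := by
  induction Y using Finset.induction_on with
  | empty =>
    intro h hh x hx
    have h1 := hh ∅ (Subset.refl _)
    rw [EE_empty] at h1
    have h2 : x = ∅ := subset_empty.mp hx
    rw [h2]
    simpa using h1
  | insert a Y ha ih =>
    intro h hh x hx
    have h0 : ∀ S, S ⊆ Y → EE (1 / 2) Y (fun x => h x * (-1) ^ (S ∩ x).card) = 0 ∧
        EE (1 / 2) Y (fun x => h (insert a x) * (-1) ^ (S ∩ x).card) = 0 := by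
      intro S hS
      have haS : a ∉ S := fun h => ha (hS h)
      have h1 := hh S (hS.trans (subset_insert a Y))
      have h2 := hh (insert a S) (insert_subset_insert a hS)
      rw [EE_insert _ ha] at h1 h2
      have e1 : EE (1 / 2) Y (fun x => h (insert a x) * (-1) ^ (S ∩ insert a x).card)
          = EE (1 / 2) Y (fun x => h (insert a x) * (-1) ^ (S ∩ x).card) := by
        apply EE_congr
        intro x _
        rw [inter_insert_of_notMem haS]
      have e2 : EE (1 / 2) Y (fun x => h x * (-1) ^ (insert a S ∩ x).card)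
          = EE (1 / 2) Y (fun x => h x * (-1) ^ (S ∩ x).card) := by
        apply EE_congr
        intro x hx
        rw [insert_inter_of_notMem (fun h => ha (hx h))]
      have e3 : EE (1 / 2) Y (fun x => h (insert a x) * (-1) ^ (insert a S ∩ insert a x).card)
          = - EE (1 / 2) Y (fun x => h (insert a x) * (-1) ^ (S ∩ x).card) := by
        have e4 : - EE (1 / 2) Y (fun x => h (insert a x) * (-1) ^ (S ∩ x).card)
            = (-1) * EE (1 / 2) Y (fun x => h (insert a x) * (-1) ^ (S ∩ x).card) := by ring
        rw [e4, ← EE_mul_left]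
        apply EE_congr
        intro x hx
        have e5 : insert a S ∩ insert a x = insert a (S ∩ x) := by
          rw [insert_inter_distrib]
        have e6 : a ∉ S ∩ x := fun h => haS (mem_inter.mp h).1
        rw [e5, card_insert_of_notMem e6, pow_succ]
        ring
      rw [e1] at h1
      rw [e2, e3] at h2
      constructor <;> linarith
    by_cases hax : a ∈ x
    · have h1 := ih (fun x => h (insert a x)) (fun S hS => (h0 S hS).2) (x.erase a) (by
        intro v hv
        rw [mem_erase] at hv
        have := hx hv.2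
        rw [mem_insert] at this
        exact this.resolve_left hv.1)
      rw [insert_erase hax] at h1
      exact h1
    · apply ih h (fun S hS => (h0 S hS).1)
      intro v hv
      have := hx hv
      rw [mem_insert] at this
      exact this.resolve_left (fun h => hax (h ▸ hv))

lemma deg_of_fourier {n : ℕ} {F : Finset (Fin n) → ℝ} {d : ℕ}
    (h : ∀ S : Finset (Fin n), d < S.card →
      EE (1 / 2) univ (fun x => F x * (-1) ^ (S ∩ x).card) = 0) :
    ∀ M, NZ M F → M.card ≤ d := by
  intro M hM
  by_contra hcon
  push Not at hcon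
  obtain ⟨x, hx⟩ := hM
  apply hx
  rw [← dd_sdiff]
  apply complete (univ \ M) (dd M F) _ _ (sdiff_subset_sdiff (subset_univ x) (Subset.refl M))
  intro S hS
  have hSM : Disjoint S M := by
    rw [disjoint_left]
    intro v hv hvM
    exact (mem_sdiff.mp (hS hv)).2 hvM
  have h1 := h (S ∪ M) (lt_of_lt_of_le hcon (card_le_card subset_union_right))
  have hU : (univ : Finset (Fin n)) = (univ \ M) ∪ M := by
    rw [sdiff_union_of_subset (subset_univ M)]
  rw [hU, EE_union _ _ _ sdiff_disjoint] at h1
  have h2 : EE (1 / 2) (univ \ M) (fun x => dd M F x * (-1) ^ (S ∩ x).card)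
      = (2 ^ M.card * (-1) ^ M.card) * EE (1 / 2) (univ \ M)
        (fun z => EE (1 / 2) M (fun R => F (z ∪ R) * (-1) ^ ((S ∪ M) ∩ (z ∪ R)).card)) := by
    rw [← EE_mul_left]
    apply EE_congr
    intro z hz
    have hzM : Disjoint z M := by
      rw [disjoint_left]
      intro v hv hvM
      exact (mem_sdiff.mp (hz hv)).2 hvM
    rw [EE_half]
    unfold dd
    rw [sdiff_eq_self_of_disjoint hzM, sum_mul]
    have h3 : (2 : ℝ) ^ M.card * (1 / 2) ^ M.card = 1 := by rw [← mul_pow]; norm_num
    have h4 : (2 ^ M.card * (-1) ^ M.card) * ((1 / 2) ^ M.card *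
        ∑ R ∈ M.powerset, F (z ∪ R) * (-1) ^ ((S ∪ M) ∩ (z ∪ R)).card)
        = (-1 : ℝ) ^ M.card * ∑ R ∈ M.powerset, F (z ∪ R) * (-1) ^ ((S ∪ M) ∩ (z ∪ R)).card := by
      calc _ = ((2 : ℝ) ^ M.card * (1 / 2) ^ M.card) * ((-1 : ℝ) ^ M.card *
            ∑ R ∈ M.powerset, F (z ∪ R) * (-1) ^ ((S ∪ M) ∩ (z ∪ R)).card) := by ring
        _ = _ := by rw [h3, one_mul]
    rw [h4, mul_sum]
    apply sum_congr rfl
    intro R hR
    have hRM : R ⊆ M := mem_powerset.mp hR
    have h5 : (S ∪ M) ∩ (z ∪ R) = (S ∩ z) ∪ R := by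
      ext v
      simp only [mem_inter, mem_union]
      constructor
      · rintro ⟨h1 | h1, h2 | h2⟩
        · exact Or.inl ⟨h1, h2⟩
        · exact Or.inr h2
        · exact absurd h1 (disjoint_left.mp hzM h2)
        · exact Or.inr h2
      · rintro (⟨h1, h2⟩ | h1)
        · exact ⟨Or.inl h1, Or.inl h2⟩
        · exact ⟨Or.inr (hRM h1), Or.inr h1⟩
    have h6 : ((S ∪ M) ∩ (z ∪ R)).card = (S ∩ z).card + R.card := by
      rw [h5, card_union_of_disjoint]
      rw [disjoint_left]
      intro v hv hvR
      exact disjoint_left.mp hSM (mem_inter.mp hv).1 (hRM hvR)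
    have h7 : M.card = (M \ R).card + R.card := (card_sdiff_add_card_eq_card hRM).symm
    have h8 : ((-1 : ℝ) ^ R.card) * (-1) ^ R.card = 1 := by
      rw [← mul_pow]; norm_num
    rw [h6, pow_add]
    calc (-1 : ℝ) ^ (M \ R).card * F (z ∪ R) * (-1) ^ (S ∩ z).card
        = (-1 : ℝ) ^ (M \ R).card * (((-1 : ℝ) ^ R.card) * (-1) ^ R.card)
            * (F (z ∪ R) * (-1) ^ (S ∩ z).card) := by rw [h8]; ring
      _ = (-1 : ℝ) ^ ((M \ R).card + R.card)
            * (F (z ∪ R) * ((-1) ^ (S ∩ z).card * (-1) ^ R.card)) := by rw [pow_add]; ring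
      _ = _ := by rw [← h7]
  rw [h2, h1, mul_zero]

lemma fourier_trans {n : ℕ} {f : (Fin n → Bool) → Bool} {d : ℕ}
    (h : ∀ S : Finset (Fin n),
      (∑ x : Fin n → Bool, (if f x then (1 : ℤ) else 0) *
        ∏ i ∈ S, (if x i then (-1 : ℤ) else 1)) ≠ 0 → S.card ≤ d) :
    ∀ M, NZ M (toF f) → M.card ≤ d := by
  apply deg_of_fourier
  intro S hS
  have h1 : (∑ x : Fin n → Bool, (if f x then (1 : ℤ) else 0) *
        ∏ i ∈ S, (if x i then (-1 : ℤ) else 1)) = 0 := by
    by_contra hcon
    have := h S hcon
    omega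
  have h2 : (((∑ x : Fin n → Bool, (if f x then (1 : ℤ) else 0) *
        ∏ i ∈ S, (if x i then (-1 : ℤ) else 1)) : ℤ) : ℝ)
        = ∑ R ∈ (univ : Finset (Fin n)).powerset, toF f R * (-1) ^ (S ∩ R).card := by
    push_cast
    apply sum_nbij' (fun x => supp x) (fun R => chi R)
    · intro x _; rw [mem_powerset]; exact subset_univ _
    · intro R _; exact mem_univ _
    · intro x _; exact chi_supp x
    · intro R _; exact supp_chi R
    · intro x _
      unfold toF
      rw [chi_supp]
      congr 1
      rw [prod_ite, prod_const, prod_const_one, mul_one]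
      congr 2
      ext i
      simp [supp]
  rw [EE_half, ← h2, h1]
  simp

/-! decision trees -/

lemma dt_step {n : ℕ} {k : ℕ} {g : (Fin n → Bool) → Bool} {i : Fin n}
    (h0 : ∀ M, NZ M (toF (fun x => g (Function.update x i false))) → M.card ≤ k)
    (h1 : ∀ M, NZ M (toF (fun x => g (Function.update x i true))) → M.card ≤ k) :
    ∀ M, NZ M (toF g) → M.card ≤ k + 1 := by
  have e0 : ∀ x, toF (fun x => g (Function.update x i false)) x = toF g (x.erase i) := by
    intro x; unfold toF; rw [chi_erase]
  have e1 : ∀ x, toF (fun x => g (Function.update x i true)) x = toF g (insert i x) := by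
    intro x; unfold toF; rw [chi_insert]
  have aux : ∀ M x, i ∉ M → dd M (toF g) x ≠ 0 → M.card ≤ k := by
    intro M x hi hne
    by_cases hix : i ∈ x
    · apply h1 M
      refine ⟨x, ?_⟩
      have : dd M (toF (fun x => g (Function.update x i true))) x = dd M (toF g) x := by
        unfold dd
        apply sum_congr rfl
        intro R _
        rw [e1, insert_eq_of_mem]
        exact mem_union_left _ (mem_sdiff.mpr ⟨hix, hi⟩)
      rw [this]; exact hne
    · apply h0 M
      refine ⟨x, ?_⟩
      have : dd M (toF (fun x => g (Function.update x i false))) x = dd M (toF g) x := by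
        unfold dd
        apply sum_congr rfl
        intro R hR
        rw [e0, erase_eq_of_notMem]
        rw [mem_union, mem_sdiff]
        rintro (h | h)
        · exact hix h.1
        · exact hi (mem_powerset.mp hR h)
      rw [this]; exact hne
  rintro M ⟨x, hx⟩
  by_cases hi : i ∈ M
  · have hM : M = insert i (M.erase i) := (insert_erase hi).symm
    rw [hM, dd_insert i _ (notMem_erase i M)] at hx
    have h2 : (M.erase i).card ≤ k := by
      by_cases h3 : dd (M.erase i) (toF g) (insert i x) = 0
      · have h4 : dd (M.erase i) (toF g) (x.erase i) ≠ 0 := by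
          intro h5; apply hx; rw [h3, h5]; norm_num
        exact aux _ _ (notMem_erase i M) h4
      · exact aux _ _ (notMem_erase i M) h3
    rw [card_erase_of_mem hi] at h2
    omega
  · have := aux M x hi hx
    omega

lemma dt_trans {n : ℕ} {f : (Fin n → Bool) → Bool} {d : ℕ}
    (h : ∀ P : ℕ → ((Fin n → Bool) → Bool) → Prop,
          (∀ (k : ℕ) (b : Bool), P k (fun _ => b)) →
          (∀ (k : ℕ) (g : (Fin n → Bool) → Bool) (i : Fin n),
            P k (fun x => g (Function.update x i false)) →
            P k (fun x => g (Function.update x i true)) → P (k + 1) g) →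
          P d f) :
    ∀ M, NZ M (toF f) → M.card ≤ d := by
  refine h (fun k g => ∀ M, NZ M (toF g) → M.card ≤ k) ?_ ?_
  · intro k b M hM
    rcases M.eq_empty_or_nonempty with hM0 | hM0
    · rw [hM0]; simp
    · exfalso
      obtain ⟨x, hx⟩ := hM
      apply hx
      have : toF (fun _ : Fin n → Bool => b) = fun _ => (if b then (1 : ℝ) else 0) := by
        funext y; rfl
      rw [this]
      exact dd_const hM0 _ x
  · intro k g i h0 h1
    exact dt_step h0 h1

end Pool.Agent.Helper29_Rel
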